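import Pool.Agent.H329R3.NU.Stmts

set_option autoImplicit false

open MeasureTheory Set Filter Topology
open scoped RealInnerProductSpace

namespace Pool.Agent.H557R3.NUWeak3

open Pool.Agent.H329R3.PM Pool.Agent.H329R3.NU

/-- the chart of a direction -/
noncomputable def ch (κ : ℝ) (ω : E 3) (z : ℝ × ℝ) : E 3 × ℝ := ((Real.exp (κ * z.2) * z.1) • ω, z.2)

theorem ch_hasFDeriv (κ : ℝ) (ω : E 3) (z : ℝ × ℝ) :
    HasFDerivAt (ch κ ω) (((Real.exp (κ * z.2) • ContinuousLinearMap.fst ℝ ℝ ℝ +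
      (z.1 * (Real.exp (κ * z.2) * κ)) • ContinuousLinearMap.snd ℝ ℝ ℝ).smulRight ω).prod
      (ContinuousLinearMap.snd ℝ ℝ ℝ)) z := by
  unfold ch
  apply HasFDerivAt.prodMk
  · have h1 : HasFDerivAt (fun z : ℝ × ℝ => Real.exp (κ * z.2))
        ((Real.exp (κ * z.2) * κ) • ContinuousLinearMap.snd ℝ ℝ ℝ) z := by
      have h2 : HasFDerivAt (fun z : ℝ × ℝ => κ * z.2) (κ • ContinuousLinearMap.snd ℝ ℝ ℝ) z :=
        hasFDerivAt_snd.const_mul κ
      have h3 := h2.exp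
      rw [smul_smul] at h3
      exact h3
    have h4 := (h1.mul (hasFDerivAt_fst (𝕜 := ℝ) (E := ℝ) (F := ℝ) (p := z))).smul_const ω
    refine h4.congr_fderiv ?_
    ext <;> simp
  · exact hasFDerivAt_snd

theorem ch_contDiff (κ : ℝ) (ω : E 3) : ContDiff ℝ 1 (ch κ ω) := by
  unfold ch
  fun_prop

theorem dt_ch {κ : ℝ} {ω : E 3} {φ : E 3 × ℝ → ℝ} (hφ : ContDiff ℝ 1 φ) (z : ℝ × ℝ) :
    dt (fun z => φ (ch κ ω z)) z =
      fderiv ℝ φ (ch κ ω z) ((z.1 * (Real.exp (κ * z.2) * κ)) • ω, 1) := by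
  unfold dt
  have h := ((hφ.differentiable one_ne_zero _).hasFDerivAt (x := ch κ ω z)).comp z (ch_hasFDeriv κ ω z)
  have h' : fderiv ℝ (fun z => φ (ch κ ω z)) z = _ := h.fderiv
  rw [h']
  simp

theorem dy_ch {κ : ℝ} {ω : E 3} {φ : E 3 × ℝ → ℝ} (hφ : ContDiff ℝ 1 φ) (z : ℝ × ℝ) :
    dy (fun z => φ (ch κ ω z)) z = fderiv ℝ φ (ch κ ω z) (Real.exp (κ * z.2) • ω, 0) := by
  unfold dy
  have h := ((hφ.differentiable one_ne_zero _).hasFDerivAt (x := ch κ ω z)).comp z (ch_hasFDeriv κ ω z)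
  have h' : fderiv ℝ (fun z => φ (ch κ ω z)) z = _ := h.fderiv
  rw [h']
  simp

theorem tst {κ : ℝ} {ω : E 3} (hω : ‖ω‖ = 1) {φ : E 3 × ℝ → ℝ} (hφ : ContDiff ℝ 1 φ)
    (hc : HasCompactSupport φ) (hs : tsupport φ ⊆ {p | p.2 < 1}) :
    Tst (fun z => φ (ch κ ω z)) := by
  refine ⟨hφ.comp (ch_contDiff κ ω), ?_, ?_⟩
  · obtain ⟨R, hR⟩ := hc.isCompact.isBounded.subset_closedBall 0
    have hR0 : 0 ≤ |R| := abs_nonneg R
    apply HasCompactSupport.intro (K := Metric.closedBall (0 : ℝ × ℝ) (|R| * Real.exp (|κ| * |R|) + |R|))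
      (isCompact_closedBall _ _)
    intro z hz
    by_contra hne
    apply hz
    have h1 : ch κ ω z ∈ Metric.closedBall (0 : E 3 × ℝ) R := hR (subset_tsupport _ hne)
    rw [mem_closedBall_zero_iff] at h1 ⊢
    have h2 : ‖ch κ ω z‖ ≤ |R| := h1.trans (le_abs_self R)
    have h3 : |z.2| ≤ |R| := (norm_snd_le (ch κ ω z)).trans h2
    have h4 : ‖(Real.exp (κ * z.2) * z.1) • ω‖ ≤ |R| := (norm_fst_le (ch κ ω z)).trans h2
    rw [norm_smul, hω, mul_one, Real.norm_eq_abs, abs_mul, abs_of_pos (Real.exp_pos _)] at h4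
    have h5 : |z.1| ≤ |R| * Real.exp (|κ| * |R|) := by
      have h6 : |z.1| = Real.exp (-(κ * z.2)) * (Real.exp (κ * z.2) * |z.1|) := by
        rw [← mul_assoc, ← Real.exp_add]; simp
      rw [h6, mul_comm (|R|)]
      have h7 : -(κ * z.2) ≤ |κ| * |R| := by
        calc -(κ * z.2) ≤ |κ * z.2| := neg_le_abs _
          _ = |κ| * |z.2| := abs_mul _ _
          _ ≤ |κ| * |R| := by gcongr
      gcongr
    rw [Prod.norm_def, Real.norm_eq_abs, Real.norm_eq_abs]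
    apply max_le
    · linarith
    · have : 0 ≤ |R| * Real.exp (|κ| * |R|) := by positivity
      linarith
  · intro z hz
    have h1 : z ∈ ch κ ω ⁻¹' tsupport φ :=
      tsupport_comp_subset_preimage φ (ch_contDiff κ ω).continuous hz
    exact hs h1

/-- the measurability of the kernel -/
theorem kk_meas : Measurable (fun p : ℝ × ℝ => kk p.1 p.2) := by
  unfold kk kap sg
  fun_prop

theorem Sop_meas {w : ℝ × ℝ → ℝ} (hw : Measurable w) :
    Measurable (fun z : ℝ × ℝ => Sop kk (fun ρ => w (ρ, z.2)) z.1) := by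
  unfold Sop
  have h : Measurable (Function.uncurry fun (z : ℝ × ℝ) (y : ℝ) => kk z.1 y * w (y, z.2)) := by
    apply Measurable.mul
    · exact kk_meas.comp (measurable_fst.fst.prodMk measurable_snd)
    · exact hw.comp (measurable_snd.prodMk measurable_fst.snd)
  exact h.stronglyMeasurable.integral_prod_right.measurable

theorem Sth_meas {A κ : ℝ} {w : ℝ × ℝ → ℝ} (hw : Measurable w) : Measurable (Sth A κ w) := by
  unfold Sth
  apply Measurable.mul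
  · fun_prop
  · exact Sop_meas hw

/-- the integrand in the direction `ω` -/
noncomputable def gg (κ : ℝ) (w : ℝ × ℝ → ℝ) (φ : E 3 × ℝ → ℝ) (ω : E 3) (z : ℝ × ℝ) : ℝ :=
  w z * z.1 ^ 2 * fderiv ℝ φ (ch κ ω z) ((z.1 * (Real.exp (κ * z.2) * κ)) • ω, 1) +
    (Sth AA κ w z * √(w z) - κ * w z) * z.1 ^ 3 *
      fderiv ℝ φ (ch κ ω z) (Real.exp (κ * z.2) • ω, 0)

/-- the integrand on space-time -/
noncomputable def FF (κ : ℝ) (w : ℝ × ℝ → ℝ) (φ : E 3 × ℝ → ℝ) (p : E 3 × ℝ) : ℝ :=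
  uu κ w p * fderiv ℝ φ p ((0 : E 3), (1 : ℝ)) -
    uu κ w p ^ ((3 / 2 : ℝ) - 1) * fderiv ℝ φ p (GG κ w p, (0 : ℝ))

theorem FF_ch {κ : ℝ} {w : ℝ × ℝ → ℝ} (hw : ∀ z, 0 ≤ w z) {φ : E 3 × ℝ → ℝ} {ω : E 3}
    (hω : ‖ω‖ = 1) {z : ℝ × ℝ} (hz : 0 < z.1) :
    z.1 ^ 2 * (Real.exp (3 * κ * z.2) * FF κ w φ (Real.exp (κ * z.2) • (z.1 • ω), z.2)) =
      gg κ w φ ω z := by
  obtain ⟨y, t⟩ := z
  simp only at hz ⊢
  have hn : ‖Real.exp (κ * t) • (y • ω)‖ * Real.exp (-κ * t) = y := by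
    rw [norm_smul, norm_smul, hω, mul_one, Real.norm_of_nonneg (Real.exp_pos _).le,
      Real.norm_of_nonneg hz.le, mul_comm (Real.exp (κ * t)), mul_assoc, ← Real.exp_add]
    simp
  have hu : uu κ w (Real.exp (κ * t) • (y • ω), t) = Real.exp (-3 * κ * t) * w (y, t) := by
    unfold uu
    simp only
    rw [hn]
  have hG : GG κ w (Real.exp (κ * t) • (y • ω), t) =
      (-(Sth AA κ w (y, t)) * Real.exp (-(3 / 2) * κ * t) * y * Real.exp (κ * t)) • ω := by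
    unfold GG Sth
    simp only
    rw [hn, smul_smul, smul_smul]
    congr 1
    have e1 : Real.exp (-(7 / 2) * κ * t) = Real.exp (-2 * κ * t) * Real.exp (-(3 / 2) * κ * t) := by
      rw [← Real.exp_add]; congr 1; ring
    rw [e1]
    ring
  have hs : uu κ w (Real.exp (κ * t) • (y • ω), t) ^ ((3 / 2 : ℝ) - 1) =
      Real.exp (-(3 / 2) * κ * t) * √(w (y, t)) := by
    rw [hu, Real.mul_rpow (Real.exp_pos _).le (hw _), Real.sqrt_eq_rpow, ← Real.exp_mul]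
    congr 2
    · ring
    · norm_num
  unfold FF gg
  rw [hs, hu, hG]
  have hch : ch κ ω (y, t) = (Real.exp (κ * t) • (y • ω), t) := by
    unfold ch
    rw [smul_smul]
  rw [hch]
  simp only
  set L := fderiv ℝ φ (Real.exp (κ * t) • (y • ω), t) with hL
  have l1 : ∀ c : ℝ, L (c • ω, 0) = c * L (ω, 0) := by
    intro c
    have : ((c • ω, 0) : E 3 × ℝ) = c • (ω, 0) := by simp
    rw [this, map_smul, smul_eq_mul]
  have l2 : ∀ c : ℝ, L (c • ω, 1) = c * L (ω, 0) + L (0, 1) := by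
    intro c
    have : ((c • ω, 1) : E 3 × ℝ) = (c • ω, 0) + (0, 1) := by simp
    rw [this, map_add, l1]
  rw [l1, l1, l2]
  have e2 : Real.exp (3 * κ * t) * Real.exp (-3 * κ * t) = 1 := by
    rw [← Real.exp_add]; simp
  have e3 : Real.exp (3 * κ * t) * (Real.exp (-(3 / 2) * κ * t) * Real.exp (-(3 / 2) * κ * t)) = 1 := by
    rw [← Real.exp_add, ← Real.exp_add]
    have : 3 * κ * t + (-(3 / 2) * κ * t + -(3 / 2) * κ * t) = 0 := by ring
    rw [this, Real.exp_zero]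
  set E3 := Real.exp (3 * κ * t)
  set E4 := Real.exp (-3 * κ * t)
  set E5 := Real.exp (-(3 / 2) * κ * t)
  set E6 := Real.exp (κ * t)
  set W0 := w (y, t)
  set S0 := Sth AA κ w (y, t)
  have e4 : y ^ 2 * (E3 * (E4 * W0 * L (0, 1) - E5 * √W0 * (-S0 * E5 * y * E6 * L (ω, 0)))) =
      y ^ 2 * ((E3 * E4) * (W0 * L (0, 1)) + (E3 * (E5 * E5)) * (√W0 * (S0 * y * E6 * L (ω, 0)))) := by
    ring
  rw [e4, e2, e3]
  ring

theorem gg_outer {κ : ℝ} {w : ℝ × ℝ → ℝ} {φ : E 3 × ℝ → ℝ} {ω : E 3} {z : ℝ × ℝ}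
    (h : w z = 0) : gg κ w φ ω z = 0 := by
  unfold gg
  rw [h]
  simp

theorem gg_meas {κ : ℝ} {w : ℝ × ℝ → ℝ} (hw : Measurable w) {φ : E 3 × ℝ → ℝ}
    (hφ : ContDiff ℝ 1 φ) : Measurable (fun q : (ℝ × E 3) × ℝ => gg κ w φ q.1.2 (q.2, q.1.1)) := by
  have hz : Measurable (fun q : (ℝ × E 3) × ℝ => ((q.2, q.1.1) : ℝ × ℝ)) := by fun_prop
  have hL := (hφ.continuous_fderiv_apply one_ne_zero).measurable
  have hch : Measurable (fun q : (ℝ × E 3) × ℝ => ch κ q.1.2 (q.2, q.1.1)) := by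
    unfold ch
    fun_prop
  have h1 : Measurable (fun q : (ℝ × E 3) × ℝ => fderiv ℝ φ (ch κ q.1.2 (q.2, q.1.1))
      ((q.2 * (Real.exp (κ * q.1.1) * κ)) • q.1.2, 1)) := by
    exact hL.comp (hch.prodMk (by fun_prop))
  have h2 : Measurable (fun q : (ℝ × E 3) × ℝ => fderiv ℝ φ (ch κ q.1.2 (q.2, q.1.1))
      (Real.exp (κ * q.1.1) • q.1.2, 0)) := by
    exact hL.comp (hch.prodMk (by fun_prop))
  have h3 := hw.comp hz
  have h4 := (Sth_meas (A := AA) (κ := κ) hw).comp hz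
  unfold gg
  exact ((h3.mul (by fun_prop)).mul h1).add ((((h4.mul h3.sqrt).sub (measurable_const.mul h3)).mul
    (by fun_prop)).mul h2)

theorem fderiv_bdd {φ : E 3 × ℝ → ℝ} (hφ : ContDiff ℝ 1 φ) (hc : HasCompactSupport φ) :
    ∃ M, 0 ≤ M ∧ ∀ p, ‖fderiv ℝ φ p‖ ≤ M := by
  obtain ⟨M, hM⟩ := (hc.fderiv (𝕜 := ℝ)).exists_bound_of_continuous (hφ.continuous_fderiv one_ne_zero)
  exact ⟨M, (norm_nonneg _).trans (hM 0), hM⟩

theorem gg_bdd {κ ε : ℝ} {w : ℝ × ℝ → ℝ} (hκ : 0 < κ) (hw : CoreSol AA κ ε w) {φ : E 3 × ℝ → ℝ}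
    (hφ : ContDiff ℝ 1 φ) (hc : HasCompactSupport φ) :
    ∃ K, ∀ᵐ t ∂(volume.restrict (Ioo (0 : ℝ) 1)), ∀ y ∈ Ioo (0 : ℝ) 1, ∀ ω : E 3, ‖ω‖ = 1 →
      |gg κ w φ ω (y, t)| ≤ K := by
  obtain ⟨M, hM0, hM⟩ := fderiv_bdd hφ hc
  obtain ⟨B, hB⟩ := hw.bdd
  obtain ⟨C, hC⟩ := hw.thb
  have hB0 : 0 ≤ B := (hw.nonneg 0).trans (hB 0)
  refine ⟨B * 1 * (M * (Real.exp κ * κ + 1)) + (|C| * √B + κ * B) * 1 * (M * Real.exp κ), ?_⟩
  filter_upwards [hC, ae_restrict_mem measurableSet_Ioo] with t ht ht1 y hy ω hω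
  have hw0 := hw.nonneg (y, t)
  have hw1 := hB (y, t)
  have hS : |Sth AA κ w (y, t)| ≤ |C| := (ht y ⟨hy.1, hy.2.le⟩).trans (le_abs_self C)
  have hy2 : y ^ 2 ≤ 1 := pow_le_one₀ hy.1.le hy.2.le
  have hy3 : y ^ 3 ≤ 1 := pow_le_one₀ hy.1.le hy.2.le
  have hy20 : 0 ≤ y ^ 2 := pow_nonneg hy.1.le _
  have hy30 : 0 ≤ y ^ 3 := pow_nonneg hy.1.le _
  have he : Real.exp (κ * t) ≤ Real.exp κ := by
    apply Real.exp_le_exp.2
    nlinarith [ht1.1, ht1.2]
  have he0 := Real.exp_pos (κ * t)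
  have hL : ∀ p v, |fderiv ℝ φ p v| ≤ M * ‖v‖ := fun p v => by
    rw [← Real.norm_eq_abs]
    exact ((fderiv ℝ φ p).le_opNorm v).trans (by gcongr; exact hM p)
  have hv1 : ‖(((y * (Real.exp (κ * t) * κ)) • ω, 1) : E 3 × ℝ)‖ ≤ Real.exp κ * κ + 1 := by
    rw [Prod.norm_def, norm_smul, hω, mul_one, norm_one, Real.norm_of_nonneg (by
      have := hy.1
      positivity)]
    apply max_le
    · have h1 : y * (Real.exp (κ * t) * κ) ≤ 1 * (Real.exp κ * κ) := by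
        have := hy.1
        have := hy.2.le
        gcongr
      linarith
    · have : 0 < Real.exp κ * κ := by positivity
      linarith
  have hv2 : ‖((Real.exp (κ * t) • ω, 0) : E 3 × ℝ)‖ ≤ Real.exp κ := by
    rw [Prod.norm_def, norm_smul, hω, mul_one, norm_zero, Real.norm_of_nonneg he0.le]
    exact max_le he (Real.exp_pos κ).le
  have h1 := (hL (ch κ ω (y, t)) ((y * (Real.exp (κ * t) * κ)) • ω, 1)).trans
    (mul_le_mul_of_nonneg_left hv1 hM0)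
  have h2 := (hL (ch κ ω (y, t)) (Real.exp (κ * t) • ω, 0)).trans
    (mul_le_mul_of_nonneg_left hv2 hM0)
  unfold gg
  refine (abs_add_le _ _).trans (add_le_add ?_ ?_)
  · rw [abs_mul, abs_mul, abs_of_nonneg hw0, abs_of_nonneg hy20]
    gcongr
  · rw [abs_mul, abs_mul, abs_of_nonneg hy30]
    have h3 : |Sth AA κ w (y, t) * √(w (y, t)) - κ * w (y, t)| ≤ |C| * √B + κ * B := by
      refine (abs_sub _ _).trans ?_
      rw [abs_mul, abs_mul, abs_of_nonneg (Real.sqrt_nonneg _), abs_of_pos hκ, abs_of_nonneg hw0]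
      gcongr
    gcongr

theorem gg_int {κ ε : ℝ} {w : ℝ × ℝ → ℝ} (hκ : 0 < κ) (hw : CoreSol AA κ ε w) {φ : E 3 × ℝ → ℝ}
    (hφ : ContDiff ℝ 1 φ) (hc : HasCompactSupport φ) (σ : Measure (E 3)) [IsFiniteMeasure σ]
    (hσ : ∀ᵐ ω ∂σ, ‖ω‖ = 1) :
    Integrable (fun q : (ℝ × E 3) × ℝ => gg κ w φ q.1.2 (q.2, q.1.1))
      (((volume.restrict (Ioo (0 : ℝ) 1)).prod σ).prod (volume.restrict (Ioo (0 : ℝ) 1))) := by
  obtain ⟨K, hK⟩ := gg_bdd hκ hw hφ hc
  refine Integrable.of_bound (gg_meas hw.meas hφ).aestronglyMeasurable K ?_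
  have a1 : ∀ᵐ q : (ℝ × E 3) × ℝ ∂(((volume.restrict (Ioo (0 : ℝ) 1)).prod σ).prod
      (volume.restrict (Ioo (0 : ℝ) 1))), ∀ y ∈ Ioo (0 : ℝ) 1, ∀ ω : E 3, ‖ω‖ = 1 →
      |gg κ w φ ω (y, q.1.1)| ≤ K :=
    Measure.quasiMeasurePreserving_fst.ae (Measure.quasiMeasurePreserving_fst.ae hK)
  have a2 : ∀ᵐ q : (ℝ × E 3) × ℝ ∂(((volume.restrict (Ioo (0 : ℝ) 1)).prod σ).prod
      (volume.restrict (Ioo (0 : ℝ) 1))), ‖q.1.2‖ = 1 :=
    Measure.quasiMeasurePreserving_fst.ae (Measure.quasiMeasurePreserving_snd.ae hσ)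
  have a3 : ∀ᵐ q : (ℝ × E 3) × ℝ ∂(((volume.restrict (Ioo (0 : ℝ) 1)).prod σ).prod
      (volume.restrict (Ioo (0 : ℝ) 1))), q.2 ∈ Ioo (0 : ℝ) 1 :=
    Measure.quasiMeasurePreserving_snd.ae (ae_restrict_mem measurableSet_Ioo)
  filter_upwards [a1, a2, a3] with q h1 h2 h3
  rw [Real.norm_eq_abs]
  exact h1 _ h3 _ h2

theorem gg_int1 {κ ε : ℝ} {w : ℝ × ℝ → ℝ} (hκ : 0 < κ) (hw : CoreSol AA κ ε w) {φ : E 3 × ℝ → ℝ}
    (hφ : ContDiff ℝ 1 φ) (hc : HasCompactSupport φ) {ω : E 3} (hω : ‖ω‖ = 1) :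
    Integrable (fun z : ℝ × ℝ => gg κ w φ ω z)
      ((volume.restrict (Ioo (0 : ℝ) 1)).prod (volume.restrict (Ioo (0 : ℝ) 1))) := by
  obtain ⟨K, hK⟩ := gg_bdd hκ hw hφ hc
  have hm : Measurable (fun z : ℝ × ℝ => gg κ w φ ω z) := by
    have := (gg_meas (κ := κ) hw.meas hφ).comp
      (show Measurable (fun z : ℝ × ℝ => (((z.2, ω), z.1) : (ℝ × E 3) × ℝ)) by fun_prop)
    exact this
  refine Integrable.of_bound hm.aestronglyMeasurable K ?_
  have a1 : ∀ᵐ q : ℝ × ℝ ∂((volume.restrict (Ioo (0 : ℝ) 1)).prod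
      (volume.restrict (Ioo (0 : ℝ) 1))), ∀ y ∈ Ioo (0 : ℝ) 1, ∀ ω : E 3, ‖ω‖ = 1 →
      |gg κ w φ ω (y, q.2)| ≤ K :=
    Measure.quasiMeasurePreserving_snd.ae hK
  have a3 : ∀ᵐ q : ℝ × ℝ ∂((volume.restrict (Ioo (0 : ℝ) 1)).prod
      (volume.restrict (Ioo (0 : ℝ) 1))), q.1 ∈ Ioo (0 : ℝ) 1 :=
    Measure.quasiMeasurePreserving_fst.ae (ae_restrict_mem measurableSet_Ioo)
  filter_upwards [a1, a3] with q h1 h3
  rw [Real.norm_eq_abs]
  exact h1 _ h3 _ hω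

theorem u0_int {φ : E 3 × ℝ → ℝ} (hφ : ContDiff ℝ 1 φ) (hc : HasCompactSupport φ) :
    Integrable (fun x : E 3 => u0 x * φ (x, (0 : ℝ))) := by
  have h1 : Continuous (fun x : E 3 => φ (x, (0 : ℝ))) := hφ.continuous.comp (by fun_prop)
  have h2 : HasCompactSupport (fun x : E 3 => φ (x, (0 : ℝ))) := by
    apply HasCompactSupport.intro (hc.isCompact.image continuous_fst)
    intro x hx
    by_contra hne
    exact hx ⟨(x, 0), subset_tsupport _ hne, rfl⟩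
  have h3 := h1.integrable_of_hasCompactSupport (μ := volume) h2
  refine Integrable.bdd_mul (c := 1) h3 ?_ ?_
  · apply Measurable.aestronglyMeasurable
    unfold u0
    exact Measurable.ite (measurableSet_le measurable_norm measurable_const) measurable_const
      measurable_const
  · filter_upwards with x
    unfold u0
    split_ifs <;> simp

theorem taskWeak3 : TaskWeak3 := by
  intro hP hB κ ε w hκ hw φ hφ hc hs
  obtain ⟨hum, hu0, ⟨B, huB⟩, -, -, hGm, ⟨C, hGC⟩⟩ := hB κ ε w hκ hw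
  have hcont := hφ.continuous_fderiv_apply one_ne_zero
  have hN : Integrable (fun p : E 3 × ℝ => ‖fderiv ℝ φ p‖) :=
    ((hφ.continuous_fderiv one_ne_zero).integrable_of_hasCompactSupport (hc.fderiv (𝕜 := ℝ))).norm
  have hD : Integrable (fun p : E 3 × ℝ => fderiv ℝ φ p ((0 : E 3), (1 : ℝ))) := by
    refine Integrable.mono' hN (hcont.comp (by fun_prop :
      Continuous fun p : E 3 × ℝ => (p, ((0 : E 3), (1 : ℝ))))).aestronglyMeasurable ?_
    filter_upwards with p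
    refine ((fderiv ℝ φ p).le_opNorm _).trans ?_
    have : ‖((0 : E 3), (1 : ℝ))‖ = 1 := by rw [Prod.norm_def]; simp
    rw [this, mul_one]
  have i1 : IntegrableOn (fun p => uu κ w p * fderiv ℝ φ p ((0 : E 3), (1 : ℝ)))
      (univ ×ˢ Ioo (0 : ℝ) 1) := by
    refine Integrable.bdd_mul (c := B) hD.integrableOn hum.aestronglyMeasurable ?_
    filter_upwards [ae_restrict_mem (MeasurableSet.univ.prod measurableSet_Ioo)] with p hp
    rw [Real.norm_of_nonneg (hu0 p)]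
    exact huB p hp.2.1.le
  have i2 : IntegrableOn (fun p => uu κ w p ^ ((3 / 2 : ℝ) - 1) *
      fderiv ℝ φ p (GG κ w p, (0 : ℝ))) (univ ×ˢ Ioo (0 : ℝ) 1) := by
    refine Integrable.mono' (g := fun p => (B ^ ((3 / 2 : ℝ) - 1) * |C|) * ‖fderiv ℝ φ p‖)
      (hN.integrableOn.const_mul _) ?_ ?_
    · apply Measurable.aestronglyMeasurable
      apply Measurable.mul
      · exact hum.pow_const _
      · exact hcont.measurable.comp (measurable_id.prodMk (hGm.prodMk measurable_const))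
    · filter_upwards [hGC, ae_restrict_mem (MeasurableSet.univ.prod measurableSet_Ioo)] with p h1 hp
      rw [norm_mul, Real.norm_of_nonneg (Real.rpow_nonneg (hu0 p) _), mul_assoc]
      have h2 : ‖((GG κ w p, (0 : ℝ)) : E 3 × ℝ)‖ ≤ |C| := by
        rw [Prod.norm_def, norm_zero]
        exact max_le (h1.trans (le_abs_self C)) (abs_nonneg C)
      have h3 : ‖fderiv ℝ φ p (GG κ w p, (0 : ℝ))‖ ≤ |C| * ‖fderiv ℝ φ p‖ := by
        refine ((fderiv ℝ φ p).le_opNorm _).trans ?_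
        rw [mul_comm]
        gcongr
      have h4 := huB p hp.2.1.le
      have h5 := hu0 p
      have h6 : uu κ w p ^ ((3 / 2 : ℝ) - 1) ≤ B ^ ((3 / 2 : ℝ) - 1) :=
        Real.rpow_le_rpow h5 h4 (by norm_num)
      exact mul_le_mul h6 h3 (norm_nonneg _) (Real.rpow_nonneg (h5.trans h4) _)
  refine ⟨i1, i2, ?_⟩
  rw [← integral_sub i1 i2]
  change (∫ p in (univ ×ˢ Ioo (0 : ℝ) 1 : Set (E 3 × ℝ)), FF κ w φ p) + _ = 0
  obtain ⟨σ, hfin, hσ, hpol⟩ := hP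
  have e1 : (volume : Measure (E 3 × ℝ)).restrict (univ ×ˢ Ioo (0 : ℝ) 1) =
      (volume : Measure (E 3)).prod (volume.restrict (Ioo (0 : ℝ) 1)) := by
    have := Measure.prod_restrict (μ := (volume : Measure (E 3))) (ν := (volume : Measure ℝ))
      univ (Ioo (0 : ℝ) 1)
    rw [Measure.restrict_univ] at this
    exact this.symm
  have iF : Integrable (FF κ w φ) ((volume : Measure (E 3)).prod (volume.restrict (Ioo (0 : ℝ) 1))) := by
    have := i1.integrable.sub i2.integrable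
    rw [e1] at this
    exact this
  rw [e1, integral_prod_symm _ iF]
  have e2 : ∀ᵐ t ∂(volume.restrict (Ioo (0 : ℝ) 1)), ∫ x, FF κ w φ (x, t) =
      ∫ ω, (∫ y in Ioo (0 : ℝ) 1, gg κ w φ ω (y, t)) ∂σ := by
    filter_upwards [iF.prod_left_ae] with t ht
    have h1 : ∫ x, FF κ w φ (x, t) =
        ∫ x : E 3, Real.exp (3 * κ * t) * FF κ w φ (Real.exp (κ * t) • x, t) := by
      have h := Measure.integral_comp_smul (volume : Measure (E 3)) (fun x => FF κ w φ (x, t))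
        (Real.exp (κ * t))
      rw [integral_const_mul, h, finrank_euclideanSpace_fin, smul_eq_mul, ← mul_assoc,
        abs_of_pos (by positivity), ← Real.exp_nat_mul, ← Real.exp_neg, ← Real.exp_add]
      have : 3 * κ * t + -((3 : ℕ) * (κ * t)) = 0 := by push_cast; ring
      rw [this, Real.exp_zero, one_mul]
    have h2 : Integrable (fun x : E 3 => Real.exp (3 * κ * t) *
        FF κ w φ (Real.exp (κ * t) • x, t)) :=
      (ht.comp_smul (Real.exp_pos _).ne').const_mul _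
    rw [h1, hpol _ h2]
    apply integral_congr_ae
    filter_upwards [hσ] with ω hω
    have h3 : ∫ y in Ioi (0 : ℝ), y ^ 2 * (Real.exp (3 * κ * t) *
        FF κ w φ (Real.exp (κ * t) • (y • ω), t)) = ∫ y in Ioi (0 : ℝ), gg κ w φ ω (y, t) :=
      setIntegral_congr_fun measurableSet_Ioi
        (fun y hy => FF_ch hw.nonneg hω (z := (y, t)) hy)
    rw [h3, ← integral_Ioc_eq_integral_Ioo]
    apply setIntegral_eq_of_subset_of_forall_diff_eq_zero measurableSet_Ioi Ioc_subset_Ioi_self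
    intro y hy
    exact gg_outer (hw.supp _ hy.2)
  rw [integral_congr_ae e2]
  rw [integral_integral_swap (f := fun t ω => ∫ y in Ioo (0 : ℝ) 1, gg κ w φ ω (y, t))
    (gg_int hκ hw hφ hc σ hσ).integral_prod_left]
  have e3 : ∫ ω, (∫ t in Ioo (0 : ℝ) 1, ∫ y in Ioo (0 : ℝ) 1, gg κ w φ ω (y, t)) ∂σ =
      ∫ ω, -(∫ y in Ioc (0 : ℝ) 1, y ^ 2 * φ (y • ω, 0)) ∂σ := by
    apply integral_congr_ae
    filter_upwards [hσ] with ω hω
    have h1 := hw.weak (fun z => φ (ch κ ω z)) (tst hω hφ hc hs)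
    have h2 : ∫ z in Om, (w z * z.1 ^ 2 * dt (fun z => φ (ch κ ω z)) z +
        (Sth AA κ w z * √(w z) - κ * w z) * z.1 ^ 3 * dy (fun z => φ (ch κ ω z)) z) =
        ∫ z in Om, gg κ w φ ω z := by
      congr 1
      ext z
      rw [dt_ch hφ, dy_ch hφ]
      rfl
    rw [h2] at h1
    have h3 : ∫ z in Om, gg κ w φ ω z =
        ∫ t in Ioo (0 : ℝ) 1, ∫ y in Ioo (0 : ℝ) 1, gg κ w φ ω (y, t) := by
      have h5 : (volume : Measure (ℝ × ℝ)).restrict Om =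
          (volume.restrict (Ioo (0 : ℝ) 1)).prod (volume.restrict (Ioo (0 : ℝ) 1)) := by
        unfold Om
        rw [Measure.prod_restrict]
        rfl
      rw [h5, integral_prod_symm _ (gg_int1 hκ hw hφ hc hω)]
    have h4 : ∫ y in Ioc (0 : ℝ) 1, y ^ 2 * φ (ch κ ω (y, 0)) =
        ∫ y in Ioc (0 : ℝ) 1, y ^ 2 * φ (y • ω, 0) := by
      congr 1
      ext y
      unfold ch
      simp
    rw [h4, h3] at h1
    linarith
  have e4 : ∫ x : E 3, u0 x * φ (x, (0 : ℝ)) =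
      ∫ ω, (∫ y in Ioc (0 : ℝ) 1, y ^ 2 * φ (y • ω, 0)) ∂σ := by
    rw [hpol _ (u0_int hφ hc)]
    apply integral_congr_ae
    filter_upwards [hσ] with ω hω
    have h1 : ∫ y in Ioc (0 : ℝ) 1, y ^ 2 * (u0 (y • ω) * φ (y • ω, (0 : ℝ))) =
        ∫ y in Ioi (0 : ℝ), y ^ 2 * (u0 (y • ω) * φ (y • ω, (0 : ℝ))) := by
      symm
      apply setIntegral_eq_of_subset_of_forall_diff_eq_zero measurableSet_Ioi Ioc_subset_Ioi_self
      intro y hy
      have h2 : ¬ ‖y • ω‖ ≤ 1 := by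
        have h0 : (0 : ℝ) < y := hy.1
        rw [norm_smul, hω, mul_one, Real.norm_of_nonneg h0.le]
        intro h
        exact hy.2 ⟨h0, h⟩
      simp only [u0, if_neg h2]
      ring
    rw [← h1]
    apply setIntegral_congr_fun measurableSet_Ioc
    intro y hy
    have h2 : ‖y • ω‖ ≤ 1 := by
      rw [norm_smul, hω, mul_one, Real.norm_of_nonneg hy.1.le]
      exact hy.2
    simp only [u0, if_pos h2]
    ring
  rw [e3, e4, integral_neg]
  ring

end Pool.Agent.H557R3.NUWeak3
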