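import Pool.Agent.H557R3.BqoSeq

set_option autoImplicit false

/-!
Transfinite sequences of countable length over a relation without bad arrays form a
well-quasi-order; every well-quasi-order is a countable union of sets without bad arrays.
-/

namespace Pool.Agent.H557R3.Bqo

variable {Q : Type}

theorem rpL_single {r : Q → Q → Prop} {f : Ordinal.{0} → Q} {T : W Q} {a b : Ordinal.{0}}
    (h : Rp r f T a b) : RpL r f [T] a b := ⟨b, h, rfl⟩

theorem cofinal_seq {a b : Ordinal.{0}} (hab : a < b) (hlim : ∀ x, x < b → Order.succ x < b)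
    (hc : Countable (Set.Iio b)) :
    ∃ s : ℕ → Ordinal.{0}, StrictMono s ∧ s 0 = a ∧ (∀ n, s n < b) ∧
      ∀ x, x < b → ∃ n, x < s n := by
  classical
  have : Nonempty (Set.Iio b) := ⟨⟨a, hab⟩⟩
  obtain ⟨e, he⟩ := exists_surjective_nat (Set.Iio b)
  let s : ℕ → Set.Iio b := fun n => Nat.rec ⟨a, hab⟩
    (fun n t => ⟨Order.succ (max t.1 (e n).1), hlim _ (max_lt t.2 (e n).2)⟩) n
  have hs : ∀ n, (s (n + 1)).1 = Order.succ (max (s n).1 (e n).1) := fun _ => rfl
  refine ⟨fun n => (s n).1, strictMono_nat_of_lt_succ fun n => ?_, rfl, fun n => (s n).2, ?_⟩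
  · rw [hs]
    exact (le_max_left _ _).trans_lt (Order.lt_succ _)
  · intro x hx
    obtain ⟨n, hn⟩ := he ⟨x, hx⟩
    refine ⟨n + 1, ?_⟩
    show x < (s (n + 1)).1
    rw [hs, hn]
    exact (le_max_right _ _).trans_lt (Order.lt_succ _)

theorem recur {r : Q → Q → Prop} (hW : ∀ A : ℕ → W Q, ∃ m n, m < n ∧ wls r (A m) (A n))
    (T : ℕ → W Q) : ∃ N, ∀ i, N ≤ i → ∀ M, ∃ n, M ≤ n ∧ wls r (T i) (T n) := by
  classical
  by_contra hcon
  push Not at hcon
  choose i hi M hM using hcon
  let k : ℕ → ℕ := fun j => Nat.rec 0 (fun _ t => max (i t + 1) (M t)) j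
  have hk : ∀ j, k (j + 1) = max (i (k j) + 1) (M (k j)) := fun _ => rfl
  have hkmono : Monotone k := monotone_nat_of_le_succ fun j => by
    rw [hk]
    exact (hi (k j)).trans ((Nat.le_succ _).trans (le_max_left _ _))
  obtain ⟨m, n, hmn, h⟩ := hW fun j => T (i (k j))
  refine hM (k m) (i (k n)) ?_ h
  have h1 : M (k m) ≤ k (m + 1) := by rw [hk]; exact le_max_right _ _
  exact h1.trans ((hkmono hmn).trans (hi _))

theorem flatten {r : Q → Q → Prop} {f : Ordinal.{0} → Q} {a b : Ordinal.{0}}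
    {s : ℕ → Ordinal.{0}} (hs : StrictMono s) (h0 : s 0 = a) (hsb : ∀ n, s n < b)
    (hcof : ∀ x, x < b → ∃ n, x < s n) (hl : ∀ n, ∃ l, RpL r f l (s n) (s (n + 1))) :
    ∃ (c : ℕ → Ordinal.{0}) (T : ℕ → W Q), c 0 = a ∧ (∀ k, Rp r f (T k) (c k) (c (k + 1))) ∧
      (∀ k, c k < b) ∧ ∀ x, x < b → ∃ k, x < c k := by
  classical
  choose L hL using hl
  have hLne : ∀ n, L n ≠ [] := by
    intro n hn
    have := hL n
    rw [hn] at this
    have h1 : s n = s (n + 1) := this
    exact absurd h1 (hs (Nat.lt_succ_self n)).ne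
  let St := {p : ℕ × List (W Q) × Ordinal.{0} //
    p.2.1 ≠ [] ∧ RpL r f p.2.1 p.2.2 (s (p.1 + 1)) ∧ s p.1 ≤ p.2.2}
  have hstep : ∀ p : St, ∃ (p' : St) (T : W Q), Rp r f T p.1.2.2 p'.1.2.2 ∧
      ((p'.1.1 = p.1.1 ∧ p'.1.2.1.length < p.1.2.1.length) ∨ p'.1.1 = p.1.1 + 1) := by
    rintro ⟨⟨n, l, c⟩, hne, hR, hle⟩
    cases l with
    | nil => exact absurd rfl hne
    | cons T l' =>
      obtain ⟨a', hT, hl'⟩ := hR
      by_cases hl0 : l' = []
      · subst hl0
        have : a' = s (n + 1) := hl'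
        subst this
        exact ⟨⟨(n + 1, L (n + 1), s (n + 1)), hLne _, hL _, le_rfl⟩, T, hT, Or.inr rfl⟩
      · exact ⟨⟨(n, l', a'), hl0, hl', hle.trans (rp_lt hT).le⟩, T, hT,
          Or.inl ⟨rfl, by simp⟩⟩
  choose nxt T hT hnxt using hstep
  let st : ℕ → St := fun k => Nat.rec ⟨(0, L 0, s 0), hLne 0, hL 0, le_rfl⟩ (fun _ p => nxt p) k
  have hst : ∀ k, st (k + 1) = nxt (st k) := fun _ => rfl
  have hmono : ∀ k, (st k).1.1 ≤ (st (k + 1)).1.1 := by
    intro k
    rw [hst]
    rcases hnxt (st k) with h | h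
    · exact h.1.symm.le
    · rw [h]; exact Nat.le_succ _
  have hadv : ∀ len k, (st k).1.2.1.length ≤ len → ∃ k', (st k).1.1 + 1 ≤ (st k').1.1 := by
    intro len
    induction len with
    | zero =>
      intro k hk
      exact absurd (List.length_eq_zero_iff.1 (Nat.le_zero.1 hk)) (st k).2.1
    | succ len ih =>
      intro k hk
      rcases hnxt (st k) with h | h
      · obtain ⟨k', hk'⟩ := ih (k + 1) (by rw [hst]; omega)
        refine ⟨k', ?_⟩
        have : (st (k + 1)).1.1 = (st k).1.1 := by rw [hst]; exact h.1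
        omega
      · exact ⟨k + 1, by rw [hst, h]⟩
  have hcofn : ∀ n, ∃ k, n ≤ (st k).1.1 := by
    intro n
    induction n with
    | zero => exact ⟨0, Nat.zero_le _⟩
    | succ n ih =>
      obtain ⟨k, hk⟩ := ih
      obtain ⟨k', hk'⟩ := hadv _ k le_rfl
      exact ⟨k', by omega⟩
  refine ⟨fun k => (st k).1.2.2, fun k => T (st k), h0, fun k => hT (st k), fun k => ?_, ?_⟩
  · exact (rpL_le _ _ _ (st k).2.2.1).trans_lt (hsb _)
  · intro x hx
    obtain ⟨n, hn⟩ := hcof x hx
    obtain ⟨k, hk⟩ := hcofn n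
    exact ⟨k, hn.trans_le ((hs.monotone hk).trans (st k).2.2.2)⟩

theorem decomp {r : Q → Q → Prop} (hW : ∀ A : ℕ → W Q, ∃ m n, m < n ∧ wls r (A m) (A n))
    (f : Ordinal.{0} → Q) : ∀ b : Ordinal.{0}, Countable (Set.Iio b) → ∀ a, a ≤ b →
    ∃ l, RpL r f l a b := by
  classical
  intro b
  induction b using WellFoundedLT.induction with
  | ind b ih =>
    intro hc a hab
    rcases hab.eq_or_lt with rfl | hab
    · exact ⟨[], rfl⟩
    by_cases hsucc : ∃ b', Order.succ b' = b
    · obtain ⟨b', rfl⟩ := hsucc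
      have hb' : b' < Order.succ b' := Order.lt_succ b'
      have hc' : Countable (Set.Iio b') :=
        (Set.Countable.mono (Set.Iio_subset_Iio hb'.le) hc : (Set.Iio b').Countable)
      obtain ⟨l, hl⟩ := ih b' hb' hc' a (Order.lt_succ_iff.1 hab)
      refine ⟨l ++ [W.elem (f b')], rpL_append _ _ _ _ _ hl (rpL_single ?_)⟩
      exact rp_elem_iff.2 ⟨rfl, rfl⟩
    · have hlim : ∀ x, x < b → Order.succ x < b := by
        intro x hx
        exact lt_of_le_of_ne (Order.succ_le_of_lt hx) fun h => hsucc ⟨x, h⟩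
      obtain ⟨s, hs, hs0, hsb, hcof⟩ := cofinal_seq hab hlim hc
      have hl : ∀ n, ∃ l, RpL r f l (s n) (s (n + 1)) := by
        intro n
        refine ih _ (hsb _) ?_ _ (hs (Nat.lt_succ_self n)).le
        exact (Set.Countable.mono (Set.Iio_subset_Iio (hsb _).le) hc : (Set.Iio _).Countable)
      obtain ⟨c, T, hc0, hT, hcb, hccof⟩ := flatten hs hs0 hsb hcof hl
      have hcmono : StrictMono c := strictMono_nat_of_lt_succ fun k => rp_lt (hT k)
      obtain ⟨N, hN⟩ := recur hW T
      have hfin : ∀ n, ∃ l, RpL r f l (c 0) (c n) := by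
        intro n
        induction n with
        | zero => exact ⟨[], rfl⟩
        | succ n ih =>
          obtain ⟨l, hl⟩ := ih
          exact ⟨l ++ [T n], rpL_append _ _ _ _ _ hl (rpL_single (hT n))⟩
      obtain ⟨l, hl⟩ := hfin N
      refine ⟨l ++ [W.set fun i => T (N + i)], rpL_append _ _ _ (c N) _ (hc0 ▸ hl)
        (rpL_single ?_)⟩
      rw [rp_set_iff]
      refine ⟨fun n => c (N + n), fun m n hmn => hcmono (by omega), rfl, ?_, fun n => hT (N + n),
        ?_⟩
      · intro x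
        constructor
        · intro hx
          obtain ⟨k, hk⟩ := hccof x hx
          exact ⟨k, hk.trans_le (hcmono.monotone (Nat.le_add_left _ _))⟩
        · rintro ⟨n, hn⟩
          exact hn.trans (hcb _)
      · intro i M
        obtain ⟨n, hn, hw⟩ := hN (N + i) (Nat.le_add_right _ _) (N + M)
        exact ⟨n - N, by omega, by rwa [Nat.add_sub_cancel' (by omega)]⟩

/-- Nash-Williams: sequences of countable length over a relation without bad arrays. -/
theorem sequences_good {r : Q → Q → Prop} (hrefl : ∀ a, r a a)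
    (htrans : ∀ a b c, r a b → r b c → r a c) (hr : NB r)
    (o : ℕ → Ordinal.{0}) (f : ∀ n, Set.Iio (o n) → Q) (hc : ∀ n, Countable (Set.Iio (o n))) :
    ∃ m n, m < n ∧ ∃ h : Set.Iio (o m) → Set.Iio (o n),
      StrictMono h ∧ ∀ x, r (f m x) (f n (h x)) := by
  classical
  rcases eq_or_ne (o 0) 0 with h0 | h0
  · have hemp : ∀ x : Set.Iio (o 0), False := by
      rintro ⟨x, hx⟩
      rw [Set.mem_Iio, h0] at hx
      exact absurd hx (not_lt.2 zero_le)
    exact ⟨0, 1, Nat.zero_lt_one, fun x => (hemp x).elim, fun x => (hemp x).elim,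
      fun x => (hemp x).elim⟩
  have hpos : (0 : Ordinal.{0}) < o 0 := pos_iff_ne_zero.2 h0
  let q0 : Q := f 0 ⟨0, hpos⟩
  let F : ℕ → Ordinal.{0} → Q := fun n x => if h : x < o n then f n ⟨x, h⟩ else q0
  have hW : ∀ A : ℕ → W Q, ∃ m n, m < n ∧ wls r (A m) (A n) := wls_wqo hr
  have hdec : ∀ n, ∃ l, RpL r (F n) l 0 (o n) := fun n => decomp hW (F n) (o n) (hc n) 0 zero_le
  choose l hl using hdec
  have : IsPreorder (W Q) (wls r) :=
    { refl := wls_refl hrefl
      trans := wls_trans htrans }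
  have hpwo : (Set.univ : Set (W Q)).PartiallyWellOrderedOn (wls r) := by
    intro g
    exact hW fun n => (g n).1
  have hhig := Set.PartiallyWellOrderedOn.partiallyWellOrderedOn_sublistForall₂ (wls r) hpwo
  obtain ⟨m, n, hmn, hsub⟩ := hhig.exists_lt (f := l) (fun n x _ => Set.mem_univ x)
  obtain ⟨h, h1, h2⟩ := list_emb htrans hsub _ _ _ _ (hl m) (hl n)
  refine ⟨m, n, hmn, fun x => ⟨h x.1, (h2 x.1 zero_le x.2).2.1⟩, ?_, ?_⟩
  · intro x y hxy
    exact h1 x.1 y.1 zero_le hxy y.2
  · intro x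
    have := (h2 x.1 zero_le x.2).2.2
    have hx : x.1 < o m := x.2
    have hy : h x.1 < o n := (h2 x.1 zero_le x.2).2.1
    simp only [F, dif_pos hx, dif_pos hy] at this
    exact this

/-! ### The decomposition -/

section Decomposition

variable {P : Type} [Preorder P]

/-- In a well-quasi-order every set has a finite basis. -/
theorem exists_basis (hP : ∀ g : ℕ → P, ∃ m n, m < n ∧ g m ≤ g n) (U : Set P) :
    ∃ l : List P, (∀ x ∈ l, x ∈ U) ∧ ∀ z ∈ U, ∃ x ∈ l, x ≤ z := by
  classical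
  by_contra hcon
  push Not at hcon
  obtain ⟨g, hg1, hg2⟩ := exists_seq_of_forall_finset_exists (fun x => x ∈ U)
    (fun x y => ¬ x ≤ y) (fun s hs => by
      obtain ⟨z, hz, hz'⟩ := hcon s.toList fun x hx => hs x (Finset.mem_toList.1 hx)
      exact ⟨z, hz, fun x hx => hz' x (Finset.mem_toList.2 hx)⟩)
  obtain ⟨m, n, hmn, h⟩ := hP g
  exact hg2 m n hmn h

/-- Rank in a fixed well-ordering of `P`. -/
noncomputable def rk (x : P) : Ordinal.{0} := Ordinal.typein (WellOrderingRel : P → P → Prop) x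

omit [Preorder P] in
theorem rk_inj {x y : P} (h : rk x = rk y) : x = y := Ordinal.typein_injective _ h

/-- A finite basis of the set of earlier elements which are not below `x`. -/
noncomputable def Fb (hP : ∀ g : ℕ → P, ∃ m n, m < n ∧ g m ≤ g n) (x : P) : List P :=
  (exists_basis hP {z | rk z < rk x ∧ ¬ z ≤ x}).choose

theorem Fb_mem {hP : ∀ g : ℕ → P, ∃ m n, m < n ∧ g m ≤ g n} {x y : P} (h : y ∈ Fb hP x) :
    rk y < rk x ∧ ¬ y ≤ x :=
  (exists_basis hP {z | rk z < rk x ∧ ¬ z ≤ x}).choose_spec.1 y h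

theorem Fb_spec (hP : ∀ g : ℕ → P, ∃ m n, m < n ∧ g m ≤ g n) {x z : P} (h1 : rk z < rk x)
    (h2 : ¬ z ≤ x) : ∃ y ∈ Fb hP x, y ≤ z :=
  (exists_basis hP {z | rk z < rk x ∧ ¬ z ≤ x}).choose_spec.2 z ⟨h1, h2⟩

/-- The code of an element: a finite tree coded by a natural number. -/
noncomputable def code (hP : ∀ g : ℕ → P, ∃ m n, m < n ∧ g m ≤ g n) (x : P) : ℕ :=
  Encodable.encode ((Fb hP x).attach.map fun y => code hP y.1)
termination_by rk x
decreasing_by exact (Fb_mem y.2).1

theorem code_eq (hP : ∀ g : ℕ → P, ∃ m n, m < n ∧ g m ≤ g n) (x : P) :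
    code hP x = Encodable.encode ((Fb hP x).map (code hP)) := by
  rw [code]
  congr 1
  simp

theorem code_inj {hP : ∀ g : ℕ → P, ∃ m n, m < n ∧ g m ≤ g n} {x y : P}
    (h : code hP x = code hP y) : (Fb hP x).map (code hP) = (Fb hP y).map (code hP) := by
  rw [code_eq, code_eq] at h
  exact Encodable.encode_injective h

/-- The elements with the same code as `x₀` have no bad arrays. -/
theorem class_NB (hP : ∀ g : ℕ → P, ∃ m n, m < n ∧ g m ≤ g n) (x₀ : P) :
    NB (fun x y : {x : P // code hP x = code hP x₀} => x.1 ≤ y.1) := by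
  classical
  induction hx : rk x₀ using WellFoundedLT.induction generalizing x₀ with
  | ind ξ ih =>
  subst hx
  intro f hf
  by_contra hcon
  push Not at hcon
  -- make the rank perfect
  obtain ⟨Y, hY, i, hi⟩ := ramsey (K := Prop)
    (hf.pair hf.shift (fun p q => rk p.1 < rk q.1))
  have hlt : ∀ X : ℕ → ℕ, StrictMono X → rk (f (Y ∘ X)).1 < rk (f (Y ∘ shift X)).1 := by
    by_cases h : i
    · intro X hX
      have h' : (rk (f (Y ∘ X)).1 < rk (f (shift (Y ∘ X))).1) = i := hi X hX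
      exact cast h'.symm h
    · exfalso
      have hge : ∀ X : ℕ → ℕ, StrictMono X → rk (f (Y ∘ shift X)).1 < rk (f (Y ∘ X)).1 := by
        intro X hX
        have h' : (rk (f (Y ∘ X)).1 < rk (f (shift (Y ∘ X))).1) = i := hi X hX
        have h'' : ¬ (rk (f (Y ∘ X)).1 < rk (f (shift (Y ∘ X))).1) := by rw [h']; exact h
        refine lt_of_le_of_ne (not_lt.1 h'') fun he => ?_
        have hb := hcon (Y ∘ X) (hY.comp hX)
        have heq : (f (Y ∘ shift X)).1 = (f (Y ∘ X)).1 := rk_inj he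
        apply hb
        have : (f (shift (Y ∘ X))).1 = (f (Y ∘ X)).1 := heq
        exact this.symm.le
      have hsm : ∀ n : ℕ, StrictMono (fun k : ℕ => k + n) := fun n a b hab => by
        show a + n < b + n
        omega
      have hdec : ∀ n : ℕ, rk (f (Y ∘ fun k => k + (n + 1))).1 < rk (f (Y ∘ fun k => k + n)).1 := by
        intro n
        have := hge (fun k => k + n) (hsm n)
        have e : shift (fun k => k + n) = fun k => k + (n + 1) := by
          funext k
          simp only [shift]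
          omega
        rwa [e] at this
      exact (RelEmbedding.natGT (r := ((· < ·) : Ordinal.{0} → Ordinal.{0} → Prop)) _
        hdec).not_wellFounded wellFounded_lt
  -- the children
  have hlen : ∀ x : {x : P // code hP x = code hP x₀},
      (Fb hP x.1).length = (Fb hP x₀).length := by
    intro x
    have := congrArg List.length (code_inj x.2)
    simpa using this
  have hchild : ∀ (x : {x : P // code hP x = code hP x₀}) (j : Fin (Fb hP x₀).length),
      code hP ((Fb hP x.1).get (Fin.cast (hlen x).symm j)) = code hP ((Fb hP x₀).get j) := by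
    intro x j
    have := code_inj x.2
    have h1 : ((Fb hP x.1).map (code hP))[j.1]? = ((Fb hP x₀).map (code hP))[j.1]? := by
      rw [this]
    have hj1 : j.1 < (Fb hP x.1).length := by rw [hlen x]; exact j.2
    have hj2 : j.1 < (Fb hP x₀).length := j.2
    rw [List.getElem?_map, List.getElem?_map, List.getElem?_eq_getElem hj1,
      List.getElem?_eq_getElem hj2] at h1
    exact Option.some.inj h1
  let cd : (j : Fin (Fb hP x₀).length) → {x : P // code hP x = code hP x₀} →
      {y : P // code hP y = code hP ((Fb hP x₀).get j)} := fun j x =>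
    ⟨(Fb hP x.1).get (Fin.cast (hlen x).symm j), hchild x j⟩
  -- key: if all children are below then the elements are comparable
  have key : ∀ x y : {x : P // code hP x = code hP x₀}, rk x.1 < rk y.1 →
      (∀ j, (cd j x).1 ≤ (cd j y).1) → x.1 ≤ y.1 := by
    intro x y hxy hall
    by_contra hnle
    obtain ⟨z, hz, hzx⟩ := Fb_spec hP hxy hnle
    obtain ⟨j, hj⟩ := List.get_of_mem hz
    let j' : Fin (Fb hP x₀).length := Fin.cast (hlen y) j
    have h1 := hall j'
    have h2 : (cd j' y).1 = z := by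
      show (Fb hP y.1).get (Fin.cast (hlen y).symm (Fin.cast (hlen y) j)) = z
      exact hj
    have h3 : (cd j' x).1 ∈ Fb hP x.1 := List.get_mem _ _
    exact (Fb_mem h3).2 (h1.trans (h2.le.trans hzx))
  -- choose a bad child
  let col : {x : P // code hP x = code hP x₀} → {x : P // code hP x = code hP x₀} →
      Option (Fin (Fb hP x₀).length) := fun x y =>
    if h : ∃ j, ¬ (cd j x).1 ≤ (cd j y).1 then some h.choose else none
  have hg : LC (fun X => f (Y ∘ X)) := hf.comp Y
  obtain ⟨Z, hZ, c, hc⟩ := ramsey (hg.pair hg.shift col)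
  have hbad : ∀ X : ℕ → ℕ, StrictMono X → ∃ j, c = some j ∧
      ¬ (cd j (f (Y ∘ Z ∘ X))).1 ≤ (cd j (f (Y ∘ Z ∘ shift X))).1 := by
    intro X hX
    have h1 : col (f (Y ∘ Z ∘ X)) (f (Y ∘ Z ∘ shift X)) = c := hc X hX
    have h2 : ∃ j, ¬ (cd j (f (Y ∘ Z ∘ X))).1 ≤ (cd j (f (Y ∘ Z ∘ shift X))).1 := by
      by_contra hno
      push Not at hno
      exact hcon (Y ∘ Z ∘ X) (hY.comp (hZ.comp hX))
        (key _ _ (hlt (Z ∘ X) (hZ.comp hX)) hno)
    have h3 : col (f (Y ∘ Z ∘ X)) (f (Y ∘ Z ∘ shift X)) = some h2.choose := dif_pos h2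
    exact ⟨h2.choose, by rw [← h1, h3], h2.choose_spec⟩
  obtain ⟨j, hj, _⟩ := hbad id strictMono_id
  have hrk : rk ((Fb hP x₀).get j) < rk x₀ := (Fb_mem (List.get_mem _ _)).1
  obtain ⟨X, hX, hle⟩ := ih _ hrk _ rfl (fun X => cd j (f (Y ∘ Z ∘ X)))
    ((hf.comp (Y ∘ Z)).map (cd j))
  obtain ⟨j', hj', hnle⟩ := hbad X hX
  have : j = j' := Option.some.inj (hj.symm.trans hj')
  subst this
  exact hnle hle

end Decomposition

end Pool.Agent.H557R3.Bqo
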