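import Mathlib

set_option autoImplicit false

/-!
Ramsey theorem for locally constant colourings of infinite increasing sequences, and arrays.
-/

namespace Pool.Agent.H557R3.Bqo

/-- Put `n` in front of an infinite sequence. -/
def cons (n : ℕ) (X : ℕ → ℕ) : ℕ → ℕ
  | 0 => n
  | k + 1 => X k

/-- Remove the first term of an infinite sequence. -/
def shift (X : ℕ → ℕ) : ℕ → ℕ := fun k => X (k + 1)

theorem cons_shift (X : ℕ → ℕ) : cons (X 0) (shift X) = X := by
  funext k
  cases k <;> rfl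

theorem shift_strictMono {X : ℕ → ℕ} (h : StrictMono X) : StrictMono (shift X) :=
  fun _ _ hab => h (Nat.succ_lt_succ hab)

/-- Locally constant functions. -/
def LC {K : Type} (c : (ℕ → ℕ) → K) : Prop :=
  ∀ X : ℕ → ℕ, ∃ n, ∀ Y : ℕ → ℕ, (∀ i < n, Y i = X i) → c Y = c X

/-- Functions which are built by well-founded branching over the first term. -/
inductive Rep {K : Type} : ((ℕ → ℕ) → K) → Prop
  | const (k : K) : Rep (fun _ => k)
  | step (f : (ℕ → ℕ) → K) (h : ∀ n, Rep (fun X => f (cons n X))) : Rep f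

/-- Put the first `n` values of `Z` in front of `X`. -/
def glue (Z : ℕ → ℕ) (n : ℕ) (X : ℕ → ℕ) : ℕ → ℕ := fun k => if k < n then Z k else X (k - n)

theorem glue_zero (Z X : ℕ → ℕ) : glue Z 0 X = X := by
  funext k
  simp [glue]

theorem glue_cons (Z : ℕ → ℕ) (n : ℕ) (X : ℕ → ℕ) :
    glue Z n (cons (Z n) X) = glue Z (n + 1) X := by
  funext k
  unfold glue
  rcases lt_trichotomy k n with h | h | h
  · rw [if_pos h, if_pos (by omega)]
  · subst h
    rw [if_neg (lt_irrefl _), if_pos (Nat.lt_succ_self _), Nat.sub_self]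
    rfl
  · rw [if_neg (by omega), if_neg (by omega)]
    obtain ⟨m, rfl⟩ : ∃ m, k = n + 1 + m := ⟨k - (n + 1), by omega⟩
    have h1 : n + 1 + m - n = m + 1 := by omega
    have h2 : n + 1 + m - (n + 1) = m := by omega
    rw [h1, h2]
    rfl

theorem glue_congr (Z Z' : ℕ → ℕ) (n : ℕ) (X : ℕ → ℕ) (h : ∀ k < n, Z k = Z' k) :
    glue Z n X = glue Z' n X := by
  funext k
  unfold glue
  split_ifs with hk
  · exact h k hk
  · rfl

theorem rep_of_lc {K : Type} {c : (ℕ → ℕ) → K} (hc : LC c) : Rep c := by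
  classical
  by_contra hcon
  -- state: a finite list given as a pair (Z, n)
  let St := {p : (ℕ → ℕ) × ℕ // ¬ Rep (fun X => c (glue p.1 p.2 X))}
  have hstep : ∀ s : St, ∃ t : St, t.1.2 = s.1.2 + 1 ∧ ∀ k < s.1.2, t.1.1 k = s.1.1 k := by
    rintro ⟨⟨Z, n⟩, hZ⟩
    have : ∃ m, ¬ Rep (fun X => c (glue Z n (cons m X))) := by
      by_contra hall
      push Not at hall
      exact hZ (Rep.step _ hall)
    obtain ⟨m, hm⟩ := this
    let Z' : ℕ → ℕ := fun k => if k < n then Z k else m
    have hZn : Z' n = m := by simp [Z']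
    have hcong : ∀ k < n, Z k = Z' k := fun k hk => by simp [Z', hk]
    have hrep : ¬ Rep (fun X => c (glue Z' (n + 1) X)) := by
      have : (fun X => c (glue Z n (cons m X))) = (fun X => c (glue Z' (n + 1) X)) := by
        funext X
        rw [← glue_cons, hZn, glue_congr Z Z' n _ hcong]
      rwa [this] at hm
    exact ⟨⟨(Z', n + 1), hrep⟩, rfl, fun k hk => (hcong k hk).symm⟩
  choose nxt hn1 hn2 using hstep
  have h0 : ¬ Rep (fun X => c (glue (fun _ => 0) 0 X)) := by
    have : (fun X => c (glue (fun _ => 0) 0 X)) = c := by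
      funext X
      rw [glue_zero]
    rwa [this]
  let s : ℕ → St := fun k => Nat.rec ⟨(fun _ => 0, 0), h0⟩ (fun _ t => nxt t) k
  have hs0 : (s 0).1.2 = 0 := rfl
  have hlen : ∀ k, (s k).1.2 = k := by
    intro k
    induction k with
    | zero => rfl
    | succ k ih =>
      show (nxt (s k)).1.2 = k + 1
      rw [hn1, ih]
  let X : ℕ → ℕ := fun k => (s (k + 1)).1.1 k
  have hX : ∀ n, ∀ k < n, (s n).1.1 k = X k := by
    intro n
    induction n with
    | zero => intro k hk; omega
    | succ n ih =>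
      intro k hk
      rcases Nat.lt_succ_iff_lt_or_eq.1 hk with hk' | hk'
      · have : (nxt (s n)).1.1 k = (s n).1.1 k := hn2 (s n) k (by rw [hlen]; exact hk')
        show (nxt (s n)).1.1 k = X k
        rw [this, ih k hk']
      · subst hk'
        rfl
  obtain ⟨n, hn⟩ := hc X
  apply (s n).2
  have : (fun Y => c (glue (s n).1.1 (s n).1.2 Y)) = fun _ => c X := by
    funext Y
    apply hn
    intro i hi
    unfold glue
    rw [hlen, if_pos hi]
    exact hX n i hi
  rw [this]
  exact Rep.const _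

/-- The Ramsey property: every reservoir has a homogeneous sub-reservoir. -/
def Ram {K : Type} (f : (ℕ → ℕ) → K) : Prop :=
  ∀ Z : ℕ → ℕ, StrictMono Z → ∃ Z' : ℕ → ℕ, StrictMono Z' ∧ Set.range Z' ⊆ Set.range Z ∧
    ∃ i : K, ∀ V : ℕ → ℕ, StrictMono V → Set.range V ⊆ Set.range Z' → f V = i

theorem ram_of_rep {K : Type} [Finite K] {f : (ℕ → ℕ) → K} (hf : Rep f) : Ram f := by
  classical
  induction hf with
  | const k => exact fun Z hZ => ⟨Z, hZ, subset_rfl, k, fun _ _ _ => rfl⟩
  | step f _ ih =>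
    intro Z hZ
    -- the reservoirs
    let St := {Y : ℕ → ℕ // StrictMono Y}
    have hstep : ∀ s : St, ∃ t : St, Set.range t.1 ⊆ Set.range (shift s.1) ∧
        ∃ i : K, ∀ V : ℕ → ℕ, StrictMono V → Set.range V ⊆ Set.range t.1 →
          f (cons (s.1 0) V) = i := by
      rintro ⟨Y, hY⟩
      obtain ⟨Y', hY', hsub, i, hi⟩ := ih (Y 0) (shift Y) (shift_strictMono hY)
      exact ⟨⟨Y', hY'⟩, hsub, i, hi⟩
    choose nxt hn1 col hcol using hstep
    let s : ℕ → St := fun k => Nat.rec ⟨Z, hZ⟩ (fun _ t => nxt t) k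
    have hs : ∀ k, s (k + 1) = nxt (s k) := fun _ => rfl
    have hsh : ∀ Y : ℕ → ℕ, Set.range (shift Y) ⊆ Set.range Y := by
      rintro Y _ ⟨k, rfl⟩
      exact ⟨k + 1, rfl⟩
    have hsub1 : ∀ k, Set.range (s (k + 1)).1 ⊆ Set.range (shift (s k).1) := fun k => by
      rw [hs]; exact hn1 _
    have hsub : ∀ j k, j ≤ k → Set.range (s k).1 ⊆ Set.range (s j).1 := by
      intro j k hjk
      induction k, hjk using Nat.le_induction with
      | base => exact subset_rfl
      | succ k _ ih => exact ((hsub1 k).trans (hsh _)).trans ih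
    let x : ℕ → ℕ := fun k => (s k).1 0
    have hx : StrictMono x := by
      refine strictMono_nat_of_lt_succ fun k => ?_
      have : x (k + 1) ∈ Set.range (shift (s k).1) := hsub1 k ⟨0, rfl⟩
      obtain ⟨j, hj⟩ := this
      rw [← hj]
      exact (s k).2 (Nat.succ_pos j)
    obtain ⟨i, hi⟩ := Finite.exists_infinite_fiber (fun k => col (s k))
    have hinf : ({k | col (s k) = i} : Set ℕ).Infinite := by
      rw [← Set.infinite_coe_iff]
      exact hi
    let p : ℕ → ℕ := Nat.nth fun k => col (s k) = i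
    have hp : StrictMono p := Nat.nth_strictMono hinf
    have hpi : ∀ k, col (s (p k)) = i := fun k => Nat.nth_mem_of_infinite hinf k
    refine ⟨x ∘ p, hx.comp hp, ?_, i, ?_⟩
    · rintro _ ⟨k, rfl⟩
      exact hsub 0 (p k) (Nat.zero_le _) ⟨0, rfl⟩
    · intro V hV hVr
      obtain ⟨a, ha⟩ := hVr ⟨0, rfl⟩
      have ha' : x (p a) = V 0 := ha
      rw [← cons_shift V, ← ha', ← hpi a]
      apply hcol
      · exact shift_strictMono hV
      · rintro _ ⟨k, rfl⟩
        obtain ⟨b, hb⟩ := hVr ⟨k + 1, rfl⟩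
        have hb' : x (p b) = V (k + 1) := hb
        show V (k + 1) ∈ _
        rw [← hb']
        have hlt : x (p a) < x (p b) := by
          rw [ha', hb']
          exact hV (Nat.succ_pos k)
        have hlt' : p a < p b := hx.lt_iff_lt.1 hlt
        exact hsub (p a + 1) (p b) hlt' ⟨0, rfl⟩

theorem ramsey {K : Type} [Finite K] {f : (ℕ → ℕ) → K} (hf : LC f) :
    ∃ Y : ℕ → ℕ, StrictMono Y ∧ ∃ i : K, ∀ X : ℕ → ℕ, StrictMono X → f (Y ∘ X) = i := by
  obtain ⟨Y, hY, _, i, hi⟩ := ram_of_rep (rep_of_lc hf) id strictMono_id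
  refine ⟨Y, hY, i, fun X hX => hi _ (hY.comp hX) ?_⟩
  exact Set.range_comp_subset_range X Y

theorem LC.comp {K : Type} {f : (ℕ → ℕ) → K} (hf : LC f) (Y : ℕ → ℕ) :
    LC (fun X => f (Y ∘ X)) := by
  intro X
  obtain ⟨n, hn⟩ := hf (Y ∘ X)
  exact ⟨n, fun Z hZ => hn _ fun i hi => by simp [hZ i hi]⟩

theorem LC.map {K L : Type} {f : (ℕ → ℕ) → K} (hf : LC f) (g : K → L) :
    LC (fun X => g (f X)) := by
  intro X
  obtain ⟨n, hn⟩ := hf X
  exact ⟨n, fun Z hZ => congrArg g (hn Z hZ)⟩

theorem LC.pair {K L M : Type} {f : (ℕ → ℕ) → K} (hf : LC f) {f' : (ℕ → ℕ) → L} (hf' : LC f')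
    (g : K → L → M) : LC (fun X => g (f X) (f' X)) := by
  intro X
  obtain ⟨n, hn⟩ := hf X
  obtain ⟨n', hn'⟩ := hf' X
  refine ⟨max n n', fun Z hZ => ?_⟩
  exact congrArg₂ g (hn Z fun i hi => hZ i (lt_of_lt_of_le hi (le_max_left _ _)))
    (hn' Z fun i hi => hZ i (lt_of_lt_of_le hi (le_max_right _ _)))

theorem LC.shift {K : Type} {f : (ℕ → ℕ) → K} (hf : LC f) : LC (fun X => f (shift X)) := by
  intro X
  obtain ⟨n, hn⟩ := hf (Bqo.shift X)
  exact ⟨n + 1, fun Z hZ => hn _ fun i hi => hZ (i + 1) (Nat.succ_lt_succ hi)⟩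

/-- A relation without bad arrays. -/
def NB {Q : Type} (r : Q → Q → Prop) : Prop :=
  ∀ f : (ℕ → ℕ) → Q, LC f → ∃ X : ℕ → ℕ, StrictMono X ∧ r (f X) (f (shift X))

/-- Adding a point comparable only with itself. -/
def optRel {Q : Type} (r : Q → Q → Prop) : Option Q → Option Q → Prop
  | none, none => True
  | some p, some q => r p q
  | _, _ => False

theorem NB.option {Q : Type} {r : Q → Q → Prop} (h : NB r) : NB (optRel r) := by
  classical
  intro f hf
  by_contra hcon
  push Not at hcon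
  obtain ⟨Y, hY, i, hi⟩ := ramsey (K := Bool) (hf.map Option.isSome)
  cases i with
  | false =>
    have h1 := hi id strictMono_id
    have h2 := hi (shift id) (shift_strictMono strictMono_id)
    apply hcon Y hY
    have e1 : f Y = none := by simpa using h1
    have e2 : f (shift Y) = none := by
      have : f (Y ∘ shift id) = none := by simpa using h2
      exact this
    rw [e1, e2]
    trivial
  | true =>
    have hne : Nonempty Q := by
      have h1 := hi id strictMono_id
      obtain ⟨q, _⟩ := Option.isSome_iff_exists.1 h1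
      exact ⟨q⟩
    obtain ⟨q0⟩ := hne
    obtain ⟨X, hX, hr⟩ := h (fun X => (f (Y ∘ X)).getD q0) ((hf.comp Y).map (fun o => o.getD q0))
    have h1 := hi X hX
    have h2 := hi (shift X) (shift_strictMono hX)
    obtain ⟨a, ha⟩ := Option.isSome_iff_exists.1 h1
    obtain ⟨b, hb⟩ := Option.isSome_iff_exists.1 h2
    apply hcon (Y ∘ X) (hY.comp hX)
    have e2 : f (shift (Y ∘ X)) = some b := hb
    rw [ha, e2]
    simp only [ha, hb, Option.getD_some] at hr
    exact hr

end Pool.Agent.H557R3.Bqo
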