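import Pool.Agent.H557R3.BqoTree

set_option autoImplicit false

/-!
Transfinite sequences of countable length over a relation without bad arrays.
-/

namespace Pool.Agent.H557R3.Bqo

variable {Q : Type}

/-- The labelled interval `f` on `[a,b)` is described by a tree. -/
def Rp (r : Q → Q → Prop) (f : Ordinal.{0} → Q) : W Q → Ordinal.{0} → Ordinal.{0} → Prop
  | .elem q => fun a b => b = Order.succ a ∧ f a = q
  | .set A => fun a b => ∃ s : ℕ → Ordinal.{0}, StrictMono s ∧ s 0 = a ∧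
      (∀ x, x < b ↔ ∃ n, x < s n) ∧ (∀ n, Rp r f (A n) (s n) (s (n + 1))) ∧
      ∀ i M, ∃ n, M ≤ n ∧ wls r (A i) (A n)

theorem rp_elem_iff {r : Q → Q → Prop} {f : Ordinal.{0} → Q} {q : Q} {a b : Ordinal.{0}} :
    Rp r f (.elem q) a b ↔ b = Order.succ a ∧ f a = q := by simp only [Rp]

theorem rp_set_iff {r : Q → Q → Prop} {f : Ordinal.{0} → Q} {A : ℕ → W Q} {a b : Ordinal.{0}} :
    Rp r f (.set A) a b ↔ ∃ s : ℕ → Ordinal.{0}, StrictMono s ∧ s 0 = a ∧
      (∀ x, x < b ↔ ∃ n, x < s n) ∧ (∀ n, Rp r f (A n) (s n) (s (n + 1))) ∧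
      ∀ i M, ∃ n, M ≤ n ∧ wls r (A i) (A n) := by simp only [Rp]

theorem rp_lt {r : Q → Q → Prop} {f : Ordinal.{0} → Q} {T : W Q} {a b : Ordinal.{0}}
    (h : Rp r f T a b) : a < b := by
  cases T with
  | elem q =>
    rw [rp_elem_iff] at h
    rw [h.1]
    exact Order.lt_succ a
  | set A =>
    rw [rp_set_iff] at h
    obtain ⟨s, hs, h0, hb, _⟩ := h
    rw [hb]
    exact ⟨1, h0 ▸ hs Nat.zero_lt_one⟩

/-- Embeddings between labelled intervals. -/
def Emb (r : Q → Q → Prop) (f : Ordinal.{0} → Q) (a b : Ordinal.{0}) (g : Ordinal.{0} → Q)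
    (c d : Ordinal.{0}) : Prop :=
  ∃ h : Ordinal.{0} → Ordinal.{0}, (∀ x y, a ≤ x → x < y → y < b → h x < h y) ∧
    ∀ x, a ≤ x → x < b → c ≤ h x ∧ h x < d ∧ r (f x) (g (h x))

theorem Emb.mono {r : Q → Q → Prop} {f g : Ordinal.{0} → Q} {a b c d c' d' : Ordinal.{0}}
    (h : Emb r f a b g c d) (hc : c' ≤ c) (hd : d ≤ d') : Emb r f a b g c' d' := by
  obtain ⟨h, h1, h2⟩ := h
  exact ⟨h, h1, fun x hx hx' => ⟨hc.trans (h2 x hx hx').1, (h2 x hx hx').2.1.trans_le hd,
    (h2 x hx hx').2.2⟩⟩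

theorem Emb.empty {r : Q → Q → Prop} {f g : Ordinal.{0} → Q} {a b c d : Ordinal.{0}}
    (hab : b ≤ a) : Emb r f a b g c d :=
  ⟨id, fun _ _ h1 h2 h3 => absurd (h1.trans_lt (h2.trans h3)) (not_lt.2 hab),
    fun _ h1 h2 => absurd (h1.trans_lt h2) (not_lt.2 hab)⟩

theorem Emb.append {r : Q → Q → Prop} {f g : Ordinal.{0} → Q} {a b e c d k : Ordinal.{0}}
    (h1 : Emb r f a b g c d) (h2 : Emb r f b e g d k) (hcd : c ≤ d) (hdk : d ≤ k) :
    Emb r f a e g c k := by
  classical
  obtain ⟨p, p1, p2⟩ := h1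
  obtain ⟨q, q1, q2⟩ := h2
  refine ⟨fun x => if x < b then p x else q x, ?_, ?_⟩
  · intro x y hax hxy hye
    by_cases hyb : y < b
    · have hxb := hxy.trans hyb
      simp only [hyb, hxb, if_true]
      exact p1 x y hax hxy hyb
    · by_cases hxb : x < b
      · simp only [hyb, hxb, if_true, if_false]
        exact (p2 x hax hxb).2.1.trans_le (q2 y (not_lt.1 hyb) hye).1
      · simp only [hyb, hxb, if_false]
        exact q1 x y (not_lt.1 hxb) hxy hye
  · intro x hax hxe
    by_cases hxb : x < b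
    · simp only [hxb, if_true]
      have := p2 x hax hxb
      exact ⟨this.1, this.2.1.trans_le hdk, this.2.2⟩
    · simp only [hxb, if_false]
      have := q2 x (not_lt.1 hxb) hxe
      exact ⟨hcd.trans this.1, this.2.1, this.2.2⟩

theorem Emb.omega {r : Q → Q → Prop} {f g : Ordinal.{0} → Q} {b c d : Ordinal.{0}}
    {s u v : ℕ → Ordinal.{0}} (hs : StrictMono s) (hb : ∀ x, x < b → ∃ n, x < s n)
    (huv : ∀ n, v n ≤ u (n + 1)) (hc : c ≤ u 0) (hd : ∀ n, v n ≤ d)
    (he : ∀ n, Emb r f (s n) (s (n + 1)) g (u n) (v n)) : Emb r f (s 0) b g c d := by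
  classical
  choose h h1 h2 using he
  have huv' : ∀ n, u n < v n := fun n =>
    (h2 n (s n) le_rfl (hs (Nat.lt_succ_self n))).1.trans_lt
      (h2 n (s n) le_rfl (hs (Nat.lt_succ_self n))).2.1
  have hu : Monotone u := monotone_nat_of_le_succ fun n => (huv' n).le.trans (huv n)
  have hex : ∀ x, s 0 ≤ x → x < b → ∃ n, x < s (n + 1) := by
    intro x _ hx
    obtain ⟨n, hn⟩ := hb x hx
    exact ⟨n, hn.trans (hs (Nat.lt_succ_self n))⟩
  let N : Ordinal.{0} → ℕ := fun x => if hx : ∃ n, x < s (n + 1) then Nat.find hx else 0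
  have hN1 : ∀ x, s 0 ≤ x → x < b → x < s (N x + 1) := by
    intro x hx hxb
    have hx' := hex x hx hxb
    simp only [N, dif_pos hx']
    exact Nat.find_spec hx'
  have hN2 : ∀ x, s 0 ≤ x → x < b → s (N x) ≤ x := by
    intro x hx hxb
    have hx' := hex x hx hxb
    rcases Nat.eq_zero_or_pos (N x) with h0 | h0
    · rw [h0]; exact hx
    · have hlt : N x - 1 < Nat.find hx' := by
        have : N x = Nat.find hx' := by simp only [N, dif_pos hx']
        omega
      have := Nat.find_min hx' hlt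
      rw [Nat.sub_add_cancel h0] at this
      exact not_lt.1 this
  have hNmono : ∀ x y, s 0 ≤ x → x < y → y < b → N x ≤ N y := by
    intro x y hx hxy hy
    by_contra hlt
    push Not at hlt
    have h3 := hN1 y (hx.trans hxy.le) hy
    have h4 := hN2 x hx (hxy.trans hy)
    have h5 : s (N y + 1) ≤ s (N x) := hs.monotone hlt
    exact absurd (h3.trans_le (h5.trans h4)) (not_lt.2 hxy.le)
  refine ⟨fun x => h (N x) x, ?_, ?_⟩
  · intro x y hx hxy hy
    have hy0 : s 0 ≤ y := hx.trans hxy.le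
    have hxb := hxy.trans hy
    rcases (hNmono x y hx hxy hy).lt_or_eq with hlt | heq
    · have e1 := (h2 (N x) x (hN2 x hx hxb) (hN1 x hx hxb)).2.1
      have e2 := (h2 (N y) y (hN2 y hy0 hy) (hN1 y hy0 hy)).1
      have e3 : u (N x + 1) ≤ u (N y) := hu hlt
      exact e1.trans_le ((huv (N x)).trans (e3.trans e2))
    · show h (N x) x < h (N y) y
      rw [← heq]
      refine h1 (N x) x y (hN2 x hx hxb) hxy ?_
      rw [heq]
      exact hN1 y hy0 hy
  · intro x hx hxb
    have e := h2 (N x) x (hN2 x hx hxb) (hN1 x hx hxb)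
    exact ⟨hc.trans ((hu (Nat.zero_le _)).trans e.1), e.2.1.trans_le (hd _), e.2.2⟩

theorem rep_emb_elem {r : Q → Q → Prop} {f g : Ordinal.{0} → Q} (p : Q) (T : W Q) :
    leE r p T → ∀ a b c d, Rp r f (.elem p) a b → Rp r g T c d → Emb r f a b g c d := by
  induction T with
  | elem q =>
    intro h a b c d h1 h2
    rw [rp_elem_iff] at h1 h2
    refine ⟨fun _ => c, ?_, ?_⟩
    · intro x y hax hxy hyb
      rw [h1.1] at hyb
      exact absurd (hax.trans_lt hxy) (not_lt.2 (Order.lt_succ_iff.1 hyb))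
    · intro x hax hxb
      rw [h1.1] at hxb
      have : x = a := le_antisymm (Order.lt_succ_iff.1 hxb) hax
      refine ⟨le_rfl, h2.1 ▸ Order.lt_succ c, ?_⟩
      rw [this, h1.2, h2.2]
      exact h
  | set B ih =>
    intro h a b c d h1 h2
    rw [leE_set_iff] at h
    obtain ⟨m, hm⟩ := h
    rw [rp_set_iff] at h2
    obtain ⟨t, ht, ht0, hd, htr, _⟩ := h2
    have := ih m hm a b _ _ h1 (htr m)
    refine this.mono ?_ ?_
    · rw [← ht0]; exact ht.monotone (Nat.zero_le _)
    · by_contra hlt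
      push Not at hlt
      exact absurd ((hd d).2 ⟨m + 1, hlt⟩) (lt_irrefl _)

theorem rep_emb {r : Q → Q → Prop} (hr : ∀ a b c, r a b → r b c → r a c)
    {f g : Ordinal.{0} → Q} (S : W Q) : ∀ T, wls r S T →
    ∀ a b c d, Rp r f S a b → Rp r g T c d → Emb r f a b g c d := by
  classical
  induction S with
  | elem p => exact fun T h => rep_emb_elem p T h
  | set A ih =>
    intro T h a b c d h1 h2
    cases T with
    | elem q => exact (not_wls_set_elem h).elim
    | set B =>
      rw [wls_set_set_iff] at h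
      rw [rp_set_iff] at h1 h2
      obtain ⟨s, hs, hs0, hb, hsr, _⟩ := h1
      obtain ⟨t, ht, ht0, hd, htr, hrec⟩ := h2
      have key : ∀ i M, ∃ n, M ≤ n ∧ wls r (A i) (B n) := by
        intro i M
        obtain ⟨m, hm⟩ := h i
        obtain ⟨n, hn, hmn⟩ := hrec m M
        exact ⟨n, hn, wls_trans hr _ _ _ hm hmn⟩
      choose nx hnx1 hnx2 using key
      -- j i : block used for the i-th block
      let j : ℕ → ℕ := fun i => Nat.rec (nx 0 0) (fun i k => nx (i + 1) (k + 1)) i
      have hj0 : j 0 = nx 0 0 := rfl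
      have hjs : ∀ i, j (i + 1) = nx (i + 1) (j i + 1) := fun _ => rfl
      have hjr : ∀ i, wls r (A i) (B (j i)) := by
        intro i
        cases i with
        | zero => exact hnx2 0 0
        | succ i => rw [hjs]; exact hnx2 _ _
      have hjlt : ∀ i, j i + 1 ≤ j (i + 1) := fun i => by rw [hjs]; exact hnx1 _ _
      rw [← hs0]
      refine Emb.omega (u := fun i => t (j i)) (v := fun i => t (j i + 1)) hs
        (fun x hx => (hb x).1 hx) (fun n => ht.monotone (hjlt n)) ?_ ?_ ?_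
      · rw [← ht0]; exact ht.monotone (Nat.zero_le _)
      · intro n
        by_contra hlt
        push Not at hlt
        exact absurd ((hd d).2 ⟨_, hlt⟩) (lt_irrefl _)
      · intro n
        exact ih n _ (hjr n) _ _ _ _ (hsr n) (htr (j n))

/-- Finite concatenations. -/
def RpL (r : Q → Q → Prop) (f : Ordinal.{0} → Q) : List (W Q) → Ordinal.{0} → Ordinal.{0} → Prop
  | [], a, b => a = b
  | T :: l, a, b => ∃ a', Rp r f T a a' ∧ RpL r f l a' b

theorem rpL_le {r : Q → Q → Prop} {f : Ordinal.{0} → Q} (l : List (W Q)) :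
    ∀ a b, RpL r f l a b → a ≤ b := by
  induction l with
  | nil => exact fun a b h => le_of_eq h
  | cons T l ih =>
    rintro a b ⟨a', h1, h2⟩
    exact (rp_lt h1).le.trans (ih _ _ h2)

theorem rpL_append {r : Q → Q → Prop} {f : Ordinal.{0} → Q} (l l' : List (W Q)) :
    ∀ a b c, RpL r f l a b → RpL r f l' b c → RpL r f (l ++ l') a c := by
  induction l with
  | nil =>
    intro a b c h1 h2
    have : a = b := h1
    rw [this]; exact h2
  | cons T l ih =>
    rintro a b c ⟨a', h1, h2⟩ h3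
    exact ⟨a', h1, ih _ _ _ h2 h3⟩

theorem list_emb {r : Q → Q → Prop} (hr : ∀ a b c, r a b → r b c → r a c)
    {f g : Ordinal.{0} → Q} {l l' : List (W Q)} (h : List.SublistForall₂ (wls r) l l') :
    ∀ a b c d, RpL r f l a b → RpL r g l' c d → Emb r f a b g c d := by
  induction h with
  | nil =>
    intro a b c d h1 h2
    have : a = b := h1
    exact Emb.empty this.symm.le
  | cons hST _ ih =>
    rintro a b c d ⟨a', h1, h2⟩ ⟨c', h3, h4⟩
    exact (rep_emb hr _ _ hST _ _ _ _ h1 h3).append (ih _ _ _ _ h2 h4) (rp_lt h3).le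
      (rpL_le _ _ _ h4)
  | cons_right _ ih =>
    rintro a b c d h1 ⟨c', h3, h4⟩
    exact (ih _ _ _ _ h1 h4).mono (rp_lt h3).le le_rfl

end Pool.Agent.H557R3.Bqo
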