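import Pool.Agent.H557R3.BqoRamsey

set_option autoImplicit false

/-!
Well-founded trees over a relation without bad arrays are well-quasi-ordered.
-/

namespace Pool.Agent.H557R3.Bqo

/-- Well-founded countably branching trees with leaves labelled in `Q`. -/
inductive W (Q : Type) : Type
  | elem : Q → W Q
  | set : (ℕ → W Q) → W Q

/-- A leaf below a tree. -/
def leE {Q : Type} (r : Q → Q → Prop) (p : Q) : W Q → Prop
  | .elem q => r p q
  | .set B => ∃ m, leE r p (B m)

/-- The non-strict domination relation. -/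
def wle {Q : Type} (r : Q → Q → Prop) : W Q → W Q → Prop
  | .elem p => fun T => leE r p T
  | .set A => fun T =>
    match T with
    | .elem q => ∀ n, wle r (A n) (.elem q)
    | .set B => ∀ n, ∃ m, wle r (A n) (B m)

/-- The strict domination relation. -/
def wls {Q : Type} (r : Q → Q → Prop) : W Q → W Q → Prop
  | .elem p => fun T => leE r p T
  | .set A => fun T =>
    match T with
    | .elem _ => False
    | .set B => ∀ n, ∃ m, wls r (A n) (B m)

theorem leE_set_iff {Q : Type} {r : Q → Q → Prop} {p : Q} {B : ℕ → W Q} :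
    leE r p (.set B) ↔ ∃ m, leE r p (B m) := Iff.rfl

theorem wle_set_elem_iff {Q : Type} {r : Q → Q → Prop} {A : ℕ → W Q} {q : Q} :
    wle r (.set A) (.elem q) ↔ ∀ n, wle r (A n) (.elem q) := by simp only [wle]

theorem wle_set_set_iff {Q : Type} {r : Q → Q → Prop} {A B : ℕ → W Q} :
    wle r (.set A) (.set B) ↔ ∀ n, ∃ m, wle r (A n) (B m) := by simp only [wle]

theorem wls_elem_iff {Q : Type} {r : Q → Q → Prop} {p : Q} {T : W Q} :
    wls r (.elem p) T ↔ leE r p T := Iff.rfl

theorem not_wls_set_elem {Q : Type} {r : Q → Q → Prop} {A : ℕ → W Q} {q : Q} :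
    ¬ wls r (.set A) (.elem q) := by simp only [wls, not_false_eq_true]

theorem wls_set_set_iff {Q : Type} {r : Q → Q → Prop} {A B : ℕ → W Q} :
    wls r (.set A) (.set B) ↔ ∀ n, ∃ m, wls r (A n) (B m) := by simp only [wls]

/-- Children of a tree; a leaf is its own child. -/
def ch {Q : Type} : W Q → Set (W Q)
  | .elem q => {W.elem q}
  | .set B => Set.range B

theorem ch_nonempty {Q : Type} (T : W Q) : (ch T).Nonempty := by
  cases T with
  | elem q => exact ⟨_, rfl⟩
  | set B => exact ⟨B 0, 0, rfl⟩

theorem wle_of_ch {Q : Type} {r : Q → Q → Prop} {S T : W Q}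
    (h : ∀ S' ∈ ch S, ∃ T' ∈ ch T, wle r S' T') : wle r S T := by
  cases S with
  | elem p =>
    obtain ⟨T', hT', hle⟩ := h (W.elem p) rfl
    cases T with
    | elem q =>
      have : T' = W.elem q := hT'
      rw [this] at hle
      exact hle
    | set B =>
      obtain ⟨m, rfl⟩ := hT'
      exact ⟨m, hle⟩
  | set A =>
    cases T with
    | elem q =>
      rw [wle_set_elem_iff]
      intro n
      obtain ⟨T', hT', hle⟩ := h (A n) ⟨n, rfl⟩
      have : T' = W.elem q := hT'
      rw [this] at hle
      exact hle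
    | set B =>
      rw [wle_set_set_iff]
      intro n
      obtain ⟨T', ⟨m, rfl⟩, hle⟩ := h (A n) ⟨n, rfl⟩
      exact ⟨m, hle⟩

open Classical in
/-- The strategy against `S ≤ T`. -/
noncomputable def sg {Q : Type} (r : Q → Q → Prop) (S T : W Q) : W Q :=
  if h : ∃ S' ∈ ch S, ∀ T' ∈ ch T, ¬ wle r S' T' then h.choose else (ch_nonempty S).choose

theorem sg_mem {Q : Type} (r : Q → Q → Prop) (S T : W Q) : sg r S T ∈ ch S := by
  unfold sg
  split_ifs with h
  · exact h.choose_spec.1
  · exact (ch_nonempty S).choose_spec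

theorem sg_spec {Q : Type} {r : Q → Q → Prop} {S T : W Q} (h : ¬ wle r S T) :
    ∀ T' ∈ ch T, ¬ wle r (sg r S T) T' := by
  have h' : ∃ S' ∈ ch S, ∀ T' ∈ ch T, ¬ wle r S' T' := by
    by_contra hcon
    push Not at hcon
    exact h (wle_of_ch hcon)
  unfold sg
  rw [dif_pos h']
  exact h'.choose_spec.2

/-- The play. -/
noncomputable def pl {Q : Type} (r : Q → Q → Prop) (A : ℕ → W Q) : ℕ → (ℕ → ℕ) → W Q
  | 0, X => A (X 0)
  | i + 1, X => sg r (pl r A i X) (pl r A i (shift X))

theorem pl_congr {Q : Type} (r : Q → Q → Prop) (A : ℕ → W Q) (i : ℕ) :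
    ∀ X Y : ℕ → ℕ, (∀ j ≤ i, X j = Y j) → pl r A i X = pl r A i Y := by
  induction i with
  | zero => intro X Y h; simp [pl, h 0 le_rfl]
  | succ i ih =>
    intro X Y h
    unfold pl
    rw [ih X Y fun j hj => h j (by omega), ih (shift X) (shift Y) fun j hj => h (j + 1) (by omega)]

theorem pl_bad {Q : Type} {r : Q → Q → Prop} {A : ℕ → W Q}
    (hA : ∀ m n, m < n → ¬ wle r (A m) (A n)) (i : ℕ) :
    ∀ X : ℕ → ℕ, StrictMono X → ¬ wle r (pl r A i X) (pl r A i (shift X)) := by
  induction i with
  | zero => intro X hX; exact hA _ _ (hX Nat.zero_lt_one)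
  | succ i ih =>
    intro X hX
    exact sg_spec (ih X hX) _ (sg_mem r _ _)

theorem reach_elem {Q : Type} (T : W Q) : ∀ s : ℕ → W Q, s 0 = T → (∀ i, s (i + 1) ∈ ch (s i)) →
    ∃ i q, s i = W.elem q := by
  induction T with
  | elem q => exact fun s h0 _ => ⟨0, q, h0⟩
  | set B ih =>
    intro s h0 hs
    have h1 : s 1 ∈ ch (W.set B) := h0 ▸ hs 0
    obtain ⟨n, hn⟩ := h1
    obtain ⟨i, q, hi⟩ := ih n (fun i => s (i + 1)) hn.symm fun i => hs (i + 1)
    exact ⟨i + 1, q, hi⟩

theorem stay {Q : Type} {s : ℕ → W Q} (hs : ∀ i, s (i + 1) ∈ ch (s i)) {i : ℕ} {q : Q}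
    (h : s i = W.elem q) : ∀ j, i ≤ j → s j = W.elem q := by
  intro j hj
  induction j, hj using Nat.le_induction with
  | base => exact h
  | succ j _ ih =>
    have := hs j
    rw [ih] at this
    exact this

theorem wle_wqo {Q : Type} {r : Q → Q → Prop} (hr : NB r) (A : ℕ → W Q) :
    ∃ m n, m < n ∧ wle r (A m) (A n) := by
  classical
  by_contra hcon
  push Not at hcon
  have hmem : ∀ X i, pl r A (i + 1) X ∈ ch (pl r A i X) := fun X i => sg_mem r _ _
  have hex : ∀ X, ∃ i q, pl r A i X = W.elem q := fun X =>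
    reach_elem _ (fun i => pl r A i X) rfl (hmem X)
  choose st val hval using hex
  have hstay : ∀ X j, st X ≤ j → pl r A j X = W.elem (val X) := fun X j hj =>
    stay (hmem X) (hval X) j hj
  have hLC : LC val := by
    intro X
    refine ⟨st X + 1, fun Y hY => ?_⟩
    have h1 : pl r A (st X) Y = W.elem (val X) := by
      rw [pl_congr r A (st X) Y X fun j hj => hY j (by omega)]
      exact hval X
    have h2 : pl r A (max (st X) (st Y)) Y = W.elem (val X) :=
      stay (hmem Y) h1 _ (le_max_left _ _)
    have h3 : pl r A (max (st X) (st Y)) Y = W.elem (val Y) := hstay Y _ (le_max_right _ _)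
    rw [h2] at h3
    exact (W.elem.inj h3).symm
  obtain ⟨X, hX, hXr⟩ := hr val hLC
  have hb := pl_bad (r := r) (A := A) (fun m n hmn => hcon m n hmn)
    (max (st X) (st (shift X))) X hX
  rw [hstay X _ (le_max_left _ _), hstay (shift X) _ (le_max_right _ _)] at hb
  exact hb hXr

/-- Put an extra leaf in every inner node. -/
def io {Q : Type} : W Q → W (Option Q)
  | .elem q => .elem (some q)
  | .set A => .set fun n => match n with
    | 0 => .elem none
    | n + 1 => io (A n)

theorem not_wle_none {Q : Type} {r : Q → Q → Prop} (S : W Q) :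
    ¬ wle (optRel r) (io S) (W.elem none) := by
  induction S with
  | elem p => exact fun h => h
  | set A ih =>
    intro h
    rw [io, wle_set_elem_iff] at h
    exact ih 0 (h 1)

theorem leE_io {Q : Type} {r : Q → Q → Prop} (p : Q) (T : W Q)
    (h : leE (optRel r) (some p) (io T)) : leE r p T := by
  induction T with
  | elem q => exact h
  | set B ih =>
    rw [io, leE_set_iff] at h
    obtain ⟨m, hm⟩ := h
    cases m with
    | zero => exact False.elim hm
    | succ m => exact ⟨m, ih m hm⟩

theorem wls_of_io {Q : Type} {r : Q → Q → Prop} (S : W Q) :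
    ∀ T : W Q, wle (optRel r) (io S) (io T) → wls r S T := by
  induction S with
  | elem p => exact fun T h => leE_io p T h
  | set A ih =>
    intro T h
    cases T with
    | elem q =>
      rw [io, io, wle_set_elem_iff] at h
      exact False.elim (h 0)
    | set B =>
      rw [io, io, wle_set_set_iff] at h
      rw [wls_set_set_iff]
      intro n
      obtain ⟨m, hm⟩ := h (n + 1)
      cases m with
      | zero => exact (not_wle_none _ hm).elim
      | succ m => exact ⟨m, ih n _ hm⟩

theorem wls_wqo {Q : Type} {r : Q → Q → Prop} (hr : NB r) (A : ℕ → W Q) :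
    ∃ m n, m < n ∧ wls r (A m) (A n) := by
  obtain ⟨m, n, hmn, h⟩ := wle_wqo hr.option (fun n => io (A n))
  exact ⟨m, n, hmn, wls_of_io _ _ h⟩

theorem leE_trans {Q : Type} {r : Q → Q → Prop} (hr : ∀ a b c, r a b → r b c → r a c)
    {p q : Q} (T : W Q) (hpq : r p q) (h : leE r q T) : leE r p T := by
  induction T with
  | elem t => exact hr _ _ _ hpq h
  | set B ih =>
    obtain ⟨m, hm⟩ := h
    exact ⟨m, ih m hm⟩

theorem leE_wls_trans {Q : Type} {r : Q → Q → Prop} (hr : ∀ a b c, r a b → r b c → r a c)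
    {p : Q} (T : W Q) : ∀ U, leE r p T → wls r T U → leE r p U := by
  induction T with
  | elem t => exact fun U h1 h2 => leE_trans hr U h1 h2
  | set B ih =>
    rintro U ⟨m, hm⟩ h2
    cases U with
    | elem u => exact (not_wls_set_elem h2).elim
    | set C =>
      obtain ⟨l, hl⟩ := wls_set_set_iff.1 h2 m
      exact ⟨l, ih m _ hm hl⟩

theorem wls_trans {Q : Type} {r : Q → Q → Prop} (hr : ∀ a b c, r a b → r b c → r a c)
    (S : W Q) : ∀ T U, wls r S T → wls r T U → wls r S U := by
  induction S with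
  | elem p => exact fun T U h1 h2 => leE_wls_trans hr T U h1 h2
  | set A ih =>
    intro T U h1 h2
    cases T with
    | elem t => exact (not_wls_set_elem h1).elim
    | set B =>
      cases U with
      | elem u => exact (not_wls_set_elem h2).elim
      | set C =>
        rw [wls_set_set_iff] at *
        intro n
        obtain ⟨m, hm⟩ := h1 n
        obtain ⟨l, hl⟩ := h2 m
        exact ⟨l, ih n _ _ hm hl⟩

theorem leE_refl {Q : Type} {r : Q → Q → Prop} (hr : ∀ a, r a a) (p : Q) : leE r p (.elem p) := hr p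

theorem wls_refl {Q : Type} {r : Q → Q → Prop} (hr : ∀ a, r a a) (S : W Q) : wls r S S := by
  induction S with
  | elem p => exact hr p
  | set A ih => exact wls_set_set_iff.2 fun n => ⟨n, ih n⟩

end Pool.Agent.H557R3.Bqo
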