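import Mathlib

/-!
# The provability logic GLP: syntax, Hilbert derivations, maximal consistent sets
-/

set_option autoImplicit false

namespace Pool.Agent.H557R3.GLP

/-- Formulas of the polymodal language over a set `α` of propositional variables. -/
inductive Fm (α : Type) : Type
  | var : α → Fm α
  | bot : Fm α
  | imp : Fm α → Fm α → Fm α
  | box : ℕ → Fm α → Fm α

namespace Fm

variable {α β γ : Type}

/-- Substitution. -/
def subst (f : α → Fm β) : Fm α → Fm β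
  | var i => f i
  | bot => bot
  | imp a b => imp (subst f a) (subst f b)
  | box k a => box k (subst f a)

/-- Negation. -/
def neg (a : Fm α) : Fm α := imp a bot

/-- Truth. -/
def top : Fm α := imp bot bot

/-- Conjunction. -/
def and (a b : Fm α) : Fm α := neg (imp a (neg b))

/-- Diamond. -/
def dia (k : ℕ) (a : Fm α) : Fm α := neg (box k (neg a))

@[simp] theorem subst_var (f : α → Fm β) (i : α) : (var i).subst f = f i := rfl
@[simp] theorem subst_bot (f : α → Fm β) : (bot : Fm α).subst f = bot := rfl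
@[simp] theorem subst_imp (f : α → Fm β) (a b : Fm α) :
    (imp a b).subst f = imp (a.subst f) (b.subst f) := rfl
@[simp] theorem subst_box (f : α → Fm β) (k : ℕ) (a : Fm α) :
    (box k a).subst f = box k (a.subst f) := rfl
@[simp] theorem subst_neg (f : α → Fm β) (a : Fm α) : (neg a).subst f = neg (a.subst f) := rfl
@[simp] theorem subst_top (f : α → Fm β) : (top : Fm α).subst f = top := rfl
@[simp] theorem subst_and (f : α → Fm β) (a b : Fm α) :
    (and a b).subst f = and (a.subst f) (b.subst f) := rfl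
@[simp] theorem subst_dia (f : α → Fm β) (k : ℕ) (a : Fm α) :
    (dia k a).subst f = dia k (a.subst f) := rfl

theorem subst_subst (f : α → Fm β) (g : β → Fm γ) (a : Fm α) :
    (a.subst f).subst g = a.subst (fun i => (f i).subst g) := by
  induction a with
  | var i => rfl
  | bot => rfl
  | imp a b iha ihb => simp [iha, ihb]
  | box k a ih => simp [ih]

theorem subst_id (a : Fm α) : a.subst var = a := by
  induction a with
  | var i => rfl
  | bot => rfl
  | imp a b iha ihb => simp [iha, ihb]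
  | box k a ih => simp [ih]

end Fm

open Fm

variable {α β : Type}

/-- Derivability in GLP from the set `Γ` of global assumptions. -/
inductive Der (Γ : Set (Fm α)) : Fm α → Prop
  | hyp {a : Fm α} : a ∈ Γ → Der Γ a
  | ax1 (a b : Fm α) : Der Γ (imp a (imp b a))
  | ax2 (a b c : Fm α) : Der Γ (imp (imp a (imp b c)) (imp (imp a b) (imp a c)))
  | ax3 (a : Fm α) : Der Γ (imp (imp (imp a bot) bot) a)
  | axK (k : ℕ) (a b : Fm α) : Der Γ (imp (box k (imp a b)) (imp (box k a) (box k b)))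
  | axL (k : ℕ) (a : Fm α) : Der Γ (imp (box k (imp (box k a) a)) (box k a))
  | axM (m k : ℕ) (a : Fm α) : m ≤ k → Der Γ (imp (box m a) (box k a))
  | axN (m k : ℕ) (a : Fm α) : m < k →
      Der Γ (imp (imp (box m (imp a bot)) bot) (box k (imp (box m (imp a bot)) bot)))
  | mp {a b : Fm α} : Der Γ a → Der Γ (imp a b) → Der Γ b
  | nec (k : ℕ) {a : Fm α} : Der Γ a → Der Γ (box k a)

theorem Der.mono {Γ Δ : Set (Fm α)} (h : Γ ⊆ Δ) {a : Fm α} (ha : Der Γ a) : Der Δ a := by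
  induction ha with
  | hyp h' => exact Der.hyp (h h')
  | ax1 a b => exact Der.ax1 a b
  | ax2 a b c => exact Der.ax2 a b c
  | ax3 a => exact Der.ax3 a
  | axK k a b => exact Der.axK k a b
  | axL k a => exact Der.axL k a
  | axM m k a h => exact Der.axM m k a h
  | axN m k a h => exact Der.axN m k a h
  | mp _ _ ih1 ih2 => exact Der.mp ih1 ih2
  | nec k _ ih => exact Der.nec k ih

/-- Derivations are closed under substitution. -/
theorem Der.subst {Γ : Set (Fm α)} {Δ : Set (Fm β)} (f : α → Fm β)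
    (h : ∀ a ∈ Γ, Der Δ (a.subst f)) {a : Fm α} (ha : Der Γ a) : Der Δ (a.subst f) := by
  induction ha with
  | hyp h' => exact h _ h'
  | ax1 a b => exact Der.ax1 _ _
  | ax2 a b c => exact Der.ax2 _ _ _
  | ax3 a => exact Der.ax3 _
  | axK k a b => exact Der.axK k _ _
  | axL k a => exact Der.axL k _
  | axM m k a h => exact Der.axM m k _ h
  | axN m k a h => exact Der.axN m k _ h
  | mp _ _ ih1 ih2 => exact Der.mp ih1 ih2
  | nec k _ ih => exact Der.nec k ih

theorem Der.subst' (f : α → Fm β) {a : Fm α} (ha : Der ∅ a) : Der ∅ (a.subst f) :=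
  ha.subst f (by simp)

/-- A (local) theory: contains the theorems of GLP and is closed under modus ponens. -/
structure IsTh (u : Set (Fm α)) : Prop where
  thm : ∀ a, Der ∅ a → a ∈ u
  mp : ∀ a b, imp a b ∈ u → a ∈ u → b ∈ u

/-- Maximal consistent sets. -/
structure IsMCS (u : Set (Fm α)) : Prop extends IsTh u where
  nbot : bot ∉ u
  compl : ∀ a, a ∈ u ∨ imp a bot ∈ u

theorem IsTh.trans {u : Set (Fm α)} (hu : IsTh u) {a b c : Fm α} (h1 : imp a b ∈ u)
    (h2 : imp b c ∈ u) : imp a c ∈ u := by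
  have h3 : imp a (imp b c) ∈ u := hu.mp _ _ (hu.thm _ (Der.ax1 _ _)) h2
  exact hu.mp _ _ (hu.mp _ _ (hu.thm _ (Der.ax2 _ _ _)) h3) h1

theorem IsTh.refl {u : Set (Fm α)} (hu : IsTh u) (a : Fm α) : imp a a ∈ u :=
  hu.mp _ _ (hu.mp _ _ (hu.thm _ (Der.ax2 a (imp a a) a)) (hu.thm _ (Der.ax1 _ _)))
    (hu.thm _ (Der.ax1 _ _))

/-- Adding a directed family of formulas to a theory. -/
theorem IsTh.directed {u : Set (Fm α)} (hu : IsTh u) (D : Set (Fm α)) (hD : D.Nonempty)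
    (hdir : ∀ d ∈ D, ∀ d' ∈ D, ∃ e ∈ D, Der ∅ (imp e d) ∧ Der ∅ (imp e d')) :
    IsTh {b | ∃ d ∈ D, imp d b ∈ u} := by
  constructor
  · intro a ha
    obtain ⟨d, hd⟩ := hD
    exact ⟨d, hd, hu.mp _ _ (hu.thm _ (Der.ax1 _ _)) (hu.thm _ ha)⟩
  · rintro a b ⟨d, hd, h1⟩ ⟨d', hd', h2⟩
    obtain ⟨e, he, h3, h4⟩ := hdir d hd d' hd'
    refine ⟨e, he, ?_⟩
    have h5 := hu.trans (hu.thm _ h3) h1
    have h6 := hu.trans (hu.thm _ h4) h2
    exact hu.mp _ _ (hu.mp _ _ (hu.thm _ (Der.ax2 _ _ _)) h5) h6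

theorem IsTh.adjoin {u : Set (Fm α)} (hu : IsTh u) (a : Fm α) :
    IsTh {b | imp a b ∈ u} := by
  constructor
  · intro b hb
    exact hu.mp _ _ (hu.thm _ (Der.ax1 _ _)) (hu.thm _ hb)
  · intro b c h1 h2
    exact hu.mp _ _ (hu.mp _ _ (hu.thm _ (Der.ax2 _ _ _)) h1) h2

/-- Lindenbaum's lemma. -/
theorem lindenbaum {u : Set (Fm α)} (hu : IsTh u) (hb : bot ∉ u) :
    ∃ v, IsMCS v ∧ u ⊆ v := by
  obtain ⟨v, huv, hv⟩ := zorn_subset_nonempty {v : Set (Fm α) | IsTh v ∧ bot ∉ v}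
    (by
      intro c hc hchain hne
      refine ⟨⋃₀ c, ⟨⟨?_, ?_⟩, ?_⟩, fun s hs => Set.subset_sUnion_of_mem hs⟩
      · intro a ha
        obtain ⟨s, hs⟩ := hne
        exact ⟨s, hs, (hc hs).1.thm a ha⟩
      · rintro a b ⟨s, hs, h1⟩ ⟨t, ht, h2⟩
        rcases hchain.total hs ht with h | h
        · exact ⟨t, ht, (hc ht).1.mp _ _ (h h1) h2⟩
        · exact ⟨s, hs, (hc hs).1.mp _ _ h1 (h h2)⟩
      · rintro ⟨s, hs, h⟩
        exact (hc hs).2 h) u ⟨hu, hb⟩
  refine ⟨v, ⟨hv.prop.1, hv.prop.2, ?_⟩, huv⟩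
  intro a
  by_contra hcon
  push Not at hcon
  obtain ⟨h1, h2⟩ := hcon
  have h3 : IsTh {b | imp a b ∈ v} := hv.prop.1.adjoin a
  have h4 : v ⊆ {b | imp a b ∈ v} := by
    intro b hb
    exact hv.prop.1.mp _ _ (hv.prop.1.thm _ (Der.ax1 _ _)) hb
  have h5 : {b | imp a b ∈ v} ⊆ v := hv.le_of_ge ⟨h3, h2⟩ h4
  exact h1 (h5 (hv.prop.1.refl a))

theorem lindenbaum' {u : Set (Fm α)} (hu : IsTh u) (c : Fm α) (hc : c ∉ u) :
    ∃ v, IsMCS v ∧ u ⊆ v ∧ c ∉ v := by
  have h1 : IsTh {b | imp (imp c bot) b ∈ u} := hu.adjoin _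
  obtain ⟨v, hv, huv⟩ := lindenbaum h1 (fun h => hc (hu.mp _ _ (hu.thm _ (Der.ax3 c)) h))
  refine ⟨v, hv, ?_, ?_⟩
  · intro b hb
    exact huv (hu.mp _ _ (hu.thm _ (Der.ax1 _ _)) hb)
  · intro h
    have h2 : imp c bot ∈ v := huv (hu.refl _)
    exact hv.nbot (hv.mp _ _ h2 h)

theorem lindenbaum_directed {u : Set (Fm α)} (hu : IsTh u) (D : Set (Fm α)) (hD : D.Nonempty)
    (hdir : ∀ d ∈ D, ∀ d' ∈ D, ∃ e ∈ D, Der ∅ (imp e d) ∧ Der ∅ (imp e d'))
    (hcon : ∀ d ∈ D, neg d ∉ u) :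
    ∃ v, IsMCS v ∧ u ⊆ v ∧ D ⊆ v := by
  have h1 := hu.directed D hD hdir
  obtain ⟨v, hv, huv⟩ := lindenbaum h1 (by
    rintro ⟨d, hd, h⟩
    exact hcon d hd h)
  refine ⟨v, hv, ?_, ?_⟩
  · intro b hb
    obtain ⟨d, hd⟩ := hD
    exact huv ⟨d, hd, hu.mp _ _ (hu.thm _ (Der.ax1 _ _)) hb⟩
  · intro d hd
    exact huv ⟨d, hd, hu.refl d⟩

theorem isTh_thm : IsTh {a : Fm α | Der ∅ a} :=
  ⟨fun _ h => h, fun _ _ h1 h2 => Der.mp h2 h1⟩

/-- Completeness with respect to maximal consistent sets. -/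
theorem der_iff (a : Fm α) : Der ∅ a ↔ ∀ u, IsMCS u → a ∈ u := by
  constructor
  · intro h u hu
    exact hu.thm a h
  · intro h
    by_contra hcon
    obtain ⟨v, hv, -, h2⟩ := lindenbaum' (isTh_thm (α := α)) a hcon
    exact h2 (h v hv)

section mem

variable {u : Set (Fm α)} (hu : IsMCS u)

include hu

theorem mem_bot : (bot : Fm α) ∈ u ↔ False := ⟨hu.nbot, False.elim⟩

theorem mem_imp (a b : Fm α) : imp a b ∈ u ↔ (a ∈ u → b ∈ u) := by
  constructor
  · intro h h2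
    exact hu.mp _ _ h h2
  · intro h
    rcases hu.compl a with h1 | h1
    · exact hu.mp _ _ (hu.thm _ (Der.ax1 _ _)) (h h1)
    · -- a → ⊥, ⊥ → b
      have h2 : imp (bot : Fm α) b ∈ u := by
        have h3 : imp (bot : Fm α) (imp (imp b bot) bot) ∈ u := hu.thm _ (Der.ax1 _ _)
        exact hu.toIsTh.trans h3 (hu.thm _ (Der.ax3 _))
      exact hu.toIsTh.trans h1 h2

theorem mem_neg (a : Fm α) : neg a ∈ u ↔ a ∉ u := by
  unfold neg
  rw [mem_imp hu, mem_bot hu]

theorem mem_top : (top : Fm α) ∈ u := by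
  unfold top
  rw [mem_imp hu]
  exact id

theorem mem_and (a b : Fm α) : Fm.and a b ∈ u ↔ a ∈ u ∧ b ∈ u := by
  unfold Fm.and
  rw [mem_neg hu, mem_imp hu, mem_neg hu]
  tauto

theorem mem_dia (k : ℕ) (a : Fm α) : dia k a ∈ u ↔ box k (neg a) ∉ u := by
  unfold dia
  rw [mem_neg hu]

theorem box_mp (k : ℕ) {a b : Fm α} (h : box k (imp a b) ∈ u) (h2 : box k a ∈ u) :
    box k b ∈ u :=
  hu.mp _ _ (hu.mp _ _ (hu.thm _ (Der.axK _ _ _)) h) h2

theorem box_nec (k : ℕ) {a : Fm α} (h : Der ∅ a) : box k a ∈ u := hu.thm _ (Der.nec k h)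

theorem box_mono (k : ℕ) {a b : Fm α} (h : Der ∅ (imp a b)) (h2 : box k a ∈ u) :
    box k b ∈ u := box_mp hu k (box_nec hu k h) h2

theorem box_le {m k : ℕ} (hmk : m ≤ k) {a : Fm α} (h : box m a ∈ u) : box k a ∈ u :=
  hu.mp _ _ (hu.thm _ (Der.axM m k a hmk)) h

theorem box_lob (k : ℕ) {a : Fm α} (h : box k (imp (box k a) a) ∈ u) : box k a ∈ u :=
  hu.mp _ _ (hu.thm _ (Der.axL k a)) h

end mem

theorem der_imp_iff (a b : Fm α) : Der ∅ (imp a b) ↔ ∀ u, IsMCS u → a ∈ u → b ∈ u := by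
  rw [der_iff]
  refine forall_congr' fun u => forall_congr' fun hu => ?_
  rw [mem_imp hu]

theorem box_four {u : Set (Fm α)} (hu : IsMCS u) (k : ℕ) {a : Fm α} (h : box k a ∈ u) :
    box k (box k a) ∈ u := by
  have h1 : Der ∅ (imp a (imp (box k (Fm.and a (box k a))) (Fm.and a (box k a)))) := by
    rw [der_imp_iff]
    intro v hv h2
    rw [mem_imp hv, mem_and hv]
    intro h3
    refine ⟨h2, box_mono hv k ?_ h3⟩
    rw [der_imp_iff]
    intro w hw h4
    exact ((mem_and hw _ _).1 h4).1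
  have h2 := box_lob hu k (box_mono hu k h1 h)
  refine box_mono hu k ?_ h2
  rw [der_imp_iff]
  intro w hw h4
  exact ((mem_and hw _ _).1 h4).2

theorem box_box {u : Set (Fm α)} (hu : IsMCS u) {m k : ℕ} (hmk : m ≤ k) {a : Fm α}
    (h : box m a ∈ u) : box k (box m a) ∈ u := box_le hu hmk (box_four hu m h)

theorem box_nbox {u : Set (Fm α)} (hu : IsMCS u) {m k : ℕ} (hmk : m < k) {a : Fm α}
    (h : box m a ∉ u) : box k (neg (box m a)) ∈ u := by
  have h1 : neg (box m (neg (neg a))) ∈ u := by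
    rw [mem_neg hu]
    intro h2
    refine h (box_mono hu m ?_ h2)
    rw [der_imp_iff]
    intro v hv
    rw [mem_neg hv, mem_neg hv]
    tauto
  have h2 : box k (neg (box m (neg (neg a)))) ∈ u :=
    hu.mp _ _ (hu.thm _ (Der.axN m k (neg a) hmk)) h1
  refine box_mono hu k ?_ h2
  rw [der_imp_iff]
  intro v hv
  rw [mem_neg hv, mem_neg hv]
  intro h3 h4
  refine h3 (box_mono hv m ?_ h4)
  rw [der_imp_iff]
  intro w hw
  rw [mem_neg hw, mem_neg hw]
  tauto

/-- The theory of the successors of a maximal consistent set. -/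
theorem isTh_box {u : Set (Fm α)} (hu : IsMCS u) (k : ℕ) : IsTh {a | box k a ∈ u} :=
  ⟨fun _ h => box_nec hu k h, fun _ _ h1 h2 => box_mp hu k h1 h2⟩

/-- Existence of successors. -/
theorem exists_succ {u : Set (Fm α)} (hu : IsMCS u) (k : ℕ) {a : Fm α} (h : box k a ∉ u) :
    ∃ v, IsMCS v ∧ (∀ b, box k b ∈ u → b ∈ v) ∧ a ∉ v := by
  obtain ⟨v, hv, h1, h2⟩ := lindenbaum' (isTh_box hu k) a h
  exact ⟨v, hv, fun b hb => h1 hb, h2⟩

/-- Löb's rule. -/
theorem lob_rule (k : ℕ) {a : Fm α} (h : Der ∅ (imp (box k a) a)) : Der ∅ a :=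
  Der.mp (Der.mp (Der.nec k h) (Der.axL k a)) h

/-- Pullback of a maximal consistent set along a substitution. -/
theorem IsMCS.comap {u : Set (Fm β)} (hu : IsMCS u) (f : α → Fm β) :
    IsMCS {a : Fm α | a.subst f ∈ u} :=
  { thm := fun a ha => hu.thm _ (ha.subst' f)
    mp := fun a b h1 h2 => hu.mp _ _ h1 h2
    nbot := hu.nbot
    compl := fun a => hu.compl (a.subst f) }

/-- Limits of maximal consistent sets along ultrafilters. -/
theorem IsMCS.limit {ι : Type} (𝒱 : Ultrafilter ι) (v : ι → Set (Fm α)) (hv : ∀ i, IsMCS (v i)) :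
    IsMCS {a : Fm α | ∀ᶠ i in (𝒱 : Filter ι), a ∈ v i} := by
  refine { thm := ?_, mp := ?_, nbot := ?_, compl := ?_ }
  · intro a ha
    exact Filter.Eventually.of_forall fun i => (hv i).thm a ha
  · intro a b h1 h2
    filter_upwards [h1, h2] with i h3 h4
    exact (hv i).mp _ _ h3 h4
  · intro h
    obtain ⟨i, hi⟩ := h.exists
    exact (hv i).nbot hi
  · intro a
    rcases 𝒱.em (fun i => a ∈ v i) with h | h
    · exact Or.inl h
    · right
      filter_upwards [h] with i hi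
      rcases (hv i).compl a with h' | h'
      · exact absurd h' hi
      · exact h'

end Pool.Agent.H557R3.GLP
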