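import Mathlib
import Pool.Agent.H557R3.GLPBasic

/-!
# Adding a root to canonical models of GLP, and the extension property of exact formulas
-/

set_option autoImplicit false

namespace Pool.Agent.H557R3.GLP

open Fm

variable {α β : Type}

/-- Evaluation of the propositional part of a formula, with given values for the variables and for
the boxed formulas. -/
def ev (a : α → Prop) (e : ℕ → Fm α → Prop) : Fm α → Prop
  | var i => a i
  | bot => False
  | imp x y => ev a e x → ev a e y
  | box k x => e k x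

/-- All modalities of a formula are `≤ M` (at top level boxes). -/
def BdBy (M : ℕ) : Fm α → Prop
  | var _ => True
  | bot => True
  | imp x y => BdBy M x ∧ BdBy M y
  | box k _ => k ≤ M

theorem exists_bd (x : Fm α) : ∃ M, BdBy M x := by
  have mono : ∀ (x : Fm α) (M M' : ℕ), M ≤ M' → BdBy M x → BdBy M' x := by
    intro x
    induction x with
    | var i => intro M M' _ _; trivial
    | bot => intro M M' _ _; trivial
    | imp x y ihx ihy => intro M M' h h'; exact ⟨ihx M M' h h'.1, ihy M M' h h'.2⟩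
    | box k x _ => intro M M' h h'; exact le_trans h' h
  induction x with
  | var i => exact ⟨0, trivial⟩
  | bot => exact ⟨0, trivial⟩
  | imp x y ihx ihy =>
    obtain ⟨M, hM⟩ := ihx
    obtain ⟨M', hM'⟩ := ihy
    exact ⟨max M M', mono x M _ (le_max_left _ _) hM, mono y M' _ (le_max_right _ _) hM'⟩
  | box k x _ => exact ⟨k, le_refl k⟩

theorem ev_congr (a : α → Prop) (e e' : ℕ → Fm α → Prop) (M : ℕ)
    (h : ∀ m, m ≤ M → ∀ x, e m x ↔ e' m x) (x : Fm α) (hx : BdBy M x) :
    ev a e x ↔ ev a e' x := by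
  induction x with
  | var i => exact Iff.rfl
  | bot => exact Iff.rfl
  | imp x y ihx ihy =>
    unfold ev
    rw [ihx hx.1, ihy hx.2]
  | box k x _ => exact h k hx x

/-- The formulas boxed by `m` at the new root, below which we put the maximal consistent sets
`u i`, seen via the modality `N`. -/
def rootBox {ι : Type} (N : ℕ) (u : ι → Set (Fm β)) (m : ℕ) (x : Fm β) : Prop :=
  (m < N → ∀ i, box m x ∈ u i) ∧ (m = N → ∀ i, x ∈ u i ∧ box N x ∈ u i)

/-- The root lemma: all theorems of GLP are true at the new root. -/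
theorem root_lemma {ι : Type} (N : ℕ) (u : ι → Set (Fm β)) (hu : ∀ i, IsMCS (u i))
    (h1 : ∀ m, m < N → ∀ i j x, box m x ∈ u i → box m x ∈ u j)
    (h2 : ∀ m, m < N → ∀ i j x, box m x ∈ u i → x ∈ u j)
    (a : β → Prop) (x : Fm β) (hx : Der ∅ x) : ev a (rootBox N u) x := by
  induction hx with
  | hyp h => exact absurd h (Set.notMem_empty _)
  | ax1 a b => intro h _; exact h
  | ax2 a b c => intro h h' h''; exact h h'' (h' h'')
  | ax3 a =>
    intro h
    by_contra h'
    exact h h'
  | axK k x y =>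
    rintro ⟨h3, h4⟩ ⟨h5, h6⟩
    constructor
    · intro hk i
      exact box_mp (hu i) k (h3 hk i) (h5 hk i)
    · intro hk i
      exact ⟨(hu i).mp _ _ (h4 hk i).1 (h6 hk i).1, box_mp (hu i) N (h4 hk i).2 (h6 hk i).2⟩
  | axL k x =>
    rintro ⟨h3, h4⟩
    constructor
    · intro hk i
      exact box_lob (hu i) k (h3 hk i)
    · intro hk i
      subst hk
      have h5 := box_lob (hu i) k (h4 rfl i).2
      exact ⟨(hu i).mp _ _ (h4 rfl i).1 h5, h5⟩
  | axM m k x hmk =>
    rintro ⟨h3, h4⟩
    constructor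
    · intro hk i
      exact box_le (hu i) hmk (h3 (lt_of_le_of_lt hmk hk) i)
    · intro hk i
      subst hk
      rcases hmk.lt_or_eq with hlt | heq
      · exact ⟨h2 m hlt i i x (h3 hlt i), box_le (hu i) hmk (h3 hlt i)⟩
      · exact h4 heq i
  | axN m k x hmk =>
    intro h3
    have h3' : ¬ rootBox N u m (imp x bot) := h3
    constructor
    · intro hk i
      apply box_nbox (hu i) hmk
      intro h4
      apply h3'
      refine ⟨fun _ j => h1 m (hmk.trans hk) i j _ h4, fun hm => ?_⟩
      exact absurd hm (ne_of_lt (hmk.trans hk))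
    · intro hk i
      subst hk
      have h5 : box m (imp x bot) ∉ u i := by
        intro h4
        apply h3'
        refine ⟨fun _ j => h1 m hmk i j _ h4, fun hm => ?_⟩
        exact absurd hm (ne_of_lt hmk)
      exact ⟨(mem_neg (hu i) _).2 h5, box_nbox (hu i) hmk h5⟩
  | mp _ _ ih1 ih2 => exact ih2 ih1
  | nec k hx _ =>
    exact ⟨fun _ i => box_nec (hu i) k hx, fun hk i => ⟨(hu i).thm _ hx, box_nec (hu i) N hx⟩⟩

theorem ev_subst (a : β → Prop) (e : ℕ → Fm β → Prop) (σ : α → Fm β) (x : Fm α) :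
    ev a e (x.subst σ) ↔ ev (fun i => ev a e (σ i)) (fun m y => e m (y.subst σ)) x := by
  induction x with
  | var i => exact Iff.rfl
  | bot => exact Iff.rfl
  | imp x y ihx ihy =>
    simp only [subst_imp, ev]
    rw [ihx, ihy]
  | box k x _ => exact Iff.rfl

/-- Boxes of consequences of `φ`. -/
theorem box_of_der {φ : Fm α} {y : Set (Fm α)} (hy : IsMCS y) (h0 : box 0 φ ∈ y)
    {x : Fm α} (hx : Der {φ} x) : box 0 x ∈ y := by
  induction hx with
  | hyp h => rw [Set.mem_singleton_iff.1 h]; exact h0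
  | ax1 a b => exact box_nec hy 0 (Der.ax1 _ _)
  | ax2 a b c => exact box_nec hy 0 (Der.ax2 _ _ _)
  | ax3 a => exact box_nec hy 0 (Der.ax3 _)
  | axK k a b => exact box_nec hy 0 (Der.axK _ _ _)
  | axL k a => exact box_nec hy 0 (Der.axL _ _)
  | axM m k a h => exact box_nec hy 0 (Der.axM _ _ _ h)
  | axN m k a h => exact box_nec hy 0 (Der.axN _ _ _ h)
  | mp _ _ ih1 ih2 => exact box_mp hy 0 ih2 ih1
  | nec k _ ih =>
    exact box_mono hy 0 (Der.axM 0 k _ (Nat.zero_le k)) (box_four hy 0 ih)

/-- Dependent choice along `ℕ`. -/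
theorem dep_choice {X : Type} (Q : ℕ → X → Prop) (R : X → X → Prop) (x0 : X) (h0 : Q 0 x0)
    (hs : ∀ i x, Q i x → ∃ x', Q (i + 1) x' ∧ R x x') :
    ∃ f : ℕ → X, (∀ i, Q i (f i)) ∧ ∀ i, R (f i) (f (i + 1)) := by
  choose! g hg using hs
  let f : (i : ℕ) → {x // Q i x} := fun i =>
    Nat.rec (motive := fun i => {x // Q i x}) ⟨x0, h0⟩ (fun i s => ⟨g i s.1, (hg i s.1 s.2).1⟩) i
  exact ⟨fun i => (f i).1, fun i => (f i).2, fun i => (hg i (f i).1 (f i).2).2⟩

/-- The chain formulas. -/
def chainF (N : ℕ) (χ : ℕ → Fm α) (D : Fm α) : ℕ → ℕ → Fm α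
  | 0, _ => top
  | l + 1, i => Fm.and (Fm.and D (neg (χ i))) (dia N (chainF N χ D l (i + 1)))

theorem chainF_mono (N : ℕ) (χ : ℕ → Fm α) (D D' : Fm α) (h : Der ∅ (imp D' D)) :
    ∀ (l l' i : ℕ), l ≤ l' → Der ∅ (imp (chainF N χ D' l' i) (chainF N χ D l i)) := by
  intro l
  induction l with
  | zero =>
    intro l' i _
    rw [der_imp_iff]
    intro u hu _
    exact mem_top hu
  | succ l ih =>
    intro l' i hl
    obtain ⟨k, rfl⟩ : ∃ k, l' = k + 1 := ⟨l' - 1, by omega⟩
    rw [der_imp_iff]
    intro u hu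
    simp only [chainF]
    rw [mem_and hu, mem_and hu, mem_and hu, mem_and hu]
    rintro ⟨⟨h1, h2⟩, h3⟩
    refine ⟨⟨(mem_imp hu _ _).1 (hu.thm _ h) h1, h2⟩, ?_⟩
    rw [mem_dia hu] at h3 ⊢
    intro h4
    apply h3
    refine box_mono hu N ?_ h4
    rw [der_imp_iff]
    intro v hv
    rw [mem_neg hv, mem_neg hv]
    intro h5 h6
    exact h5 ((mem_imp hv _ _).1 (hv.thm _ (ih k (i + 1) (by omega))) h6)

/-- Injection of formulas over a countable set of variables into `ℕ`. -/
def code (c : α → ℕ) : Fm α → ℕ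
  | var i => Nat.pair 0 (c i)
  | bot => Nat.pair 1 0
  | imp a b => Nat.pair 2 (Nat.pair (code c a) (code c b))
  | box k a => Nat.pair 3 (Nat.pair k (code c a))

theorem code_inj (c : α → ℕ) (hc : Function.Injective c) : Function.Injective (code c) := by
  intro a
  induction a with
  | var i =>
    intro b h
    cases b <;> simp only [code, Nat.pair_eq_pair] at h
    · rw [hc h.2]
    all_goals omega
  | bot =>
    intro b h
    cases b <;> simp only [code, Nat.pair_eq_pair] at h
    · omega
    · rfl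
    all_goals omega
  | imp a a' ih ih' =>
    intro b h
    cases b <;> simp only [code, Nat.pair_eq_pair] at h
    · omega
    · omega
    · rw [ih h.2.1, ih' h.2.2]
    · omega
  | box k a ih =>
    intro b h
    cases b <;> simp only [code, Nat.pair_eq_pair] at h
    · omega
    · omega
    · omega
    · rw [ih h.2.2, h.2.1]

instance [Countable α] : Countable (Fm α) := by
  obtain ⟨c, hc⟩ := exists_injective_nat α
  exact (code_inj c hc).countable

section EP

variable {φ : Fm α} {σ : α → Fm β}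

/-- Finite pieces of the theory at an `N`-successor can be realised under `σ`. -/
theorem exact_consistent (hex : ∀ ψ : Fm α, Der ∅ (ψ.subst σ) → Der {φ} ψ)
    {y : Set (Fm α)} (hy : IsMCS y) (h0 : box 0 φ ∈ y) (N : ℕ) {c : Fm α}
    (hc : dia N c ∈ y) : ¬ Der ∅ ((neg c).subst σ) := by
  intro h
  have h1 := box_of_der hy h0 (hex _ h)
  rw [mem_dia hy] at hc
  exact hc (box_le hy (Nat.zero_le N) h1)

/-- The final step: from a suitable family of maximal consistent sets to the assignment. -/
theorem ep_of_family (hφ : Der ∅ (φ.subst σ)) {y : Set (Fm α)} {ι : Type} (N M : ℕ)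
    (u : ι → Set (Fm β)) (hu : ∀ i, IsMCS (u i))
    (h1 : ∀ m, m < N → ∀ i j x, box m x ∈ u i → box m x ∈ u j)
    (h2 : ∀ m, m < N → ∀ i j x, box m x ∈ u i → x ∈ u j)
    (hM : BdBy M φ)
    (h3 : ∀ m, m ≤ M → ∀ χ : Fm α, rootBox N u m (χ.subst σ) ↔ box m χ ∈ y) :
    ∃ a : α → Prop, ev a (fun m χ => box m χ ∈ y) φ := by
  have h4 := root_lemma N u hu h1 h2 (fun _ => True) _ hφ
  rw [ev_subst] at h4
  refine ⟨_, (ev_congr _ _ _ M ?_ φ hM).1 h4⟩
  intro m hm χ
  exact h3 m hm χ

/-- The extension property of exact formulas. -/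
theorem extension_property [Countable α] (hφ : Der ∅ (φ.subst σ))
    (hex : ∀ ψ : Fm α, Der ∅ (ψ.subst σ) → Der {φ} ψ)
    {y : Set (Fm α)} (hy : IsMCS y) (h0 : box 0 φ ∈ y) :
    ∃ a : α → Prop, ev a (fun m χ => box m χ ∈ y) φ := by
  obtain ⟨M, hM⟩ := exists_bd φ
  by_cases hN : ∃ N, N ≤ M ∧ box N (bot : Fm α) ∉ y
  swap
  · -- no successors at all
    push Not at hN
    refine ep_of_family (ι := Empty) hφ 0 M (fun i => i.elim) (fun i => i.elim)
      (fun m _ i => i.elim) (fun m _ i => i.elim) hM ?_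
    intro m hm χ
    refine iff_of_true ⟨fun _ i => i.elim, fun _ i => i.elim⟩ ?_
    refine box_mono hy m ?_ (hN m hm)
    rw [der_imp_iff]
    intro u hu h
    exact absurd h hu.nbot
  -- the largest such N
  obtain ⟨N, ⟨hNM, hNb⟩, hNmax⟩ : ∃ N, (N ≤ M ∧ box N (bot : Fm α) ∉ y) ∧
      ∀ m, N < m → m ≤ M → box m (bot : Fm α) ∈ y := by
    classical
    refine ⟨Nat.findGreatest (fun N => box N (bot : Fm α) ∉ y) M, ⟨Nat.findGreatest_le M, ?_⟩, ?_⟩
    · obtain ⟨N, h1, h2⟩ := hN
      exact Nat.findGreatest_spec (P := fun N => box N (bot : Fm α) ∉ y) h1 h2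
    · intro m h1 h2
      by_contra h3
      exact Nat.findGreatest_is_greatest h1 h2 h3
  -- the theory of the N-successors
  have hDtop : box N (top : Fm α) ∈ y := by
    refine box_nec hy N ?_
    rw [der_iff]
    intro u hu
    exact mem_top hu
  -- enumeration of the refuted formulas
  obtain ⟨g, hg⟩ : ∃ g : ℕ → {χ : Fm α // box N χ ∉ y}, Function.Surjective g := by
    have : Nonempty {χ : Fm α // box N χ ∉ y} := ⟨⟨bot, hNb⟩⟩
    exact exists_surjective_nat _
  set χ : ℕ → Fm α := fun i => (g (Nat.unpair i).1).1 with hχdef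
  have hχ : ∀ i, box N (χ i) ∉ y := fun i => (g (Nat.unpair i).1).2
  -- directedness of box set
  have hDand : ∀ D D', box N D ∈ y → box N D' ∈ y → box N (Fm.and D D') ∈ y := by
    intro D D' h1 h2
    have h3 : Der ∅ (imp D (imp D' (Fm.and D D'))) := by
      rw [der_imp_iff]
      intro u hu h4
      rw [mem_imp hu, mem_and hu]
      exact fun h5 => ⟨h4, h5⟩
    exact box_mp hy N (box_mono hy N h3 h1) h2
  have hand1 : ∀ D D' : Fm α, Der ∅ (imp (Fm.and D D') D) := by
    intro D D'
    rw [der_imp_iff]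
    intro u hu h
    exact ((mem_and hu _ _).1 h).1
  have hand2 : ∀ D D' : Fm α, Der ∅ (imp (Fm.and D D') D') := by
    intro D D'
    rw [der_imp_iff]
    intro u hu h
    exact ((mem_and hu _ _).1 h).2
  rcases Nat.eq_zero_or_pos N with hN0 | hNpos
  · -- N = 0
    subst hN0
    have key : ∀ i : ℕ, ∃ v : Set (Fm β), IsMCS v ∧
        (∀ D, box 0 D ∈ y → D.subst σ ∈ v) ∧ (χ i).subst σ ∉ v := by
      intro i
      obtain ⟨v, hv, -, h2⟩ := lindenbaum_directed (isTh_thm (α := β))
        {d | ∃ D, box 0 D ∈ y ∧ d = (Fm.and D (neg (χ i))).subst σ}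
        ⟨_, top, hDtop, rfl⟩
        (by
          rintro d ⟨D, hD, rfl⟩ d' ⟨D', hD', rfl⟩
          refine ⟨_, ⟨Fm.and D D', hDand _ _ hD hD', rfl⟩, ?_, ?_⟩
          · have : Der ∅ (imp (Fm.and (Fm.and D D') (neg (χ i))) (Fm.and D (neg (χ i)))) := by
              rw [der_imp_iff]
              intro u hu
              simp only [mem_and hu]
              tauto
            exact this.subst' σ
          · have : Der ∅ (imp (Fm.and (Fm.and D D') (neg (χ i))) (Fm.and D' (neg (χ i)))) := by
              rw [der_imp_iff]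
              intro u hu
              simp only [mem_and hu]
              tauto
            exact this.subst' σ)
        (by
          rintro d ⟨D, hD, rfl⟩ h
          refine exact_consistent hex hy h0 0 (c := Fm.and D (neg (χ i))) ?_ h
          rw [mem_dia hy]
          intro h2
          apply hχ i
          refine box_mp hy 0 (box_mono hy 0 ?_ h2) hD
          rw [der_imp_iff]
          intro u hu
          rw [mem_neg hu, mem_and hu, mem_neg hu, mem_imp hu]
          tauto)
      refine ⟨v, hv, ?_, ?_⟩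
      · intro D hD
        have := h2 ⟨D, hD, rfl⟩
        rw [subst_and, mem_and hv] at this
        exact this.1
      · have := h2 ⟨top, hDtop, rfl⟩
        rw [subst_and, mem_and hv, subst_neg, mem_neg hv] at this
        exact this.2
    choose v hv h1 h2 using key
    refine ep_of_family (ι := ℕ) hφ 0 M v hv (fun m hm => absurd hm (Nat.not_lt_zero m))
      (fun m hm => absurd hm (Nat.not_lt_zero m)) hM ?_
    intro m hm ψ
    rcases Nat.eq_zero_or_pos m with hm0 | hmpos
    · subst hm0
      constructor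
      · rintro ⟨-, h3⟩
        by_contra h4
        obtain ⟨j, hj⟩ := hg ⟨ψ, h4⟩
        have h5 := h2 (Nat.pair j 0)
        rw [hχdef] at h5
        simp only [Nat.unpair_pair, hj] at h5
        exact h5 (h3 rfl _).1
      · intro h3
        refine ⟨fun h => absurd h (Nat.lt_irrefl 0), fun _ i => ⟨h1 i _ h3, ?_⟩⟩
        exact h1 i _ (box_four hy 0 h3)
    · refine iff_of_true ⟨fun h => absurd h (Nat.not_lt_zero m), fun h => absurd h (by omega)⟩ ?_
      refine box_mono hy m ?_ (hNmax m hmpos hm)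
      rw [der_imp_iff]
      intro u hu h
      exact absurd h hu.nbot
  · -- N = K + 1
    obtain ⟨K, rfl⟩ : ∃ K, N = K + 1 := ⟨N - 1, by omega⟩
    -- chain formulas are seen from y
    have hchain : ∀ D, box (K + 1) D ∈ y → ∀ l i, dia (K + 1) (chainF K χ D l i) ∈ y := by
      intro D hD l
      induction l with
      | zero =>
        intro i
        rw [mem_dia hy]
        intro h
        apply hNb
        refine box_mono hy (K + 1) ?_ h
        rw [der_imp_iff]
        intro u hu
        simp only [chainF]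
        rw [mem_neg hu]
        intro h; exact absurd (mem_top hu) h
      | succ l ih =>
        intro i
        have h3 := ih (i + 1)
        rw [mem_dia hy] at h3 ⊢
        have h4 : box K (neg (chainF K χ D l (i + 1))) ∉ y := fun h => h3 (box_le hy (by omega) h)
        have h5 : box (K + 1) (neg (box K (neg (chainF K χ D l (i + 1))))) ∈ y :=
          box_nbox hy (Nat.lt_succ_self K) h4
        intro h6
        apply hχ i
        have h7 : Der ∅ (imp (neg (chainF K χ D (l + 1) i)) (imp D
            (imp (neg (box K (neg (chainF K χ D l (i + 1))))) (χ i)))) := by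
          rw [der_imp_iff]
          intro u hu
          simp only [chainF]
          rw [mem_neg hu, mem_and hu, mem_and hu, mem_neg hu, mem_dia hu, mem_imp hu, mem_imp hu,
            mem_neg hu]
          tauto
        exact box_mp hy _ (box_mp hy _ (box_mono hy _ h7 h6) hD) h5
    -- the states
    let Q : ℕ → Set (Fm β) → Prop := fun i v => IsMCS v ∧
      ∀ D, box (K + 1) D ∈ y → ∀ l, (chainF K χ D l i).subst σ ∈ v
    have hdir : ∀ i, ∀ d ∈ {d : Fm β | ∃ D, box (K + 1) D ∈ y ∧ ∃ l, d = (chainF K χ D l i).subst σ},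
        ∀ d' ∈ {d : Fm β | ∃ D, box (K + 1) D ∈ y ∧ ∃ l, d = (chainF K χ D l i).subst σ},
        ∃ e ∈ {d : Fm β | ∃ D, box (K + 1) D ∈ y ∧ ∃ l, d = (chainF K χ D l i).subst σ},
          Der ∅ (imp e d) ∧ Der ∅ (imp e d') := by
      rintro i d ⟨D, hD, l, rfl⟩ d' ⟨D', hD', l', rfl⟩
      refine ⟨_, ⟨Fm.and D D', hDand _ _ hD hD', max l l', rfl⟩, ?_, ?_⟩
      · exact (chainF_mono K χ D (Fm.and D D') (hand1 _ _) l (max l l') i
          (le_max_left _ _)).subst' σ
      · exact (chainF_mono K χ D' (Fm.and D D') (hand2 _ _) l' (max l l') i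
          (le_max_right _ _)).subst' σ
    obtain ⟨v0, hv0⟩ : ∃ v0, Q 0 v0 := by
      obtain ⟨v, hv, -, h2⟩ := lindenbaum_directed (isTh_thm (α := β))
        {d | ∃ D, box (K + 1) D ∈ y ∧ ∃ l, d = (chainF K χ D l 0).subst σ}
        ⟨_, top, hDtop, 0, rfl⟩ (hdir 0)
        (by
          rintro d ⟨D, hD, l, rfl⟩ h
          exact exact_consistent hex hy h0 (K + 1) (hchain D hD l 0) h)
      exact ⟨v, hv, fun D hD l => h2 ⟨D, hD, l, rfl⟩⟩
    obtain ⟨v, hQ, hR⟩ := dep_choice Q (fun v v' => ∀ b, box K b ∈ v → b ∈ v') v0 hv0 (by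
      rintro i v ⟨hv, hvi⟩
      obtain ⟨v', hv', h1, h2⟩ := lindenbaum_directed (isTh_box hv K)
        {d | ∃ D, box (K + 1) D ∈ y ∧ ∃ l, d = (chainF K χ D l (i + 1)).subst σ}
        ⟨_, top, hDtop, 0, rfl⟩ (hdir (i + 1))
        (by
          rintro d ⟨D, hD, l, rfl⟩ h
          have h3 := hvi D hD (l + 1)
          simp only [chainF, subst_and, subst_dia] at h3
          rw [mem_and hv, mem_dia hv] at h3
          exact h3.2 h)
      exact ⟨v', ⟨hv', fun D hD l => h2 ⟨D, hD, l, rfl⟩⟩, fun b hb => h1 hb⟩)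
    have hvm : ∀ i, IsMCS (v i) := fun i => (hQ i).1
    have hvD : ∀ i D, box (K + 1) D ∈ y → D.subst σ ∈ v i := by
      intro i D hD
      have h3 := (hQ i).2 D hD 1
      simp only [chainF, subst_and] at h3
      rw [mem_and (hvm i), mem_and (hvm i)] at h3
      exact h3.1.1
    have hvχ : ∀ i, (χ i).subst σ ∉ v i := by
      intro i
      have h3 := (hQ i).2 top hDtop 1
      simp only [chainF, subst_and, subst_neg] at h3
      rw [mem_and (hvm i), mem_and (hvm i), mem_neg (hvm i)] at h3
      exact h3.1.2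
    -- monotonicity of lower theories along the chain
    have hmono : ∀ m, m ≤ K → ∀ x i j, i ≤ j → box m x ∈ v i → box m x ∈ v j := by
      intro m hm x i j hij h
      induction j, hij using Nat.le_induction with
      | base => exact h
      | succ j _ ih => exact hR j _ (box_box (hvm j) hm ih)
    let ι := {𝒱 : Ultrafilter ℕ // (𝒱 : Filter ℕ) ≤ Filter.cofinite}
    have hev : ∀ (𝒱 : ι) (i : ℕ) (P : ℕ → Prop), (∀ j, i ≤ j → P j) →
        ∀ᶠ j in (𝒱.1 : Filter ℕ), P j := by
      intro 𝒱 i P hP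
      have : ∀ᶠ j in Filter.cofinite, P j := by
        rw [Nat.cofinite_eq_atTop]
        exact Filter.eventually_atTop.2 ⟨i, hP⟩
      exact this.filter_mono 𝒱.2
    have hex' : ∀ (𝒱 : ι) (P : ℕ → Prop), (∀ᶠ j in (𝒱.1 : Filter ℕ), P j) → ∃ j, P j :=
      fun 𝒱 P h => h.exists
    refine ep_of_family (ι := ι) hφ (K + 1) M
      (fun 𝒱 => {a : Fm β | ∀ᶠ i in (𝒱.1 : Filter ℕ), a ∈ v i})
      (fun 𝒱 => IsMCS.limit 𝒱.1 v hvm) ?_ ?_ hM ?_
    · intro m hm 𝒱 𝒲 x h
      obtain ⟨i, hi⟩ := hex' 𝒱 _ h
      exact hev 𝒲 i _ (fun j hj => hmono m (by omega) x i j hj hi)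
    · intro m hm 𝒱 𝒲 x h
      obtain ⟨i, hi⟩ := hex' 𝒱 _ h
      refine hev 𝒲 (i + 1) _ (fun j hj => ?_)
      obtain ⟨j', rfl⟩ : ∃ j', j = j' + 1 := ⟨j - 1, by omega⟩
      exact hR j' x (box_le (hvm j') (by omega) (hmono m (by omega) x i j' (by omega) hi))
    · intro m hm ψ
      obtain ⟨𝒱0⟩ : Nonempty ι := ⟨⟨Filter.hyperfilter ℕ, Filter.hyperfilter_le_cofinite⟩⟩
      rcases lt_trichotomy m (K + 1) with hlt | heq | hgt
      · constructor
        · rintro ⟨h3, -⟩
          by_contra h4
          obtain ⟨i, hi⟩ := hex' 𝒱0 _ (h3 hlt 𝒱0)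
          have h5 := hvD i _ (box_nbox hy hlt h4)
          rw [subst_neg, mem_neg (hvm i)] at h5
          exact h5 hi
        · intro h3
          refine ⟨fun _ 𝒱 => ?_, fun h => absurd h (ne_of_lt hlt)⟩
          exact hev 𝒱 0 _ (fun j _ => hvD j _ (box_box hy hlt.le h3))
      · subst heq
        constructor
        · rintro ⟨-, h3⟩
          by_contra h4
          obtain ⟨j, hj⟩ := hg ⟨ψ, h4⟩
          -- the set of indices with χ i = ψ
          have hinf : {i : ℕ | χ i = ψ}.Infinite := by
            refine Set.infinite_of_injective_forall_mem (f := fun l => Nat.pair j l) ?_ ?_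
            · intro l l' h
              exact (Nat.pair_eq_pair.1 h).2
            · intro l
              simp only [Set.mem_ofPred_eq, hχdef, Nat.unpair_pair, hj]
          have hne : (Filter.cofinite ⊓ Filter.principal {i : ℕ | χ i = ψ}).NeBot :=
            Filter.cofinite_inf_principal_neBot_iff.2 hinf
          let 𝒲 : ι := ⟨Ultrafilter.of (Filter.cofinite ⊓ Filter.principal {i : ℕ | χ i = ψ}),
            le_trans (Ultrafilter.of_le _) inf_le_left⟩
          have h6 : ∀ᶠ i in (𝒲.1 : Filter ℕ), χ i = ψ := by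
            have : (𝒲.1 : Filter ℕ) ≤ Filter.principal {i : ℕ | χ i = ψ} :=
              le_trans (Ultrafilter.of_le _) inf_le_right
            exact this (Filter.mem_principal_self _)
          have h7 := (h3 rfl 𝒲).1
          obtain ⟨i, hi1, hi2⟩ := (h6.and h7).exists
          have h8 := hvχ i
          rw [hi1] at h8
          exact h8 hi2
        · intro h3
          refine ⟨fun h => absurd h (lt_irrefl _), fun _ 𝒱 => ⟨?_, ?_⟩⟩
          · exact hev 𝒱 0 _ (fun j _ => hvD j _ h3)
          · exact hev 𝒱 0 _ (fun j _ => hvD j _ (box_four hy _ h3))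
      · refine iff_of_true ⟨fun h => absurd h (by omega), fun h => absurd h (by omega)⟩ ?_
        refine box_mono hy m ?_ (hNmax m hgt hm)
        rw [der_imp_iff]
        intro u hu h
        exact absurd h hu.nbot

end EP

end Pool.Agent.H557R3.GLP
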