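import Mathlib
import Pool.Agent.H557R3.GLPExact

/-!
# Fixed points in GLP, and exact formulas of GLP are projective
-/

set_option autoImplicit false

namespace Pool.Agent.H557R3.GLP

open Fm

variable {α β γ δ : Type}

/-- Provable equivalence, read semantically. -/
def Eqv (a b : Fm α) : Prop := ∀ u, IsMCS u → (a ∈ u ↔ b ∈ u)

theorem Eqv.refl (a : Fm α) : Eqv a a := fun _ _ => Iff.rfl

theorem Eqv.symm {a b : Fm α} (h : Eqv a b) : Eqv b a := fun u hu => (h u hu).symm

theorem Eqv.trans {a b c : Fm α} (h : Eqv a b) (h' : Eqv b c) : Eqv a c :=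
  fun u hu => (h u hu).trans (h' u hu)

theorem Eqv.subst {a b : Fm α} (h : Eqv a b) (f : α → Fm β) : Eqv (a.subst f) (b.subst f) :=
  fun _ hu => h _ (hu.comap f)

theorem Eqv.imp {a b c d : Fm α} (h : Eqv a b) (h' : Eqv c d) :
    Eqv (Fm.imp a c) (Fm.imp b d) := by
  intro u hu
  rw [mem_imp hu, mem_imp hu, h u hu, h' u hu]

theorem Eqv.box {a b : Fm α} (h : Eqv a b) (k : ℕ) : Eqv (Fm.box k a) (Fm.box k b) := by
  intro u hu
  constructor
  · exact box_mono hu k ((der_imp_iff _ _).2 fun v hv => (h v hv).1)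
  · exact box_mono hu k ((der_imp_iff _ _).2 fun v hv => (h v hv).2)

/-- All boxes have index `≥ m`. -/
def AllGe (m : ℕ) : Fm α → Prop
  | var _ => True
  | bot => True
  | Fm.imp x y => AllGe m x ∧ AllGe m y
  | Fm.box k x => m ≤ k ∧ AllGe m x

/-- Membership of boxes through successors. -/
theorem mem_box {u : Set (Fm α)} (hu : IsMCS u) (k : ℕ) (a : Fm α) :
    Fm.box k a ∈ u ↔ ∀ v, IsMCS v → (∀ b, Fm.box k b ∈ u → b ∈ v) → a ∈ v := by
  constructor
  · intro h v _ h2
    exact h2 a h
  · intro h
    by_contra hcon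
    obtain ⟨v, hv, h1, h2⟩ := exists_succ hu k hcon
    exact h2 (h v hv h1)

/-- Replacement inside formulas all of whose boxes are `≥ m`. -/
theorem safe_repl (m : ℕ) (f g : γ → Fm δ) (D : Fm γ) (hD : AllGe m D) :
    ∀ u : Set (Fm δ), IsMCS u → (∀ i, f i ∈ u ↔ g i ∈ u) →
      (∀ i, ∀ v, IsMCS v → (∀ b, Fm.box m b ∈ u → b ∈ v) → (f i ∈ v ↔ g i ∈ v)) →
      (D.subst f ∈ u ↔ D.subst g ∈ u) := by
  induction D with
  | var i => intro u _ h1 _; exact h1 i
  | bot => intro u _ _ _; exact Iff.rfl
  | imp x y ihx ihy =>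
    intro u hu h1 h2
    simp only [subst_imp]
    rw [mem_imp hu, mem_imp hu, ihx hD.1 u hu h1 h2, ihy hD.2 u hu h1 h2]
  | box l x ih =>
    intro u hu h1 h2
    simp only [subst_box]
    rw [mem_box hu, mem_box hu]
    have key : ∀ v, IsMCS v → (∀ b, Fm.box l b ∈ u → b ∈ v) → (x.subst f ∈ v ↔ x.subst g ∈ v) := by
      intro v hv hR
      have hRm : ∀ b, Fm.box m b ∈ u → b ∈ v := fun b hb => hR b (box_le hu hD.1 hb)
      refine ih hD.2 v hv (fun i => h2 i v hv hRm) ?_
      intro i w hw hR'
      refine h2 i w hw ?_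
      intro b hb
      exact hR' b (hR _ (box_box hu hD.1 hb))
    exact forall_congr' fun v => forall_congr' fun hv => forall_congr' fun hR => key v hv hR

/-- The basic fixed point. -/
theorem basic_fix (m : ℕ) (D : Fm (Option γ)) (hD : AllGe m D) :
    Eqv (Fm.box m (D.subst fun o => o.elim top var))
      (Fm.box m (D.subst fun o => o.elim (Fm.box m (D.subst fun o => o.elim top var)) var)) := by
  set H : Fm γ := Fm.box m (D.subst fun o => o.elim top var) with hH
  -- if `H` holds at all `m`-successors
  have key : ∀ u, IsMCS u → Fm.box m H ∈ u → ∀ v, IsMCS v → (∀ b, Fm.box m b ∈ u → b ∈ v) →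
      ((D.subst fun o => o.elim top var) ∈ v ↔ (D.subst fun o => o.elim H var) ∈ v) := by
    intro u hu h v hv hR
    refine safe_repl m _ _ D hD v hv ?_ ?_
    · intro o
      cases o with
      | none => exact iff_of_true (mem_top hv) (hR _ h)
      | some i => exact Iff.rfl
    · intro o w hw hR'
      cases o with
      | none => exact iff_of_true (mem_top hw) (hR' _ (hR _ (box_four hu m h)))
      | some i => exact Iff.rfl
  have h1 : ∀ u, IsMCS u → H ∈ u → Fm.box m (D.subst fun o => o.elim H var) ∈ u := by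
    intro u hu h
    rw [mem_box hu]
    intro v hv hR
    have h2 : Fm.box m H ∈ u := box_four hu m h
    exact (key u hu h2 v hv hR).1 (hR _ h)
  have h2 : Der ∅ (Fm.imp (Fm.box m (D.subst fun o => o.elim H var)) H) := by
    apply lob_rule m
    rw [der_imp_iff]
    intro u hu h3
    rw [mem_imp hu]
    intro h4
    have h5 : Fm.box m H ∈ u := by
      rw [mem_box hu]
      intro v hv hR
      exact (mem_imp hv _ _).1 (hR _ h3) (hR _ (box_four hu m h4))
    rw [hH, mem_box hu]
    intro v hv hR
    exact (key u hu h5 v hv hR).2 (hR _ h4)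
  intro u hu
  exact ⟨h1 u hu, (der_imp_iff _ _).1 h2 u hu⟩

/-- Equations `q ↔ [m] D(q)` are solvable. -/
def Solvable (m : ℕ) : Prop :=
  ∀ (γ : Type) (D : Fm (Option γ)), ∃ H : Fm γ, Eqv H (Fm.box m (D.subst fun o => o.elim H var))

/-- Finite systems of boxed equations. -/
theorem system_lemma {γ β : Type} (l : β → ℕ) (F : List β) :
    (∀ s ∈ F, Solvable (l s)) → ∀ K : β → Fm (γ ⊕ β), ∃ τ : β → Fm γ, ∀ s ∈ F,
      Eqv (τ s) (Fm.box (l s) ((K s).subst (Sum.elim var τ))) := by
  classical
  induction F with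
  | nil =>
    intro _ K
    exact ⟨fun _ => bot, by simp⟩
  | cons s0 F ih =>
    intro hF K
    obtain ⟨S, hS⟩ := hF s0 (by simp) (γ ⊕ β)
      ((K s0).subst fun x => if x = Sum.inr s0 then var none else var (some x))
    have hS' : Eqv S (Fm.box (l s0) ((K s0).subst fun x => if x = Sum.inr s0 then S else var x)) := by
      rw [subst_subst] at hS
      convert hS using 4 with x
      split_ifs <;> rfl
    obtain ⟨τ', hτ'⟩ := ih (fun s hs => hF s (List.mem_cons_of_mem _ hs))
      (fun s => (K s).subst fun x => if x = Sum.inr s0 then S else var x)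
    let τ : β → Fm γ := fun s => if s = s0 then S.subst (Sum.elim var τ') else τ' s
    have hsub : ∀ x : Fm (γ ⊕ β), (x.subst fun x => if x = Sum.inr s0 then S else var x).subst
        (Sum.elim var τ') = x.subst (Sum.elim var τ) := by
      intro x
      rw [subst_subst]
      congr 1
      funext z
      rcases z with z | z
      · simp
      · by_cases hz : z = s0
        · subst hz; simp [τ]
        · simp [τ, hz]
    refine ⟨τ, ?_⟩
    intro s hs
    by_cases hss : s = s0
    · subst hss
      have := hS'.subst (Sum.elim var τ')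
      rw [subst_box, hsub] at this
      simpa [τ] using this
    · have hsF : s ∈ F := by
        rcases List.mem_cons.1 hs with h | h
        · exact absurd h hss
        · exact h
      have := hτ' s hsF
      rw [hsub] at this
      simpa [τ, hss] using this

/-- Replace the outermost boxes with index `< m` by fresh variables. -/
def rep (m : ℕ) : Fm (Option γ) → Fm (Option (γ ⊕ (ℕ × Fm (Option γ))))
  | var none => var none
  | var (some i) => var (some (Sum.inl i))
  | bot => bot
  | Fm.imp x y => Fm.imp (rep m x) (rep m y)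
  | Fm.box l x => if l < m then var (some (Sum.inr (l, x))) else Fm.box l (rep m x)

/-- The replaced boxes. -/
def lows (m : ℕ) : Fm (Option γ) → List (ℕ × Fm (Option γ))
  | var _ => []
  | bot => []
  | Fm.imp x y => lows m x ++ lows m y
  | Fm.box l x => if l < m then [(l, x)] else lows m x

theorem allGe_rep (m : ℕ) (D : Fm (Option γ)) : AllGe m (rep m D) := by
  induction D with
  | var i => cases i <;> trivial
  | bot => trivial
  | imp x y ihx ihy => exact ⟨ihx, ihy⟩
  | box l x ih =>
    unfold rep
    split_ifs with h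
    · trivial
    · exact ⟨Nat.le_of_not_lt h, ih⟩

theorem lows_lt (m : ℕ) (D : Fm (Option γ)) : ∀ s ∈ lows m D, s.1 < m := by
  induction D with
  | var i => intro s hs; simp [lows] at hs
  | bot => intro s hs; simp [lows] at hs
  | imp x y ihx ihy =>
    intro s hs
    rcases List.mem_append.1 hs with h | h
    · exact ihx s h
    · exact ihy s h
  | box l x ih =>
    intro s hs
    unfold lows at hs
    split_ifs at hs with h
    · rw [List.mem_singleton.1 hs]; exact h
    · exact ih s hs

theorem rep_eqv (m : ℕ) (H : Fm γ) (τ : ℕ × Fm (Option γ) → Fm γ) (D : Fm (Option γ))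
    (h : ∀ s ∈ lows m D, Eqv (τ s) (Fm.box s.1 (s.2.subst fun o => o.elim H var))) :
    Eqv ((rep m D).subst fun o => o.elim H (Sum.elim var τ)) (D.subst fun o => o.elim H var) := by
  induction D with
  | var i => cases i <;> exact Eqv.refl _
  | bot => exact Eqv.refl _
  | imp x y ihx ihy =>
    exact (ihx fun s hs => h s (List.mem_append_left _ hs)).imp
      (ihy fun s hs => h s (List.mem_append_right _ hs))
  | box l x ih =>
    unfold rep
    by_cases hl : l < m
    · rw [if_pos hl]
      have := h (l, x) (by simp [lows, hl])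
      exact this
    · rw [if_neg hl]
      exact (ih fun s hs => h s (by simpa [lows, hl] using hs)).box l

/-- The fixed point theorem for one boxed equation. -/
theorem solvable (m : ℕ) : Solvable m := by
  induction m using Nat.strong_induction_on with
  | _ m IH =>
    intro γ D
    obtain ⟨R, hR'⟩ : ∃ R : Fm (γ ⊕ (ℕ × Fm (Option γ))),
        Eqv R (Fm.box m ((rep m D).subst fun o => o.elim R var)) :=
      ⟨_, basic_fix m (rep m D) (allGe_rep m D)⟩
    obtain ⟨τ, hτ⟩ := system_lemma (γ := γ) (fun s : ℕ × Fm (Option γ) => s.1) (lows m D)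
      (fun s hs => IH s.1 (lows_lt m D s hs))
      (fun s => s.2.subst fun o => o.elim R (fun i => var (Sum.inl i)))
    refine ⟨R.subst (Sum.elim var τ), ?_⟩
    have h1 := hR'.subst (Sum.elim var τ)
    have h2 : ((rep m D).subst fun o => o.elim R var).subst (Sum.elim var τ) =
        (rep m D).subst fun o => o.elim (R.subst (Sum.elim var τ)) (Sum.elim var τ) := by
      rw [subst_subst]
      congr 1
      funext o
      cases o <;> rfl
    rw [subst_box, h2] at h1
    refine h1.trans (Eqv.box ?_ m)
    apply rep_eqv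
    intro s hs
    have h3 := hτ s hs
    rw [subst_subst] at h3
    have h4 : (fun o : Option γ => (o.elim R (fun i => var (Sum.inl i))).subst (Sum.elim var τ)) =
        fun o => o.elim (R.subst (Sum.elim var τ)) var := by
      funext o
      cases o <;> rfl
    rw [h4] at h3
    exact h3

/-! ## The substitution attached to a formula with the extension property -/

/-- Replace the variables at top level by constants and the top level boxes by given formulas. -/
def topf (a : α → Bool) (g : ℕ → Fm α → Fm δ) : Fm α → Fm δ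
  | var i => if a i then top else bot
  | bot => bot
  | Fm.imp x y => Fm.imp (topf a g x) (topf a g y)
  | Fm.box l x => g l x

/-- Value of the variable `i` under the first assignment in the list that makes `φ` true. -/
def pick (g : ℕ → Fm α → Fm δ) (φ : Fm α) (i : α) : List (α → Bool) → Fm δ
  | [] => bot
  | a :: L => Fm.and (Fm.imp (topf a g φ) (if a i then top else bot))
      (Fm.imp (neg (topf a g φ)) (pick g φ i L))

/-- Outermost boxes. -/
def obox : Fm α → List (ℕ × Fm α)
  | var _ => []
  | bot => []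
  | Fm.imp x y => obox x ++ obox y
  | Fm.box l x => [(l, x)]

theorem topf_subst (a : α → Bool) (g : ℕ → Fm α → Fm δ) (f : δ → Fm β) (x : Fm α) :
    (topf a g x).subst f = topf a (fun l y => (g l y).subst f) x := by
  induction x with
  | var i =>
    unfold topf
    split_ifs <;> rfl
  | bot => rfl
  | imp x y ihx ihy =>
    simp only [topf, subst_imp, ihx, ihy]
  | box l x _ => rfl

theorem pick_subst (g : ℕ → Fm α → Fm δ) (f : δ → Fm β) (φ : Fm α) (i : α)
    (L : List (α → Bool)) :
    (pick g φ i L).subst f = pick (fun l y => (g l y).subst f) φ i L := by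
  induction L with
  | nil => rfl
  | cons a L ih =>
    simp only [pick, subst_and, subst_imp, subst_neg, ih, topf_subst]
    congr 2
    split_ifs <;> rfl

theorem topf_mem {u : Set (Fm δ)} (hu : IsMCS u) (a : α → Bool) (g : ℕ → Fm α → Fm δ)
    (e : ℕ → Fm α → Prop) (x : Fm α) (h : ∀ s ∈ obox x, (g s.1 s.2 ∈ u ↔ e s.1 s.2)) :
    topf a g x ∈ u ↔ ev (fun i => a i = true) e x := by
  induction x with
  | var i =>
    unfold topf ev
    split_ifs with hi
    · exact iff_of_true (mem_top hu) hi
    · exact iff_of_false hu.nbot hi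
  | bot => exact iff_of_false hu.nbot id
  | imp x y ihx ihy =>
    unfold topf ev
    rw [mem_imp hu, ihx fun s hs => h s (List.mem_append_left _ hs),
      ihy fun s hs => h s (List.mem_append_right _ hs)]
  | box l x _ => exact h (l, x) (by simp [obox])

theorem pick_mem {u : Set (Fm δ)} (hu : IsMCS u) (g : ℕ → Fm α → Fm δ) (φ : Fm α)
    (L : List (α → Bool)) (h : ∃ a ∈ L, topf a g φ ∈ u) :
    ∃ a ∈ L, topf a g φ ∈ u ∧ ∀ i, (pick g φ i L ∈ u ↔ a i = true) := by
  induction L with
  | nil => simp at h
  | cons a L ih =>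
    by_cases ha : topf a g φ ∈ u
    · refine ⟨a, by simp, ha, ?_⟩
      intro i
      unfold pick
      rw [mem_and hu, mem_imp hu, mem_imp hu, mem_neg hu]
      constructor
      · rintro ⟨h1, -⟩
        have h2 := h1 ha
        split_ifs at h2 with h3
        · exact h3
        · exact absurd h2 hu.nbot
      · intro hi
        refine ⟨fun _ => ?_, fun h2 => absurd ha h2⟩
        rw [if_pos hi]
        exact mem_top hu
    · obtain ⟨b, hb, hb2, hb3⟩ := ih (by
        obtain ⟨c, hc, hc2⟩ := h
        rcases List.mem_cons.1 hc with h1 | h1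
        · subst h1; exact absurd hc2 ha
        · exact ⟨c, h1, hc2⟩)
      refine ⟨b, List.mem_cons_of_mem _ hb, hb2, ?_⟩
      intro i
      unfold pick
      rw [mem_and hu, mem_imp hu, mem_imp hu, mem_neg hu, ← hb3 i]
      tauto

theorem ev_of_subst {x : Set (Fm β)} (hx : IsMCS x) (T : α → Fm β) (a : α → Prop)
    (ha : ∀ i, T i ∈ x ↔ a i) (ψ : Fm α) :
    ψ.subst T ∈ x ↔ ev a (fun l χ => Fm.box l (χ.subst T) ∈ x) ψ := by
  induction ψ with
  | var i => exact ha i
  | bot => exact iff_of_false hx.nbot id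
  | imp x y ihx ihy =>
    unfold ev
    rw [subst_imp, mem_imp hx, ihx, ihy]
  | box l x _ => exact Iff.rfl

/-- **Exact formulas of GLP are projective.** -/
theorem exact_projective [Finite α] (φ : Fm α) (σ : α → Fm β)
    (hφ : Der ∅ (φ.subst σ)) (hex : ∀ ψ : Fm α, Der ∅ (ψ.subst σ) → Der {φ} ψ) :
    ∃ T : α → Fm α, Der ∅ (φ.subst T) ∧
      ∀ i, Der {φ} (Fm.imp (var i) (T i)) ∧ Der {φ} (Fm.imp (T i) (var i)) := by
  classical
  have := Fintype.ofFinite α
  set L : List (α → Bool) := (Finset.univ : Finset (α → Bool)).toList with hL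
  have hLmem : ∀ a : α → Bool, a ∈ L := fun a => by simp [hL]
  set Φ : Fm α := Fm.and φ (Fm.box 0 φ) with hΦ
  let B : α → Fm (α ⊕ (ℕ × Fm α)) := fun i =>
    Fm.and (Fm.imp (Φ.subst fun i => var (Sum.inl i)) (var (Sum.inl i)))
      (Fm.imp (neg (Φ.subst fun i => var (Sum.inl i)))
        (pick (fun l χ => var (Sum.inr (l, χ))) φ i L))
  obtain ⟨τ, hτ⟩ := system_lemma (γ := α) (fun s : ℕ × Fm α => s.1) (obox φ)
    (fun s _ => solvable s.1) (fun s => s.2.subst B)
  let T : α → Fm α := fun i => Fm.and (Fm.imp Φ (var i))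
    (Fm.imp (neg Φ) (pick (fun l χ => τ (l, χ)) φ i L))
  have hT : ∀ i, (B i).subst (Sum.elim var τ) = T i := by
    intro i
    simp only [B, T, subst_and, subst_imp, subst_neg, pick_subst, subst_subst, subst_var,
      Sum.elim_inl, Sum.elim_inr]
    rw [subst_id]
  have hτ' : ∀ s ∈ obox φ, Eqv (τ s) (Fm.box s.1 (s.2.subst T)) := by
    intro s hs
    have h1 := hτ s hs
    rw [subst_subst] at h1
    have h2 : (fun i => (B i).subst (Sum.elim var τ)) = T := funext hT
    rwa [h2] at h1
  -- behaviour of T
  have hT1 : ∀ x, IsMCS x → Φ ∈ x → ∀ i, (T i ∈ x ↔ (var i : Fm α) ∈ x) := by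
    intro x hx h i
    simp only [T]
    rw [mem_and hx, mem_imp hx, mem_imp hx, mem_neg hx]
    tauto
  have hT2 : ∀ x, IsMCS x → Φ ∉ x → ∀ i,
      (T i ∈ x ↔ pick (fun l χ => τ (l, χ)) φ i L ∈ x) := by
    intro x hx h i
    simp only [T]
    rw [mem_and hx, mem_imp hx, mem_imp hx, mem_neg hx]
    tauto
  -- formulas do not change where Φ holds
  have hT3 : ∀ ψ : Fm α, ∀ x, IsMCS x → Φ ∈ x → (ψ.subst T ∈ x ↔ ψ ∈ x) := by
    intro ψ
    induction ψ with
    | var i => intro x hx h; exact hT1 x hx h i
    | bot => intro x _ _; exact Iff.rfl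
    | imp a b iha ihb =>
      intro x hx h
      rw [subst_imp, mem_imp hx, mem_imp hx, iha x hx h, ihb x hx h]
    | box l a ih =>
      intro x hx h
      rw [subst_box, mem_box hx, mem_box hx]
      refine forall_congr' fun v => forall_congr' fun hv => forall_congr' fun hR => ih v hv ?_
      rw [hΦ, mem_and hx] at h
      rw [hΦ, mem_and hv]
      exact ⟨hR _ (box_le hx (Nat.zero_le l) h.2),
        hR _ (box_le hx (Nat.zero_le l) (box_four hx 0 h.2))⟩
  refine ⟨T, ?_, ?_⟩
  · apply lob_rule 0
    rw [der_imp_iff]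
    intro x hx h0
    by_cases hΦx : Φ ∈ x
    · rw [hT3 φ x hx hΦx]
      rw [hΦ, mem_and hx] at hΦx
      exact hΦx.1
    · -- the extension property at x
      have hy : IsMCS {a : Fm α | a.subst T ∈ x} := hx.comap T
      obtain ⟨a, ha⟩ := extension_property hφ hex hy h0
      have ha' : ∃ b ∈ L, topf b (fun l χ => τ (l, χ)) φ ∈ x := by
        refine ⟨fun i => decide (a i), hLmem _, ?_⟩
        rw [topf_mem hx _ _ (fun l χ => Fm.box l (χ.subst T) ∈ x)]
        · simpa using ha
        · intro s hs
          exact hτ' s hs x hx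
      obtain ⟨b, -, hb, hbi⟩ := pick_mem hx _ _ L ha'
      have hb' := (topf_mem hx b (fun l χ => τ (l, χ)) (fun l χ => Fm.box l (χ.subst T) ∈ x) φ
        (fun s hs => hτ' s hs x hx)).1 hb
      rw [ev_of_subst hx T (fun i => b i = true)]
      · exact hb'
      · intro i
        rw [hT2 x hx hΦx i, hbi i]
  · intro i
    have h1 : Der {φ} φ := Der.hyp rfl
    have h2 : Der {φ} (Fm.box 0 φ) := Der.nec 0 h1
    have key : ∀ a : Fm α, Der ∅ (Fm.imp φ (Fm.imp (Fm.box 0 φ) a)) → Der {φ} a := by
      intro a ha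
      exact Der.mp h2 (Der.mp h1 (ha.mono (Set.empty_subset _)))
    constructor
    · apply key
      rw [der_imp_iff]
      intro u hu h3
      rw [mem_imp hu, mem_imp hu]
      intro h4 h5
      exact (hT1 u hu ((mem_and hu _ _).2 ⟨h3, h4⟩) i).2 h5
    · apply key
      rw [der_imp_iff]
      intro u hu h3
      rw [mem_imp hu, mem_imp hu]
      intro h4 h5
      exact (hT1 u hu ((mem_and hu _ _).2 ⟨h3, h4⟩) i).1 h5

end Pool.Agent.H557R3.GLP
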