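import Mathlib
import Pool.Agent.H557R3.GLPFix

/-!
# Translation between first-order terms and formulas
-/

set_option autoImplicit false

namespace Pool.Agent.H557R3.GLP

open Fm

variable {L : FirstOrder.Language.{0, 0}} (c0 : L.Functions 0) (cimp : L.Functions 2)
    (cbox : ℕ → L.Functions 1) {α β : Type}

/-- Formulas as terms. -/
def ofFm : Fm α → L.Term α
  | var i => FirstOrder.Language.Term.var i
  | bot => FirstOrder.Language.Term.func c0 ![]
  | Fm.imp a b => FirstOrder.Language.Term.func cimp ![ofFm a, ofFm b]
  | Fm.box k a => FirstOrder.Language.Term.func (cbox k) ![ofFm a]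

theorem ofFm_surj (h0 : ∀ f : L.Functions 0, f = c0) (h2 : ∀ f : L.Functions 2, f = cimp)
    (h1 : Function.Bijective cbox) (h3 : ∀ n : ℕ, 3 ≤ n → IsEmpty (L.Functions n))
    (t : L.Term α) : ∃ x : Fm α, ofFm c0 cimp cbox x = t := by
  induction t with
  | var i => exact ⟨var i, rfl⟩
  | @func l f ts ih =>
    match l, f, ts, ih with
    | 0, f, ts, _ =>
      refine ⟨bot, ?_⟩
      rw [h0 f]
      simp only [ofFm]
      congr 1
      funext i
      exact i.elim0
    | 1, f, ts, ih =>
      obtain ⟨k, rfl⟩ := h1.2 f
      obtain ⟨a, ha⟩ := ih 0
      refine ⟨Fm.box k a, ?_⟩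
      simp only [ofFm]
      congr 1
      funext i
      fin_cases i
      simpa using ha
    | 2, f, ts, ih =>
      rw [h2 f]
      obtain ⟨a, ha⟩ := ih 0
      obtain ⟨b, hb⟩ := ih 1
      refine ⟨Fm.imp a b, ?_⟩
      simp only [ofFm]
      congr 1
      funext i
      fin_cases i
      · simpa using ha
      · simpa using hb
    | n + 3, f, ts, _ => exact ((h3 (n + 3) (by omega)).false f).elim

theorem ofFm_inj (h1 : Function.Bijective cbox) :
    Function.Injective (ofFm (α := α) c0 cimp cbox) := by
  intro a
  induction a with
  | var i =>
    intro b h
    cases b with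
    | var j => simp only [ofFm] at h; injection h with h; rw [h]
    | bot => simp only [ofFm] at h; cases h
    | imp _ _ => simp only [ofFm] at h; cases h
    | box _ _ => simp only [ofFm] at h; cases h
  | bot =>
    intro b h
    cases b with
    | var j => simp only [ofFm] at h; cases h
    | bot => rfl
    | imp _ _ => simp only [ofFm] at h; injection h with h; cases h
    | box _ _ => simp only [ofFm] at h; injection h with h; cases h
  | imp a a' iha iha' =>
    intro b h
    cases b with
    | var j => simp only [ofFm] at h; cases h
    | bot => simp only [ofFm] at h; injection h with h; cases h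
    | imp b b' =>
      simp only [ofFm] at h
      injection h with _ _ h
      have h3 := congrFun h 0
      have h4 := congrFun h 1
      simp only [Matrix.cons_val_zero, Matrix.cons_val_one] at h3 h4
      rw [iha h3, iha' h4]
    | box _ _ => simp only [ofFm] at h; injection h with h; cases h
  | box k a ih =>
    intro b h
    cases b with
    | var j => simp only [ofFm] at h; cases h
    | bot => simp only [ofFm] at h; injection h with h; cases h
    | imp b b' => simp only [ofFm] at h; injection h with h; cases h
    | box k' b =>
      simp only [ofFm] at h
      injection h with _ h2 h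
      have h3 := congrFun h 0
      simp only [Matrix.cons_val_zero] at h3
      rw [ih h3, h1.1 h2]

theorem ofFm_subst (f : α → Fm β) (x : Fm α) :
    ofFm c0 cimp cbox (x.subst f) =
      (ofFm c0 cimp cbox x).subst (fun i => ofFm c0 cimp cbox (f i)) := by
  induction x with
  | var i => rfl
  | bot =>
    simp only [subst_bot, ofFm, FirstOrder.Language.Term.subst]
    congr 1
    funext i
    exact i.elim0
  | imp a b iha ihb =>
    simp only [subst_imp, ofFm, FirstOrder.Language.Term.subst]
    congr 1
    funext i
    fin_cases i
    · simpa using iha
    · simpa using ihb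
  | box k a ih =>
    simp only [subst_box, ofFm, FirstOrder.Language.Term.subst]
    congr 1
    funext i
    fin_cases i
    simpa using ih

theorem ofFm_relabel (g : α → β) (x : Fm α) :
    ofFm c0 cimp cbox (x.subst (fun i => var (g i))) =
      (ofFm c0 cimp cbox x).relabel g := by
  induction x with
  | var i => rfl
  | bot =>
    simp only [subst_bot, ofFm, FirstOrder.Language.Term.relabel]
    congr 1
    funext i
    exact i.elim0
  | imp a b iha ihb =>
    simp only [subst_imp, ofFm, FirstOrder.Language.Term.relabel]
    congr 1
    funext i
    fin_cases i
    · simpa using iha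
    · simpa using ihb
  | box k a ih =>
    simp only [subst_box, ofFm, FirstOrder.Language.Term.relabel]
    congr 1
    funext i
    fin_cases i
    simpa using ih

end Pool.Agent.H557R3.GLP
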