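import Pool.Agent.H862R3.Prim.Stmts

set_option autoImplicit false
set_option linter.unusedSectionVars false

/-!
# PRIMVAR, task M2: the module lemma from Maschke's theorem
-/

namespace Pool.Agent.H557R3.PVM2

open Pool.Agent.H862R3.Prim

section

variable {A : Type} [AddCommGroup A] {K : Type} [Group K] [DistribMulAction K A]

/-- invariant subgroups -/
def Inv (K : Type) [Group K] [DistribMulAction K A] (X : AddSubgroup A) : Prop :=
  ∀ k : K, ∀ x ∈ X, k • x ∈ X

/-- the multiples by `n` of the elements of `X` -/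
def pw (n : ℕ) (X : AddSubgroup A) : AddSubgroup A := X.map (nsmulAddMonoidHom n)

theorem mem_pw {n : ℕ} {X : AddSubgroup A} {y : A} : y ∈ pw n X ↔ ∃ x ∈ X, n • x = y := by
  unfold pw
  rw [AddSubgroup.mem_map]
  rfl

/-- the elements whose multiple by `n` is in `X` -/
def dv (n : ℕ) (X : AddSubgroup A) : AddSubgroup A := X.comap (nsmulAddMonoidHom n)

theorem mem_dv {n : ℕ} {X : AddSubgroup A} {y : A} : y ∈ dv n X ↔ n • y ∈ X := Iff.rfl

theorem Inv.sup {X Y : AddSubgroup A} (hX : Inv K X) (hY : Inv K Y) : Inv K (X ⊔ Y) := by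
  intro k x hx
  rw [AddSubgroup.mem_sup] at hx ⊢
  obtain ⟨y, hy, z, hz, rfl⟩ := hx
  exact ⟨k • y, hX k y hy, k • z, hY k z hz, (smul_add _ _ _).symm⟩

theorem Inv.inf {X Y : AddSubgroup A} (hX : Inv K X) (hY : Inv K Y) : Inv K (X ⊓ Y) :=
  fun k x hx => ⟨hX k x hx.1, hY k x hx.2⟩

theorem Inv.pw {X : AddSubgroup A} (hX : Inv K X) (n : ℕ) : Inv K (pw n X) := by
  intro k x hx
  rw [mem_pw] at hx ⊢
  obtain ⟨y, hy, rfl⟩ := hx
  exact ⟨k • y, hX k y hy, smul_comm _ _ _⟩

theorem Inv.dv {X : AddSubgroup A} (hX : Inv K X) (n : ℕ) : Inv K (dv n X) := by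
  intro k x hx
  rw [mem_dv] at hx ⊢
  rw [← smul_comm k n x]
  exact hX k _ hx

theorem inv_top : Inv K (⊤ : AddSubgroup A) := fun _ _ _ => AddSubgroup.mem_top _

theorem card_hom {U : Type} [AddCommGroup U] (f : U →+ U) :
    Nat.card U = Nat.card f.range * Nat.card f.ker := by
  rw [AddSubgroup.card_eq_card_quotient_mul_card_addSubgroup f.ker,
    Nat.card_congr (QuotientAddGroup.quotientKerEquivRange f).toEquiv]

/-- in a finite abelian group, if the kernel of `q` is the image of `h`, and `q h = 0`, then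
the kernel of `h` is the image of `q` -/
theorem ker_eq_range {U : Type} [AddCommGroup U] [Finite U] (f g : U →+ U)
    (h1 : f.ker = g.range) (h2 : ∀ x, g (f x) = 0) (x : U) (hx : g x = 0) : x ∈ f.range := by
  have c1 := card_hom f
  have c2 := card_hom g
  rw [h1] at c1
  have hpos : 0 < Nat.card g.range := Nat.card_pos
  have c3 : Nat.card f.range = Nat.card g.ker := by
    have : Nat.card f.range * Nat.card g.range = Nat.card g.ker * Nat.card g.range := by
      rw [← c1, c2, mul_comm]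
    exact Nat.eq_of_mul_eq_mul_right hpos this
  have hle : f.range ≤ g.ker := by
    rintro y ⟨z, rfl⟩
    exact h2 z
  have heq : f.range = g.ker := by
    apply SetLike.coe_injective
    refine Set.eq_of_subset_of_ncard_le hle ?_
    have e1 : (g.ker : Set U).ncard = Nat.card g.ker := rfl
    have e2 : (f.range : Set U).ncard = Nat.card f.range := rfl
    rw [e1, e2, c3]
  rw [heq]
  exact hx

end

theorem taskM2 : Pool.Agent.H862R3.Prim.TaskM2 := by
  intro hM1 A K _ _ _ _ _ q e hq hqe hK N hN a haN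
  have hq0 : 0 < q := hq.pos
  -- choice of `M`
  obtain ⟨M, ⟨hNM, hMi, haM⟩, hMmax⟩ := WellFounded.has_min
    (wellFounded_gt : WellFounded ((· > ·) : AddSubgroup A → AddSubgroup A → Prop))
    {M : AddSubgroup A | N ≤ M ∧ Inv K M ∧ a ∉ M} ⟨N, le_rfl, hN, haN⟩
  have hbig : ∀ X : AddSubgroup A, Inv K X → M < X → a ∈ X := by
    intro X hX hMX
    by_contra hcon
    exact hMmax X ⟨hNM.trans hMX.le, hX, hcon⟩ hMX
  have hex : ∃ i, ∀ x : A, q ^ i • x ∈ M := ⟨e, fun x => by rw [hqe]; exact M.zero_mem⟩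
  obtain ⟨e0, he0, he0min⟩ : ∃ e0, (∀ x : A, q ^ e0 • x ∈ M) ∧
      ∀ i, (∀ x : A, q ^ i • x ∈ M) → e0 ≤ i := by
    classical
    exact ⟨Nat.find hex, Nat.find_spec hex, fun i hi => Nat.find_min' hex hi⟩
  have he0pos : 0 < e0 := by
    rcases Nat.eq_zero_or_pos e0 with h | h
    · exfalso
      apply haM
      have := he0 a
      rwa [h, pow_zero, one_smul] at this
    · exact h
  obtain ⟨f, rfl⟩ : ∃ f, e0 = f + 1 := ⟨e0 - 1, by omega⟩
  -- the smallest invariant subgroup above `M`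
  have hS : ∀ X : AddSubgroup A, Inv K X → M < X → ∀ x, q • x ∈ M → x ∈ X := by
    intro X hX hMX x hx
    have hMS : M ≤ dv q M := fun y hy => M.nsmul_mem hy q
    obtain ⟨y, hyX, hyM⟩ := SetLike.exists_of_lt hMX
    have hRM : M < X ⊓ dv q M := by
      refine lt_of_le_of_ne (le_inf hMX.le hMS) ?_
      intro heq
      have hexj : ∃ j, q ^ j • y ∈ M := ⟨e, by rw [hqe]; exact M.zero_mem⟩
      classical
      obtain ⟨j, hj, hjmin⟩ : ∃ j, q ^ j • y ∈ M ∧ ∀ i, q ^ i • y ∈ M → j ≤ i :=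
        ⟨Nat.find hexj, Nat.find_spec hexj, fun i hi => Nat.find_min' hexj hi⟩
      rcases Nat.eq_zero_or_pos j with h0 | h0
      · rw [h0, pow_zero, one_smul] at hj
        exact hyM hj
      · obtain ⟨i, rfl⟩ : ∃ i, j = i + 1 := ⟨j - 1, by omega⟩
        have hz : q ^ i • y ∈ X ⊓ dv q M := by
          refine ⟨X.nsmul_mem hyX _, ?_⟩
          show q • (q ^ i • y) ∈ M
          rw [smul_smul, ← pow_succ']
          exact hj
        rw [← heq] at hz
        have := hjmin i hz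
        omega
    have haR := hbig _ (hX.inf (hMi.dv q)) hRM
    obtain ⟨T, hTi, hT1, hT2⟩ := hM1 A K q hq hK (dv q M) (X ⊓ dv q M) M (hMi.dv q)
      (hX.inf (hMi.dv q)) hMi hRM.le inf_le_right (fun z hz => hz)
    by_cases hTM : T = M
    · rw [hTM, sup_eq_right.2 hRM.le] at hT1
      have : x ∈ X ⊓ dv q M := by rw [hT1]; exact hx
      exact this.1
    · exfalso
      have h1 : M < T := lt_of_le_of_ne (by rw [← hT2]; exact inf_le_left) (Ne.symm hTM)
      have h2 : a ∈ T := hbig T hTi h1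
      apply haM
      rw [← hT2]
      exact ⟨h2, haR⟩
  -- `q ^ f • ⊤ ⊔ M` is above `M`
  have hnot : ¬ ∀ x : A, q ^ f • x ∈ M := fun h => by
    have := he0min f h
    omega
  have hgen : ∀ X : AddSubgroup A, Inv K X → (∃ x ∈ X, q ^ f • x ∉ M) → ∀ y : A, q • y ∈ M →
      ∃ x ∈ X, y - q ^ f • x ∈ M := by
    rintro X hX ⟨x, hxX, hxM⟩ y hy
    have h1 : M < pw (q ^ f) X ⊔ M := by
      refine lt_of_le_of_ne le_sup_right ?_
      intro heq
      apply hxM
      rw [heq]
      exact (le_sup_left : pw (q ^ f) X ≤ _) (mem_pw.2 ⟨x, hxX, rfl⟩)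
    have h2 := hS _ ((hX.pw _).sup hMi) h1 y hy
    rw [AddSubgroup.mem_sup] at h2
    obtain ⟨u, hu, m, hm, rfl⟩ := h2
    obtain ⟨x', hx', rfl⟩ := mem_pw.1 hu
    exact ⟨x', hx', by rwa [add_sub_cancel_left]⟩
  -- step 3
  have h3 : ∀ x : A, q ^ f • x ∈ M → ∃ y : A, x - q • y ∈ M := by
    intro x hx
    have key := ker_eq_range (U := A ⧸ M) (nsmulAddMonoidHom q) (nsmulAddMonoidHom (q ^ f)) (by
      ext u
      obtain ⟨u, rfl⟩ := QuotientAddGroup.mk_surjective u
      constructor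
      · intro hu
        have hu1 : ((q • u : A) : A ⧸ M) = 0 := hu
        rw [QuotientAddGroup.eq_zero_iff] at hu1
        obtain ⟨w, -, hw⟩ := hgen ⊤ inv_top (by
          push Not at hnot
          obtain ⟨x, hx⟩ := hnot
          exact ⟨x, AddSubgroup.mem_top _, hx⟩) u hu1
        refine ⟨(w : A ⧸ M), ?_⟩
        have : ((q ^ f • w : A) : A ⧸ M) = (u : A ⧸ M) := by
          rw [QuotientAddGroup.eq]
          have e1 : -(q ^ f • w) + u = u - q ^ f • w := by abel
          rw [e1]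
          exact hw
        exact this
      · rintro ⟨w, hw⟩
        obtain ⟨w, rfl⟩ := QuotientAddGroup.mk_surjective w
        rw [AddMonoidHom.mem_ker, ← hw]
        have : ((q • (q ^ f • w) : A) : A ⧸ M) = 0 := by
          rw [QuotientAddGroup.eq_zero_iff, smul_smul, ← pow_succ']
          exact he0 w
        exact this) (by
      intro u
      obtain ⟨u, rfl⟩ := QuotientAddGroup.mk_surjective u
      have : ((q ^ f • (q • u) : A) : A ⧸ M) = 0 := by
        rw [QuotientAddGroup.eq_zero_iff, smul_smul, ← pow_succ]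
        exact he0 u
      exact this) (x : A ⧸ M) (by
      have : ((q ^ f • x : A) : A ⧸ M) = 0 := by
        rw [QuotientAddGroup.eq_zero_iff]
        exact hx
      exact this)
    obtain ⟨y, hy⟩ := key
    obtain ⟨y, rfl⟩ := QuotientAddGroup.mk_surjective y
    refine ⟨y, ?_⟩
    have h1 : ((q • y : A) : A ⧸ M) = (x : A ⧸ M) := hy
    rw [QuotientAddGroup.eq] at h1
    have e1 : -(q • y) + x = x - q • y := by abel
    rwa [e1] at h1
  -- Nakayama
  have hnak : ∀ X : AddSubgroup A, (∀ y : A, ∃ x ∈ X, ∃ z : A, y = x + q • z) → ∀ y : A, y ∈ X := by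
    intro X hX y
    have h : ∀ i : ℕ, ∀ y : A, ∃ x ∈ X, ∃ z : A, y = x + q ^ i • z := by
      intro i
      induction i with
      | zero => exact fun y => ⟨0, X.zero_mem, y, by simp⟩
      | succ i ih =>
        intro y
        obtain ⟨x, hx, z, rfl⟩ := ih y
        obtain ⟨x', hx', z', rfl⟩ := hX z
        refine ⟨x + q ^ i • x', X.add_mem hx (X.nsmul_mem hx' _), z', ?_⟩
        rw [smul_add, smul_smul, ← pow_succ, add_assoc]
    obtain ⟨x, hx, z, hz⟩ := h e y
    rw [hqe, add_zero] at hz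
    rwa [hz]
  -- step 4
  have h4 : ∀ X : AddSubgroup A, Inv K X → M ≤ X → X ≠ ⊤ → ∀ x ∈ X, ∃ y : A, x - q • y ∈ M := by
    intro X hX hMX hne x hx
    by_contra hcon
    have hxM : q ^ f • x ∉ M := fun h => hcon (h3 x h)
    apply hne
    rw [eq_top_iff]
    intro y _
    have := hnak X (by
      intro y
      obtain ⟨x', hx', h5⟩ := hgen X hX ⟨x, hx, hxM⟩ (q ^ f • y) (by
        rw [smul_smul, ← pow_succ']
        exact he0 y)
      rw [← smul_sub] at h5
      obtain ⟨z, hz⟩ := h3 _ h5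
      exact ⟨x' + (y - x' - q • z), X.add_mem hx' (hMX hz), z, by abel⟩)
    exact this y
  -- choice of `Q`
  obtain ⟨Q, ⟨hQi, hQM⟩, hQmin⟩ := WellFounded.has_min
    (wellFounded_lt : WellFounded ((· < ·) : AddSubgroup A → AddSubgroup A → Prop))
    {Q : AddSubgroup A | Inv K Q ∧ Q ⊔ M = ⊤} ⟨⊤, inv_top, top_sup_eq _⟩
  have hMtop : M ≠ ⊤ := fun h => haM (h ▸ AddSubgroup.mem_top _)
  -- step 5
  let R : AddSubgroup A := Q ⊓ (pw q ⊤ ⊔ M)
  have hRi : Inv K R := hQi.inf ((inv_top.pw q).sup hMi)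
  have hsmall : ∀ X : AddSubgroup A, Inv K X → X ≤ Q → X ≠ Q → X ≤ R := by
    intro X hX hXQ hne
    refine le_inf hXQ ?_
    intro x hx
    have h5 : X ⊔ M ≠ ⊤ := fun h => hQmin X ⟨hX, h⟩ (lt_of_le_of_ne hXQ hne)
    obtain ⟨y, hy⟩ := h4 (X ⊔ M) (hX.sup hMi) le_sup_right h5 x ((le_sup_left : X ≤ X ⊔ M) hx)
    rw [AddSubgroup.mem_sup]
    exact ⟨q • y, mem_pw.2 ⟨y, AddSubgroup.mem_top _, rfl⟩, x - q • y, hy, by abel⟩
  have hRQ : R ≠ Q := by
    intro h
    have h5 : Q ≤ pw q ⊤ ⊔ M := by rw [← h]; exact inf_le_right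
    apply hMtop
    rw [eq_top_iff]
    intro y _
    apply hnak M
    intro y
    have h6 : y ∈ Q ⊔ M := by rw [hQM]; exact AddSubgroup.mem_top _
    have h7 : y ∈ pw q ⊤ ⊔ M := (sup_le h5 le_sup_right) h6
    rw [AddSubgroup.mem_sup] at h7
    obtain ⟨u, hu, m, hm, rfl⟩ := h7
    obtain ⟨z, -, rfl⟩ := mem_pw.1 hu
    exact ⟨m, hm, z, add_comm _ _⟩
  have hqQ : pw q Q ≤ R := by
    intro y hy
    obtain ⟨x, hx, rfl⟩ := mem_pw.1 hy
    exact ⟨Q.nsmul_mem hx q, (le_sup_left : pw q ⊤ ≤ _) (mem_pw.2 ⟨x, AddSubgroup.mem_top _, rfl⟩)⟩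
  have hRle : R ≤ pw q Q := by
    obtain ⟨T, hTi, hT1, hT2⟩ := hM1 A K q hq hK Q R (pw q Q) hQi hRi (hQi.pw q) hqQ inf_le_left
      (fun x hx => mem_pw.2 ⟨x, hx, rfl⟩)
    by_cases hTQ : T = Q
    · rw [hTQ] at hT2
      rw [← hT2]
      exact le_inf inf_le_left le_rfl
    · exfalso
      have hTQ' : T ≤ Q := by rw [← hT1]; exact le_sup_left
      have h5 := hsmall T hTi hTQ' hTQ
      rw [sup_eq_right.2 h5] at hT1
      exact hRQ hT1
  -- step 6
  have h6 : ∀ X : AddSubgroup A, Inv K X → X ≤ Q → ∃ i, X = pw (q ^ i) Q := by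
    intro X hX hXQ
    have h : ∀ i : ℕ, X ≤ pw (q ^ i) Q ∨ ∃ j, X = pw (q ^ j) Q := by
      intro i
      induction i with
      | zero =>
        left
        intro x hx
        exact mem_pw.2 ⟨x, hXQ hx, by rw [pow_zero, one_smul]⟩
      | succ i ih =>
        rcases ih with ih | ih
        · by_cases h5 : Q ⊓ dv (q ^ i) X = Q
          · right
            refine ⟨i, le_antisymm ih ?_⟩
            intro y hy
            obtain ⟨x, hx, rfl⟩ := mem_pw.1 hy
            have : x ∈ Q ⊓ dv (q ^ i) X := by rw [h5]; exact hx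
            exact this.2
          · left
            have h7 := (hsmall _ (hQi.inf (hX.dv _)) inf_le_left h5).trans hRle
            intro x hx
            obtain ⟨y, hy, rfl⟩ := mem_pw.1 (ih hx)
            obtain ⟨z, hz, rfl⟩ := mem_pw.1 (h7 ⟨hy, hx⟩)
            exact mem_pw.2 ⟨z, hz, by rw [smul_smul, ← pow_succ]⟩
        · exact Or.inr ih
    rcases h e with h5 | h5
    · refine ⟨e, le_antisymm h5 ?_⟩
      intro y hy
      obtain ⟨x, hx, rfl⟩ := mem_pw.1 hy
      rw [hqe]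
      exact X.zero_mem
    · exact h5
  -- step 7
  obtain ⟨e1, he1, he1min⟩ : ∃ e1, (∀ x ∈ Q, q ^ e1 • x = 0) ∧
      ∀ i, (∀ x ∈ Q, q ^ i • x = 0) → e1 ≤ i := by
    classical
    have hex1 : ∃ i, ∀ x ∈ Q, q ^ i • x = 0 := ⟨e, fun x _ => hqe x⟩
    exact ⟨Nat.find hex1, Nat.find_spec hex1, fun i hi => Nat.find_min' hex1 hi⟩
  have hsplit : ∀ y : A, ∃ x ∈ Q, y - x ∈ M := by
    intro y
    have : y ∈ Q ⊔ M := by rw [hQM]; exact AddSubgroup.mem_top _
    rw [AddSubgroup.mem_sup] at this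
    obtain ⟨x, hx, m, hm, rfl⟩ := this
    exact ⟨x, hx, by rwa [add_sub_cancel_left]⟩
  have hge : ∀ i, (∀ x ∈ Q, q ^ i • x ∈ M) → f + 1 ≤ i := by
    intro i hi
    apply he0min
    intro y
    obtain ⟨x, hx, hm⟩ := hsplit y
    have h7 := M.add_mem (hi x hx) (M.nsmul_mem hm (q ^ i))
    rw [← smul_add, add_sub_cancel] at h7
    exact h7
  have he10 : f + 1 ≤ e1 := hge e1 (fun x hx => by rw [he1 x hx]; exact M.zero_mem)
  have hQM' : Q ⊓ M = pw (q ^ (f + 1)) Q := by
    obtain ⟨j, hj⟩ := h6 (Q ⊓ M) (hQi.inf hMi) inf_le_left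
    have hj1 : f + 1 ≤ j := hge j (fun x hx => by
      have : q ^ j • x ∈ Q ⊓ M := by rw [hj]; exact mem_pw.2 ⟨x, hx, rfl⟩
      exact this.2)
    apply le_antisymm
    · rw [hj]
      intro y hy
      obtain ⟨x, hx, rfl⟩ := mem_pw.1 hy
      refine mem_pw.2 ⟨q ^ (j - (f + 1)) • x, Q.nsmul_mem hx _, ?_⟩
      rw [smul_smul, ← pow_add]
      congr 2
      omega
    · intro y hy
      obtain ⟨x, hx, rfl⟩ := mem_pw.1 hy
      exact ⟨Q.nsmul_mem hx _, he0 x⟩
  have hker : Q ⊓ dv (q ^ (e1 - (f + 1))) ⊥ = pw (q ^ (f + 1)) Q := by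
    obtain ⟨j, hj⟩ := h6 (Q ⊓ dv (q ^ (e1 - (f + 1))) ⊥) (hQi.inf (Inv.dv (by
      intro k x hx
      rw [AddSubgroup.mem_bot] at hx ⊢
      rw [hx, smul_zero]) _)) inf_le_left
    have hj1 : f + 1 ≤ j := by
      have h7 := he1min (e1 - (f + 1) + j) (fun x hx => by
        have : q ^ j • x ∈ Q ⊓ dv (q ^ (e1 - (f + 1))) ⊥ := by
          rw [hj]; exact mem_pw.2 ⟨x, hx, rfl⟩
        have h8 : q ^ (e1 - (f + 1)) • (q ^ j • x) = 0 := AddSubgroup.mem_bot.1 this.2
        rw [smul_smul, ← pow_add] at h8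
        exact h8)
      omega
    apply le_antisymm
    · rw [hj]
      intro y hy
      obtain ⟨x, hx, rfl⟩ := mem_pw.1 hy
      refine mem_pw.2 ⟨q ^ (j - (f + 1)) • x, Q.nsmul_mem hx _, ?_⟩
      rw [smul_smul, ← pow_add]
      congr 2
      omega
    · intro y hy
      obtain ⟨x, hx, rfl⟩ := mem_pw.1 hy
      refine ⟨Q.nsmul_mem hx _, ?_⟩
      refine AddSubgroup.mem_bot.2 ?_
      show q ^ (e1 - (f + 1)) • (q ^ (f + 1) • x) = 0
      rw [smul_smul, ← pow_add]
      have : e1 - (f + 1) + (f + 1) = e1 := by omega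
      rw [this]
      exact he1 x hx
  have hiff : ∀ x ∈ Q, q ^ (e1 - (f + 1)) • x = 0 ↔ x ∈ M := by
    intro x hx
    constructor
    · intro h
      have : x ∈ Q ⊓ dv (q ^ (e1 - (f + 1))) ⊥ := ⟨hx, AddSubgroup.mem_bot.2 h⟩
      rw [hker, ← hQM'] at this
      exact this.2
    · intro h
      have : x ∈ Q ⊓ M := ⟨hx, h⟩
      rw [hQM', ← hker] at this
      exact AddSubgroup.mem_bot.1 this.2
  -- step 8
  choose s hsQ hsM using hsplit
  have hwell : ∀ (y x : A), x ∈ Q → y - x ∈ M →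
      q ^ (e1 - (f + 1)) • s y = q ^ (e1 - (f + 1)) • x := by
    intro y x hx hyx
    rw [← sub_eq_zero, ← smul_sub]
    refine (hiff _ (Q.sub_mem (hsQ y) hx)).2 ?_
    have : s y - x = (y - x) - (y - s y) := by abel
    rw [this]
    exact M.sub_mem hyx (hsM y)
  refine ⟨{ toFun := fun y => q ^ (e1 - (f + 1)) • s y
            map_zero' := ?_
            map_add' := ?_ }, ?_, ?_, ?_⟩
  · have := hwell 0 0 Q.zero_mem (by rw [sub_zero]; exact M.zero_mem)
    rw [this, smul_zero]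
  · intro y y'
    show q ^ (e1 - (f + 1)) • s (y + y') = q ^ (e1 - (f + 1)) • s y + q ^ (e1 - (f + 1)) • s y'
    rw [← smul_add]
    apply hwell
    · exact Q.add_mem (hsQ y) (hsQ y')
    · have : y + y' - (s y + s y') = (y - s y) + (y' - s y') := by abel
      rw [this]
      exact M.add_mem (hsM y) (hsM y')
  · intro k y
    show q ^ (e1 - (f + 1)) • s (k • y) = k • q ^ (e1 - (f + 1)) • s y
    rw [smul_comm k]
    apply hwell
    · exact hQi k _ (hsQ y)
    · rw [← smul_sub]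
      exact hMi k _ (hsM y)
  · intro x hx
    show q ^ (e1 - (f + 1)) • s x = 0
    rw [hwell x 0 Q.zero_mem (by rw [sub_zero]; exact hNM hx), smul_zero]
  · show q ^ (e1 - (f + 1)) • s a ≠ 0
    intro h
    have h7 := (hiff _ (hsQ a)).1 h
    apply haM
    have : a = s a + (a - s a) := by abel
    rw [this]
    exact M.add_mem h7 (hsM a)

end Pool.Agent.H557R3.PVM2
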