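import Mathlib

set_option autoImplicit false

/-!
Online routing of packets along fixed paths: networks, path collections, online protocols with
memory and their runs.
-/

namespace Pool.Agent.H557R3.Route

/-- A network: a finite directed graph. -/
structure Network where
  V : Type
  fin : Finite V
  adj : V → V → Prop

/-- A path collection of size `n`: a list of `n` directed paths of the network. -/
structure PathCollection (G : Network) (n : ℕ) where
  path : Fin n → List G.V
  nonempty : ∀ i, path i ≠ []
  isPath : ∀ i, (path i).IsChain G.adj

/-- The path `l` uses the edge `(u, v)`. -/
def UsesEdge {V : Type} (l : List V) (u v : V) : Prop :=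
  ∃ k, l[k]? = some u ∧ l[k + 1]? = some v

/-- No path of the collection repeats a node. -/
def PathCollection.Simple {G : Network} {n : ℕ} (P : PathCollection G n) : Prop :=
  ∀ i, (P.path i).Nodup

/-- The nodes carry levels and every path edge goes from some level `k` to level `k + 1`. -/
def PathCollection.Leveled {G : Network} {n : ℕ} (P : PathCollection G n) : Prop :=
  ∃ lev : G.V → ℕ, ∀ i u v, UsesEdge (P.path i) u v → lev v = lev u + 1

/-- The congestion: the largest number of paths using one edge. -/
noncomputable def PathCollection.congestion {G : Network} {n : ℕ} (P : PathCollection G n) : ℕ :=
  ⨆ e : G.V × G.V, Nat.card {i : Fin n // UsesEdge (P.path i) e.1 e.2}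

/-- The dilation: the largest number of edges on a path. -/
noncomputable def PathCollection.dilation {G : Network} {n : ℕ} (P : PathCollection G n) : ℕ :=
  ⨆ i : Fin n, ((P.path i).length - 1)

/-- What a node sees: for every packet present at the node, its path and the information which the
packet carries. -/
abbrev View (V S : Type) (n : ℕ) : Type := Fin n → Option (List V × S)

/-- A (deterministic) online protocol for `n` packets on the network `G`. Packets and nodes carry
information of arbitrary types `S` and `M`. At every step, at every node `v`, the protocol sees only
the step number, the node, the information stored at the node, and the packets present at the node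
(with their names, complete paths and the information they carry). From this it chooses for every
node `w` the packet to be forwarded over the edge from `v` to `w` (if any), and rewrites the
information of the node and of the packets present. -/
structure Protocol (G : Network) (n : ℕ) where
  S : Type
  M : Type
  initPacket : Fin n → List G.V → S
  initNode : G.V → M
  forward : G.V → ℕ → M → View G.V S n → G.V → Option (Fin n)
  newPacket : G.V → ℕ → M → View G.V S n → Fin n → S
  newNode : G.V → ℕ → M → View G.V S n → M

/-- A configuration: the position of each packet on its path, and all stored information. -/
structure Config (V S M : Type) (n : ℕ) where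
  pos : Fin n → ℕ
  st : Fin n → S
  mem : V → M

open Classical in
/-- The packets present at the node `v` in a configuration. -/
noncomputable def view {V S M : Type} {n : ℕ} (P : Fin n → List V) (c : Config V S M n) (v : V) :
    View V S n :=
  fun i => if (P i)[c.pos i]? = some v then some (P i, c.st i) else none

open Classical in
/-- One synchronous step: a packet `i` waiting at `v` whose next node is `w` moves to `w` exactly if
the protocol chooses `i` for the edge from `v` to `w`; so at most one packet crosses each edge. -/
noncomputable def step {G : Network} {n : ℕ} (A : Protocol G n) (P : Fin n → List G.V) (t : ℕ)
    (c : Config G.V A.S A.M n) : Config G.V A.S A.M n where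
  pos := fun i => if ∃ v w, (P i)[c.pos i]? = some v ∧ (P i)[c.pos i + 1]? = some w ∧
    A.forward v t (c.mem v) (view P c v) w = some i then c.pos i + 1 else c.pos i
  st := fun i => match (P i)[c.pos i]? with
    | none => c.st i
    | some v => A.newPacket v t (c.mem v) (view P c v) i
  mem := fun v => A.newNode v t (c.mem v) (view P c v)

/-- The configuration after `t` steps. -/
noncomputable def run {G : Network} {n : ℕ} (A : Protocol G n) (P : Fin n → List G.V) :
    ℕ → Config G.V A.S A.M n
  | 0 => ⟨fun _ => 0, fun i => A.initPacket i (P i), A.initNode⟩
  | t + 1 => step A P t (run A P t)

/-- After `t` steps all packets have been delivered. -/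
def Delivered {G : Network} {n : ℕ} (A : Protocol G n) (P : PathCollection G n) (t : ℕ) : Prop :=
  ∀ i, (run A P.path t).pos i + 1 = (P.path i).length

end Pool.Agent.H557R3.Route
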