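import Pool.Agent.H557R3.RouteMain

set_option autoImplicit false

/-!
From deterministic to randomised protocols, and the final bound.
-/

namespace Pool.Agent.H557R3.Route

/-- Vertices of the lower bound network. -/
abbrev VV (C L n : ℕ) : Type := Nm C L ⊕ (Fin (mm C L) ⊕ (Fin n × Bool))

/-- Levels of the vertices. -/
def levV (C L n : ℕ) : VV C L n → ℕ
  | .inl x => lv C L x
  | .inr (.inl _) => 2 * L
  | .inr (.inr z) => if z.2 then 1 else 0

/-- The lower bound network. -/
def net (C L n : ℕ) : Network where
  V := VV C L n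
  fin := by
    have := nm_finite C L
    infer_instance
  adj := fun u v => levV C L n v = levV C L n u + 1

/-- Finite description of gadget data. -/
abbrev Fam (C L : ℕ) : Type := Id C L → Fin (mm C L) × (Fin (2 * L) → Nm C L)

/-- The gadget data of a description. -/
def bOf {C L : ℕ} (z : Fam C L) : Id C L → Fin (mm C L) × List (Nm C L) :=
  fun x => ((z x).1, List.ofFn (z x).2)

/-- The last nodes. -/
def nB (C L n : ℕ) (i : Fin (mm C L)) : (net C L n).V := (.inr (.inl i) : VV C L n)

/-- The padding nodes. -/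
def nC (C L n : ℕ) (p : Fin n) (d : Bool) : (net C L n).V := (.inr (.inr (p, d)) : VV C L n)

/-- The embedding of the gadget nodes. -/
def nn (C L n : ℕ) (y : Nm C L) : (net C L n).V := (.inl y : VV C L n)

/-- The last nodes. -/
def tt (C L n : ℕ) : Fin (mm C L) → List (net C L n).V := fun i => [nB C L n i]

theorem nn_inj {C L n : ℕ} {a b : Nm C L} (h : nn C L n a = nn C L n b) : a = b := Sum.inl.inj h

theorem nB_inj {C L n : ℕ} {a b : Fin (mm C L)} (h : nB C L n a = nB C L n b) : a = b :=
  Sum.inl.inj (Sum.inr.inj h)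

theorem nC_inj {C L n : ℕ} {a b : Fin n} {d d' : Bool} (h : nC C L n a d = nC C L n b d') :
    a = b := (Prod.mk.inj (Sum.inr.inj (Sum.inr.inj h))).1

theorem nn_ne_nB {C L n : ℕ} {a : Nm C L} {b : Fin (mm C L)} : nn C L n a ≠ nB C L n b :=
  fun h => Sum.inl_ne_inr h

theorem nn_ne_nC {C L n : ℕ} {a : Nm C L} {b : Fin n} {d : Bool} :
    nn C L n a ≠ nC C L n b d := fun h => Sum.inl_ne_inr h

theorem nC_ne_nB {C L n : ℕ} {a : Fin n} {d : Bool} {b : Fin (mm C L)} :
    nC C L n a d ≠ nB C L n b := fun h => Sum.inr_ne_inl (Sum.inr.inj h)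

open Classical in
/-- The padded path collection. -/
noncomputable def full {C L n : ℕ} (ι : Id C L → Fin n) (z : Fam C L) (p : Fin n) :
    List (net C L n).V :=
  if ∃ x, ι x = p then pathOf (tt C L n) (nn C L n) ι (bOf z) p
  else [nC C L n p false, nC C L n p true]

/-- The description gives legal paths. -/
structure Ok {C L n : ℕ} (ι : Id C L → Fin n) (z : Fam C L) : Prop where
  lev : ∀ x (k : ℕ) y, (bOf z x).2[k]? = some y → lv C L y = k
  cong : ∀ u v, Nat.card {p : Fin n // UsesEdge
    (pathOf (tt C L n) (nn C L n) ι (bOf z) p) u v} ≤ C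

variable {C L n : ℕ} {ι : Id C L → Fin n} {z : Fam C L}

theorem full_gadget (hι : Function.Injective ι) (x : Id C L) :
    full ι z (ι x) = (bOf z x).2.map (nn C L n) ++ tt C L n (bOf z x).1 := by
  classical
  unfold full
  rw [if_pos ⟨x, rfl⟩, pathOf_apply _ _ hι]

theorem full_pad (p : Fin n) (h : ¬ ∃ x, ι x = p) :
    full ι z p = [nC C L n p false, nC C L n p true] := by
  classical
  unfold full
  rw [if_neg h]

theorem bOf_len (x : Id C L) : (bOf z x).2.length = 2 * L := List.length_ofFn

theorem full_level (hι : Function.Injective ι) (hz : Ok (n := n) ι z) (p : Fin n) (k : ℕ)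
    (v : (net C L n).V) (h : (full ι z p)[k]? = some v) : levV C L n v = k := by
  classical
  by_cases hp : ∃ x, ι x = p
  · obtain ⟨x, rfl⟩ := hp
    rw [full_gadget hι] at h
    have hlen : ((bOf z x).2.map (nn C L n)).length = 2 * L := by
      rw [List.length_map, bOf_len]
    rcases lt_or_ge k (2 * L) with hk | hk
    · rw [List.getElem?_append_left (by rw [hlen]; exact hk), List.getElem?_map] at h
      obtain ⟨y, hy, rfl⟩ := Option.map_eq_some_iff.1 h
      exact hz.lev x k y hy
    · rw [List.getElem?_append_right (by rw [hlen]; exact hk), hlen] at h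
      obtain ⟨d, rfl⟩ : ∃ d, k = 2 * L + d := ⟨k - 2 * L, by omega⟩
      rw [Nat.add_sub_cancel_left] at h
      rcases d with _ | d
      · have : nB C L n (bOf z x).1 = v := Option.some.inj h
        subst this
        rfl
      · exact absurd h (by simp [tt])
  · rw [full_pad p hp] at h
    rcases k with _ | _ | k
    · have : nC C L n p false = v := Option.some.inj h
      subst this
      rfl
    · have : nC C L n p true = v := Option.some.inj h
      subst this
      rfl
    · exact absurd h (by simp)

theorem full_nonempty (hι : Function.Injective ι) (p : Fin n) : full ι z p ≠ [] := by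
  classical
  by_cases hp : ∃ x, ι x = p
  · obtain ⟨x, rfl⟩ := hp
    rw [full_gadget hι]
    simp [tt]
  · rw [full_pad p hp]
    simp

theorem full_length (hι : Function.Injective ι) (hL : 0 < L) (p : Fin n) :
    (full ι z p).length ≤ 2 * L + 1 := by
  classical
  by_cases hp : ∃ x, ι x = p
  · obtain ⟨x, rfl⟩ := hp
    rw [full_gadget hι, List.length_append, List.length_map, bOf_len]
    exact le_rfl
  · rw [full_pad p hp]
    simp only [List.length_cons, List.length_nil]
    omega

/-- The path collection of a legal description. -/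
noncomputable def coll (hι : Function.Injective ι) (hz : Ok (n := n) ι z) :
    PathCollection (net C L n) n where
  path := full ι z
  nonempty := full_nonempty hι
  isPath := fun i => by
    rw [List.isChain_iff_getElem]
    intro k hk
    show levV C L n _ = levV C L n _ + 1
    rw [full_level hι hz i (k + 1) _ (List.getElem?_eq_getElem hk),
      full_level hι hz i k _ (List.getElem?_eq_getElem (by omega))]

theorem coll_simple (hι : Function.Injective ι) (hz : Ok (n := n) ι z) :
    (coll hι hz).Simple := by
  intro i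
  show (full ι z i).Nodup
  rw [List.nodup_iff_injective_get]
  intro a b hab
  have h1 := full_level hι hz i a.1 _ (List.getElem?_eq_getElem a.2)
  have h2 := full_level hι hz i b.1 _ (List.getElem?_eq_getElem b.2)
  have h3 : (full ι z i)[a.1] = (full ι z i)[b.1] := hab
  rw [h3, h2] at h1
  exact Fin.ext h1.symm

theorem coll_leveled (hι : Function.Injective ι) (hz : Ok (n := n) ι z) :
    (coll hι hz).Leveled := by
  refine ⟨levV C L n, ?_⟩
  rintro i u v ⟨k, h1, h2⟩
  rw [full_level hι hz i k u h1, full_level hι hz i (k + 1) v h2]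

theorem coll_congestion (hι : Function.Injective ι) (hz : Ok (n := n) ι z) (hC : 0 < C) :
    (coll hι hz).congestion ≤ C := by
  classical
  unfold PathCollection.congestion
  have key : ∀ e : (net C L n).V × (net C L n).V,
      Nat.card {i : Fin n // UsesEdge ((coll hι hz).path i) e.1 e.2} ≤ C := by
    rintro ⟨u, v⟩
    show Nat.card {i : Fin n // UsesEdge (full ι z i) u v} ≤ C
    by_cases hu : ∃ q d, u = nC C L n q d
    · obtain ⟨q, d, rfl⟩ := hu
      have hkey : ∀ p, UsesEdge (full ι z p) (nC C L n q d) v → p = q := by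
        intro p hp
        have hm := usesEdge_mem hp
        by_cases hx : ∃ x, ι x = p
        · obtain ⟨x, rfl⟩ := hx
          exfalso
          rw [full_gadget hι, List.mem_append] at hm
          rcases hm with hm | hm
          · obtain ⟨y, _, hy⟩ := List.mem_map.1 hm
            exact nn_ne_nC hy
          · exact nC_ne_nB (List.mem_singleton.1 hm)
        · rw [full_pad p hx] at hm
          simp only [List.mem_cons, List.not_mem_nil, or_false] at hm
          rcases hm with hm | hm
          · exact (nC_inj hm).symm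
          · exact (nC_inj hm).symm
      have : Subsingleton {i : Fin n // UsesEdge (full ι z i) (nC C L n q d) v} :=
        ⟨fun a b => Subtype.ext ((hkey _ a.2).trans (hkey _ b.2).symm)⟩
      exact (Finite.card_le_one_iff_subsingleton.2 this).trans hC
    · refine le_trans ?_ (hz.cong u v)
      have hsub : ∀ p, UsesEdge (full ι z p) u v →
          UsesEdge (pathOf (tt C L n) (nn C L n) ι (bOf z) p) u v := by
        intro p hp
        by_cases hx : ∃ x, ι x = p
        · unfold full at hp
          rwa [if_pos hx] at hp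
        · exfalso
          have hm := usesEdge_mem hp
          rw [full_pad p hx] at hm
          simp only [List.mem_cons, List.not_mem_nil, or_false] at hm
          rcases hm with hm | hm
          · exact hu ⟨_, _, hm⟩
          · exact hu ⟨_, _, hm⟩
      exact Nat.card_le_card_of_injective (fun p => ⟨p.1, hsub p.1 p.2⟩)
        (fun p q hpq => Subtype.ext (Subtype.mk.inj hpq))
  rcases isEmpty_or_nonempty ((net C L n).V × (net C L n).V) with h | h
  · rw [ciSup_of_empty]
    exact Nat.zero_le _
  · exact ciSup_le key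

theorem coll_dilation (hι : Function.Injective ι) (hz : Ok (n := n) ι z) (hL : 0 < L) :
    (coll hι hz).dilation ≤ 2 * L := by
  unfold PathCollection.dilation
  rcases isEmpty_or_nonempty (Fin n) with h | h
  · rw [ciSup_of_empty]
    exact Nat.zero_le _
  · refine ciSup_le fun i => ?_
    have := full_length (z := z) hι hL i
    show (full ι z i).length - 1 ≤ 2 * L
    omega

/-- The bad event for a deterministic protocol. -/
def Bad (A : Protocol (net C L n) n) (ι : Id C L → Fin n) (z : Fam C L) : Prop :=
  Ok (n := n) ι z ∧ ∃ x, Late A (full ι z) (ι x) (2 * L) (L * C)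

theorem exists_bad (A : Protocol (net C L n) n) (hC : 0 < C) (hι : Function.Injective ι) :
    ∃ z : Fam C L, Bad A ι z := by
  classical
  obtain ⟨i₀, _, b, hb⟩ := claim A hC L (Fin (mm C L)) (tt C L n) (nn C L n) ι
    (fun a b hab => nn_inj hab) hι
    (fun i i' v h1 h2 => nB_inj ((List.mem_singleton.1 h1).symm.trans (List.mem_singleton.1 h2)))
    (fun y i h => nn_ne_nB (List.mem_singleton.1 h))
    Finset.univ (by simp)
  let z : Fam C L := fun x => ((b x).1, fun k => (b x).2.get (Fin.cast (hb.len x).symm k))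
  have hz : bOf z = b := by
    funext x
    refine Prod.ext rfl ?_
    show List.ofFn (fun k => (b x).2.get (Fin.cast (hb.len x).symm k)) = (b x).2
    refine List.ext_get ?_ ?_
    · rw [List.length_ofFn, hb.len]
    · intro k h1 h2
      simp
  obtain ⟨x, _, hx⟩ := hb.late
  refine ⟨z, ⟨?_, ?_⟩, x, ?_⟩
  · rw [hz]; exact hb.lev
  · rw [hz]; exact hb.cong
  · have heq : ∀ x, full ι z (ι x) = pathOf (tt C L n) (nn C L n) ι b (ι x) := by
      intro x
      unfold full
      rw [if_pos ⟨x, rfl⟩, hz]
    have hmem : ∀ (p : Fin n) (v : (net C L n).V), v ∈ Set.range (nn C L n) → v ∈ full ι z p →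
        ∃ x, ι x = p := by
      rintro p v ⟨y, rfl⟩ hv
      by_contra hp
      rw [full_pad p hp] at hv
      rcases List.mem_cons.1 hv with h | h
      · exact nn_ne_nC h
      · exact nn_ne_nC (List.mem_singleton.1 h)
    refine late_transfer A (full ι z) (pathOf (tt C L n) (nn C L n) ι b)
      (Set.range (nn C L n)) ?_ ?_ ?_ (ι x) (heq x) _ _ ?_ hx
    · intro p v hv hvp
      obtain ⟨x, rfl⟩ := hmem p v hv hvp
      exact heq x
    · intro p v _ hvp
      by_cases hp : ∃ x, ι x = p
      · obtain ⟨x, rfl⟩ := hp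
        exact heq x
      · rw [pathOf_none _ _ _ _ hp] at hvp
        simp at hvp
    · intro p k v hk hv k' hk'
      obtain ⟨x, rfl⟩ := hmem p v hv (List.mem_of_getElem? hk)
      rw [full_gadget hι] at hk ⊢
      have hkl : k < ((bOf z x).2.map (nn C L n)).length := by
        by_contra hge
        push Not at hge
        rw [List.getElem?_append_right hge] at hk
        obtain ⟨y, rfl⟩ := hv
        exact nn_ne_nB (List.mem_singleton.1 (List.mem_of_getElem? hk))
      have hlt := hk'.trans hkl
      rw [List.getElem?_append_left hlt, List.getElem?_eq_getElem hlt]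
      refine ⟨_, ?_, rfl⟩
      rw [List.getElem_map]
      exact ⟨_, rfl⟩
    · intro k hk
      rw [full_gadget hι]
      have hlt : k < ((bOf z x).2.map (nn C L n)).length := by
        rw [List.length_map, bOf_len]; exact hk
      rw [List.getElem?_append_left hlt, List.getElem?_eq_getElem hlt]
      refine ⟨_, ?_, rfl⟩
      rw [List.getElem_map]
      exact ⟨_, rfl⟩

theorem not_delivered (A : Protocol (net C L n) n) (hι : Function.Injective ι)
    (hz : Ok (n := n) ι z) {x : Id C L} (hx : Late A (full ι z) (ι x) (2 * L) (L * C)) (T : ℕ)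
    (hT : T < L * C) : ¬ Delivered A (coll hι hz) T := by
  intro hd
  have h1 : (run A (full ι z) T).pos (ι x) + 1 = (full ι z (ι x)).length := hd (ι x)
  have h2 := hx T hT
  rw [full_gadget hι, List.length_append, List.length_map, bOf_len] at h1
  have h3 : (tt C L n (bOf z x).1).length = 1 := rfl
  rw [h3] at h1
  omega

open MeasureTheory in
/-- A randomised protocol has to fail with positive probability on some collection. -/
theorem random_bad {Ω : Type} [MeasurableSpace Ω] (μ : Measure Ω) [IsProbabilityMeasure μ]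
    (Pr : Ω → Protocol (net C L n) n) (hC : 0 < C) (hι : Function.Injective ι) :
    ∃ z : Fam C L, (1 : ENNReal) / (Nat.card (Fam C L) + 1 : ℕ) < μ {ω | Bad (Pr ω) ι z} := by
  classical
  have := nm_finite C L
  have := id_finite C L
  have hfin : Finite (Fam C L) := inferInstance
  have := Fintype.ofFinite (Fam C L)
  by_contra hcon
  push Not at hcon
  have hcov : (Set.univ : Set Ω) ⊆ ⋃ z : Fam C L, {ω | Bad (Pr ω) ι z} := by
    intro ω _
    obtain ⟨z, hz⟩ := exists_bad (Pr ω) hC hι
    exact Set.mem_iUnion.2 ⟨z, hz⟩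
  have h1 : (1 : ENNReal) ≤ ∑ z : Fam C L, μ {ω | Bad (Pr ω) ι z} := by
    calc (1 : ENNReal) = μ Set.univ := measure_univ.symm
      _ ≤ μ (⋃ z : Fam C L, {ω | Bad (Pr ω) ι z}) := measure_mono hcov
      _ ≤ ∑ z : Fam C L, μ {ω | Bad (Pr ω) ι z} := measure_iUnion_fintype_le _ _
  have h2 : ∑ z : Fam C L, μ {ω | Bad (Pr ω) ι z} ≤
      (Nat.card (Fam C L) : ENNReal) * (1 / (Nat.card (Fam C L) + 1 : ℕ)) := by
    calc ∑ z : Fam C L, μ {ω | Bad (Pr ω) ι z}
        ≤ ∑ _z : Fam C L, (1 : ENNReal) / (Nat.card (Fam C L) + 1 : ℕ) :=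
          Finset.sum_le_sum fun z _ => hcon z
      _ = _ := by rw [Finset.sum_const, Finset.card_univ, nsmul_eq_mul, Nat.card_eq_fintype_card]
  have h3 : (Nat.card (Fam C L) : ENNReal) * (1 / (Nat.card (Fam C L) + 1 : ℕ)) < 1 := by
    rw [mul_one_div]
    refine ENNReal.div_lt_of_lt_mul' ?_
    rw [mul_one]
    exact_mod_cast Nat.lt_succ_self _
  exact absurd (h1.trans h2) (not_le.2 h3)

theorem id_card (C : ℕ) : ∀ l, Nat.card (Id C l) = C ^ l
  | 0 => by
    show Nat.card Unit = 1
    simp
  | l + 1 => by
    show Nat.card (Fin C × Id C l) = C ^ (l + 1)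
    rw [Nat.card_prod, id_card C l, Nat.card_eq_fintype_card, Fintype.card_fin, pow_succ, mul_comm]

theorem exists_iota {C L n : ℕ} (h : C ^ L ≤ n) : ∃ ι : Id C L → Fin n, Function.Injective ι := by
  have := id_finite C L
  have hc := id_card C L
  refine ⟨fun x => Fin.castLE (hc ▸ h) (Finite.equivFin (Id C L) x), fun a b hab => ?_⟩
  exact (Finite.equivFin (Id C L)).injective (Fin.castLE_injective _ hab)

open MeasureTheory Filter in
theorem main (ε α c : ℝ) (hε : 0 < ε) (hα : 0 < α) :
    ∃ n₀ : ℕ, ∀ n : ℕ, n₀ ≤ n → ∃ G : Network,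
      ∀ (Ω : Type) [MeasurableSpace Ω] (μ : Measure Ω) [IsProbabilityMeasure μ]
        (Pr : Ω → Protocol G n),
      ∃ P : PathCollection G n, P.Simple ∧ P.Leveled ∧
        (max P.congestion P.dilation : ℝ) < Real.log n ^ (1 + ε) ∧
        ENNReal.ofReal ((n : ℝ) ^ (-α)) <
          μ {ω | ∀ T : ℕ, (T : ℝ) ≤ c * (P.congestion + P.dilation) →
            ¬ Delivered (Pr ω) P T} := by
  classical
  obtain ⟨k, hk⟩ := exists_nat_ge (max c 1)
  set C : ℕ := 3 * k + 1 with hCdef
  have hk1 : (1 : ℝ) ≤ k := (le_max_right _ _).trans hk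
  have hkc : c ≤ k := (le_max_left _ _).trans hk
  have hC : 0 < C := by omega
  -- asymptotic conditions
  have hlog : Tendsto (fun n : ℕ => Real.log n ^ (1 + ε)) atTop atTop :=
    (tendsto_rpow_atTop (by linarith)).comp (Real.tendsto_log_atTop.comp tendsto_natCast_atTop_atTop)
  have hpow : Tendsto (fun n : ℕ => (n : ℝ) ^ (-α)) atTop (nhds 0) :=
    (tendsto_rpow_neg_atTop hα).comp tendsto_natCast_atTop_atTop
  have e1 := hlog.eventually_gt_atTop ((2 * C : ℕ) : ℝ)
  have hFpos : (0 : ℝ) < 1 / ((Nat.card (Fam C C) + 1 : ℕ) : ℝ) := by positivity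
  have e2 := hpow.eventually (gt_mem_nhds hFpos)
  have e3 := eventually_ge_atTop (C ^ C)
  obtain ⟨n₀, hn₀⟩ := eventually_atTop.1 (e1.and (e2.and e3))
  refine ⟨n₀, fun n hn => ⟨net C C n, ?_⟩⟩
  obtain ⟨h1, h2, h3⟩ := hn₀ n hn
  intro Ω _ μ _ Pr
  obtain ⟨ι, hι⟩ := exists_iota h3
  obtain ⟨z, hz⟩ := random_bad μ Pr hC hι
  have hne : {ω | Bad (Pr ω) ι z}.Nonempty := by
    by_contra hemp
    rw [Set.not_nonempty_iff_eq_empty] at hemp
    rw [hemp, measure_empty] at hz
    exact not_lt_zero hz
  obtain ⟨ω₀, hok, _⟩ := hne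
  have hcong := coll_congestion hι hok hC
  have hdil := coll_dilation hι hok hC
  refine ⟨coll hι hok, coll_simple hι hok, coll_leveled hι hok, ?_, ?_⟩
  · refine lt_of_le_of_lt ?_ h1
    have h4 : ((coll hι hok).congestion : ℝ) ≤ ((2 * C : ℕ) : ℝ) := by
      exact_mod_cast hcong.trans (by omega)
    have h5 : ((coll hι hok).dilation : ℝ) ≤ ((2 * C : ℕ) : ℝ) := by exact_mod_cast hdil
    exact max_le h4 h5
  · refine lt_of_lt_of_le (lt_trans ?_ hz) (measure_mono ?_)
    · have h4 : (1 : ENNReal) / (Nat.card (Fam C C) + 1 : ℕ) =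
          ENNReal.ofReal (1 / ((Nat.card (Fam C C) + 1 : ℕ) : ℝ)) := by
        rw [ENNReal.ofReal_div_of_pos (by positivity), ENNReal.ofReal_one,
          ENNReal.ofReal_natCast]
      rw [h4]
      exact (ENNReal.ofReal_lt_ofReal_iff hFpos).2 h2
    · rintro ω ⟨_, x, hx⟩ T hT
      refine not_delivered (Pr ω) hι hok hx T ?_
      have h4 : (T : ℝ) ≤ k * (C + 2 * C) := by
        refine hT.trans ?_
        have h5 : ((coll hι hok).congestion : ℝ) ≤ C := by exact_mod_cast hcong
        have h6 : ((coll hι hok).dilation : ℝ) ≤ 2 * C := by exact_mod_cast hdil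
        have h7 : (0 : ℝ) ≤ ((coll hι hok).congestion : ℝ) + (coll hι hok).dilation := by
          positivity
        calc c * (((coll hι hok).congestion : ℝ) + (coll hι hok).dilation)
            ≤ k * (((coll hι hok).congestion : ℝ) + (coll hι hok).dilation) :=
              mul_le_mul_of_nonneg_right hkc h7
          _ ≤ k * (C + 2 * C) := mul_le_mul_of_nonneg_left (by linarith) (by positivity)
      have h8 : T ≤ k * (C + 2 * C) := by exact_mod_cast h4
      calc T ≤ k * (C + 2 * C) := h8
        _ = (3 * k) * C := by ring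
        _ < C * C := Nat.mul_lt_mul_of_pos_right (by omega) hC

end Pool.Agent.H557R3.Route
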