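import Pool.Agent.H557R3.RouteDefs

set_option autoImplicit false

/-!
The tree gadget: every online protocol needs about `C * L` steps on some path collection of
congestion `C` and dilation `2 L`.
-/

namespace Pool.Agent.H557R3.Route

variable {G : Network} {n : ℕ}

theorem pos_succ (A : Protocol G n) (P : Fin n → List G.V) (t : ℕ) (i : Fin n) :
    (run A P (t + 1)).pos i = (run A P t).pos i ∨
      ((run A P (t + 1)).pos i = (run A P t).pos i + 1 ∧
        ∃ v w, (P i)[(run A P t).pos i]? = some v ∧ (P i)[(run A P t).pos i + 1]? = some w ∧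
          A.forward v t ((run A P t).mem v) (view P (run A P t) v) w = some i) := by
  classical
  show (step A P t (run A P t)).pos i = _ ∨ ((step A P t (run A P t)).pos i = _ ∧ _)
  unfold step
  simp only
  split_ifs with h
  · exact Or.inr ⟨rfl, h⟩
  · exact Or.inl rfl

theorem pos_le_succ (A : Protocol G n) (P : Fin n → List G.V) (t : ℕ) (i : Fin n) :
    (run A P t).pos i ≤ (run A P (t + 1)).pos i := by
  rcases pos_succ A P t i with h | h
  · exact h.symm.le
  · rw [h.1]; exact Nat.le_succ _

theorem pos_mono (A : Protocol G n) (P : Fin n → List G.V) (i : Fin n) :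
    Monotone fun t => (run A P t).pos i := monotone_nat_of_le_succ fun t => pos_le_succ A P t i

/-- The crossing step. -/
theorem crossing (A : Protocol G n) (P : Fin n → List G.V) (i : Fin n) (a t : ℕ)
    (h : a + 1 ≤ (run A P t).pos i) : ∃ s, s < t ∧ (run A P s).pos i = a ∧
      ∃ v w, (P i)[a]? = some v ∧ (P i)[a + 1]? = some w ∧
        A.forward v s ((run A P s).mem v) (view P (run A P s) v) w = some i := by
  induction t with
  | zero => exact absurd h (Nat.not_succ_le_zero a)
  | succ t ih =>
    by_cases h' : a + 1 ≤ (run A P t).pos i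
    · obtain ⟨s, hs, hrest⟩ := ih h'
      exact ⟨s, hs.trans (Nat.lt_succ_self t), hrest⟩
    · rcases pos_succ A P t i with h2 | ⟨h2, hex⟩
      · exact absurd (h2 ▸ h) h'
      · have hp : (run A P t).pos i = a := by omega
        rw [hp] at hex
        exact ⟨t, Nat.lt_succ_self t, hp, hex⟩

/-- Before step `τ` the packet `i` has not reached the node number `a` of its path. -/
def Late (A : Protocol G n) (P : Fin n → List G.V) (i : Fin n) (a τ : ℕ) : Prop :=
  ∀ t < τ, (run A P t).pos i < a

theorem contention (A : Protocol G n) (P : Fin n → List G.V) {C : ℕ} (hC : 0 < C)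
    (p : Fin C → Fin n) (hp : Function.Injective p) (a τ : ℕ) (w x : G.V)
    (hw : ∀ j, (P (p j))[a]? = some w) (hx : ∀ j, (P (p j))[a + 1]? = some x)
    (hl : ∀ j, Late A P (p j) a τ) : ∃ j, Late A P (p j) (a + 1) (τ + C) := by
  by_contra hcon
  simp only [Late] at hcon
  push Not at hcon
  choose t ht1 ht2 using hcon
  have hcr := fun j => crossing A P (p j) a (t j) (ht2 j)
  choose s hs1 hs2 v w' hv hw' hf using hcr
  have hge : ∀ j, τ ≤ s j := by
    intro j
    by_contra hlt
    push Not at hlt
    have := hl j (s j) hlt
    rw [hs2 j] at this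
    exact lt_irrefl _ this
  have hvw : ∀ j, v j = w := fun j => Option.some.inj ((hv j).symm.trans (hw j))
  have hwx : ∀ j, w' j = x := fun j => Option.some.inj ((hw' j).symm.trans (hx j))
  have hinj : Function.Injective s := by
    intro j j' hjj
    have h1 := hf j
    have h2 := hf j'
    rw [hvw, hwx] at h1 h2
    rw [hjj] at h1
    exact hp (Option.some.inj (h1.symm.trans h2))
  have hcard : C ≤ C - 1 := by
    have h1 : (Finset.univ.image s) ⊆ Finset.Ico τ (τ + (C - 1)) := by
      intro y hy
      obtain ⟨j, _, rfl⟩ := Finset.mem_image.1 hy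
      rw [Finset.mem_Ico]
      have h2 := hs1 j
      have h3 := ht1 j
      exact ⟨hge j, by omega⟩
    have h2 := Finset.card_le_card h1
    rw [Finset.card_image_of_injective _ hinj, Nat.card_Ico, Finset.card_univ,
      Fintype.card_fin] at h2
    omega
  omega

/-- Locality: the run inside a set of nodes depends only on the packets which visit it. -/
theorem locality (A : Protocol G n) (P P' : Fin n → List G.V) (S : Set G.V)
    (h1 : ∀ i v, v ∈ S → v ∈ P i → P i = P' i) (h2 : ∀ i v, v ∈ S → v ∈ P' i → P i = P' i)
    (h3 : ∀ (i : Fin n) (k : ℕ) (v : G.V), (P i)[k]? = some v → v ∈ S → ∀ k' < k, ∃ v' ∈ S, (P i)[k']? = some v') (t : ℕ) :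
    (∀ v ∈ S, (run A P t).mem v = (run A P' t).mem v) ∧
    ∀ i, P i = P' i → ((run A P t).pos i = (run A P' t).pos i ∧
        (run A P t).st i = (run A P' t).st i) ∨
      ((∀ k, (run A P t).pos i ≤ k → ∀ v ∈ S, (P i)[k]? ≠ some v) ∧
        (∀ k, (run A P' t).pos i ≤ k → ∀ v ∈ S, (P' i)[k]? ≠ some v)) := by
  classical
  induction t with
  | zero => exact ⟨fun _ _ => rfl, fun i hi => Or.inl ⟨rfl, by simp only [run]; rw [hi]⟩⟩
  | succ t ih =>
    obtain ⟨ihm, ihp⟩ := ih
    -- views agree on S
    have hview : ∀ v ∈ S, view P (run A P t) v = view P' (run A P' t) v := by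
      intro v hv
      funext i
      unfold view
      by_cases hi : (P i)[(run A P t).pos i]? = some v
      · have heq : P i = P' i := h1 i v hv (List.mem_of_getElem? hi)
        rcases ihp i heq with ⟨hp, hst⟩ | ⟨ho, _⟩
        · rw [if_pos hi, if_pos (by rw [← heq, ← hp]; exact hi), heq, hst]
        · exact absurd hi (ho _ le_rfl v hv)
      · rw [if_neg hi]
        by_cases hi' : (P' i)[(run A P' t).pos i]? = some v
        · exfalso
          have heq : P i = P' i := h2 i v hv (List.mem_of_getElem? hi')
          rcases ihp i heq with ⟨hp, _⟩ | ⟨_, ho⟩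
          · apply hi
            rw [heq, hp]; exact hi'
          · exact absurd hi' (ho _ le_rfl v hv)
        · rw [if_neg hi']
    refine ⟨?_, ?_⟩
    · intro v hv
      show (step A P t (run A P t)).mem v = (step A P' t (run A P' t)).mem v
      unfold step
      simp only
      rw [ihm v hv, hview v hv]
    · intro i heq
      rcases ihp i heq with ⟨hp, hst⟩ | ⟨ho, ho'⟩
      · by_cases hin : ∃ v ∈ S, (P i)[(run A P t).pos i]? = some v
        · obtain ⟨v, hv, hiv⟩ := hin
          left
          have hiv' : (P' i)[(run A P' t).pos i]? = some v := by rw [← heq, ← hp]; exact hiv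
          constructor
          · show (step A P t (run A P t)).pos i = (step A P' t (run A P' t)).pos i
            unfold step
            simp only
            have hiff : (∃ v w, (P i)[(run A P t).pos i]? = some v ∧
                (P i)[(run A P t).pos i + 1]? = some w ∧
                A.forward v t ((run A P t).mem v) (view P (run A P t) v) w = some i) ↔
                (∃ v w, (P' i)[(run A P' t).pos i]? = some v ∧
                (P' i)[(run A P' t).pos i + 1]? = some w ∧
                A.forward v t ((run A P' t).mem v) (view P' (run A P' t) v) w = some i) := by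
              constructor
              · rintro ⟨v', w, e1, e2, e3⟩
                have : v' = v := Option.some.inj (e1.symm.trans hiv)
                subst this
                refine ⟨v', w, hiv', ?_, ?_⟩
                · rw [← heq, ← hp]; exact e2
                · rw [← ihm v' hv, ← hview v' hv]; exact e3
              · rintro ⟨v', w, e1, e2, e3⟩
                have : v' = v := Option.some.inj (e1.symm.trans hiv')
                subst this
                refine ⟨v', w, hiv, ?_, ?_⟩
                · rw [heq, hp]; exact e2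
                · rw [ihm v' hv, hview v' hv]; exact e3
            by_cases hmv : ∃ v w, (P i)[(run A P t).pos i]? = some v ∧
                (P i)[(run A P t).pos i + 1]? = some w ∧
                A.forward v t ((run A P t).mem v) (view P (run A P t) v) w = some i
            · rw [if_pos hmv, if_pos (hiff.1 hmv), hp]
            · rw [if_neg hmv, if_neg (fun h => hmv (hiff.2 h)), hp]
          · show (step A P t (run A P t)).st i = (step A P' t (run A P' t)).st i
            unfold step
            simp only
            rw [hiv, hiv']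
            simp only
            rw [ihm v hv, hview v hv]
        · right
          have hout : ∀ k, (run A P t).pos i ≤ k → ∀ v ∈ S, (P i)[k]? ≠ some v := by
            intro k hk v hv hkv
            rcases hk.eq_or_lt with rfl | hk
            · exact hin ⟨v, hv, hkv⟩
            · exact hin (h3 i k v hkv hv _ hk)
          refine ⟨fun k hk => hout k ((pos_le_succ A P t i).trans hk), fun k hk => ?_⟩
          rw [← heq]
          exact hout k (hp.le.trans ((pos_le_succ A P' t i).trans hk))
      · right
        exact ⟨fun k hk => ho k ((pos_le_succ A P t i).trans hk),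
          fun k hk => ho' k ((pos_le_succ A P' t i).trans hk)⟩

theorem late_transfer (A : Protocol G n) (P P' : Fin n → List G.V) (S : Set G.V)
    (h1 : ∀ i v, v ∈ S → v ∈ P i → P i = P' i) (h2 : ∀ i v, v ∈ S → v ∈ P' i → P i = P' i)
    (h3 : ∀ (i : Fin n) (k : ℕ) (v : G.V), (P i)[k]? = some v → v ∈ S → ∀ k' < k, ∃ v' ∈ S, (P i)[k']? = some v')
    (i : Fin n) (heq : P i = P' i) (a τ : ℕ)
    (ha : ∀ k < a, ∃ v ∈ S, (P i)[k]? = some v) (hl : Late A P' i a τ) : Late A P i a τ := by
  intro t ht
  rcases (locality A P P' S h1 h2 h3 t).2 i heq with ⟨hp, _⟩ | ⟨_, ho'⟩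
  · rw [hp]; exact hl t ht
  · exfalso
    obtain ⟨v, hv, hk⟩ := ha _ (hl t ht)
    rw [heq] at hk
    exact ho' _ le_rfl v hv hk

/-! ### The gadget -/

/-- Number of candidate suffixes needed at level `l`. -/
def mm (C : ℕ) : ℕ → ℕ
  | 0 => 1
  | l + 1 => (C * mm C l) * C

theorem mm_pos {C : ℕ} (hC : 0 < C) : ∀ l, 0 < mm C l
  | 0 => Nat.one_pos
  | l + 1 => Nat.mul_pos (Nat.mul_pos hC (mm_pos hC l)) hC

/-- Names of the nodes in a gadget of level `l`. -/
def Nm (C : ℕ) : ℕ → Type
  | 0 => Empty
  | l + 1 => (Fin C × Nm C l) ⊕ (Fin (C * mm C l) × Bool)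

/-- Names of the packets in a gadget of level `l`. -/
def Id (C : ℕ) : ℕ → Type
  | 0 => Unit
  | l + 1 => Fin C × Id C l

/-- A node of the subgadget number `j`. -/
def nl {C l : ℕ} (j : Fin C) (y : Nm C l) : Nm C (l + 1) := Sum.inl (j, y)

/-- A new node. -/
def nr {C l : ℕ} (α : Fin (C * mm C l)) (d : Bool) : Nm C (l + 1) := Sum.inr (α, d)

/-- A packet of the subgadget number `j`. -/
def ni {C l : ℕ} (j : Fin C) (x : Id C l) : Id C (l + 1) := (j, x)

theorem nm_finite (C : ℕ) : ∀ l, Finite (Nm C l)
  | 0 => (inferInstance : Finite Empty)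
  | l + 1 => by
    have := nm_finite C l
    exact (inferInstance : Finite ((Fin C × Nm C l) ⊕ (Fin (C * mm C l) × Bool)))

theorem id_finite (C : ℕ) : ∀ l, Finite (Id C l)
  | 0 => (inferInstance : Finite Unit)
  | l + 1 => by
    have := id_finite C l
    exact (inferInstance : Finite (Fin C × Id C l))

/-- The level of a node of a gadget. -/
def lv (C : ℕ) : ∀ l, Nm C l → ℕ
  | 0 => fun x => Empty.elim x
  | l + 1 => fun x => match x with
    | Sum.inl y => lv C l y.2
    | Sum.inr y => 2 * l + (if y.2 then 1 else 0)

open Classical in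
/-- The path collection described by gadget data. -/
noncomputable def pathOf {C l : ℕ} {κ V : Type} (t : κ → List V) (ν : Nm C l → V)
    (ι : Id C l → Fin n) (b : Id C l → κ × List (Nm C l)) : Fin n → List V :=
  fun p => if h : ∃ x, ι x = p then (b h.choose).2.map ν ++ t (b h.choose).1 else []

theorem pathOf_apply {C l : ℕ} {κ V : Type} (t : κ → List V) (ν : Nm C l → V)
    {ι : Id C l → Fin n} (hι : Function.Injective ι) (b : Id C l → κ × List (Nm C l))
    (x : Id C l) : pathOf t ν ι b (ι x) = (b x).2.map ν ++ t (b x).1 := by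
  classical
  have h : ∃ y, ι y = ι x := ⟨x, rfl⟩
  have hx : h.choose = x := hι h.choose_spec
  unfold pathOf
  rw [dif_pos h, hx]

theorem pathOf_none {C l : ℕ} {κ V : Type} (t : κ → List V) (ν : Nm C l → V)
    {ι : Id C l → Fin n} (b : Id C l → κ × List (Nm C l)) (p : Fin n) (h : ¬ ∃ x, ι x = p) :
    pathOf t ν ι b p = [] := by
  classical
  unfold pathOf
  rw [dif_neg h]

/-- Gadget data `b` of level `l` which delays the packet with suffix `i₀`. -/
structure GoodB (A : Protocol G n) {C l : ℕ} {κ : Type} (t : κ → List G.V) (ν : Nm C l → G.V)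
    (ι : Id C l → Fin n) (i₀ : κ) (b : Id C l → κ × List (Nm C l)) : Prop where
  len : ∀ x, (b x).2.length = 2 * l
  lev : ∀ x (k : ℕ) y, (b x).2[k]? = some y → lv C l y = k
  inj : ∀ x x', (b x).1 = (b x').1 → x = x'
  cong : ∀ u v, Nat.card {p : Fin n // UsesEdge (pathOf t ν ι b p) u v} ≤ C
  late : ∃ x, (b x).1 = i₀ ∧ Late A (pathOf t ν ι b) (ι x) (2 * l) (l * C)

theorem usesEdge_mem {V : Type} {l : List V} {u v : V} (h : UsesEdge l u v) : u ∈ l := by
  obtain ⟨k, h1, _⟩ := h
  exact List.mem_of_getElem? h1

theorem claim (A : Protocol G n) {C : ℕ} (hC : 0 < C) : ∀ (l : ℕ) (κ : Type) (t : κ → List G.V)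
    (ν : Nm C l → G.V) (ι : Id C l → Fin n), Function.Injective ν → Function.Injective ι →
    (∀ i i' v, v ∈ t i → v ∈ t i' → i = i') → (∀ y i, ν y ∉ t i) →
    ∀ K : Finset κ, mm C l ≤ K.card → ∃ i₀ ∈ K, ∃ b, GoodB A t ν ι i₀ b := by
  classical
  intro l
  induction l with
  | zero =>
    intro κ t ν ι hν hι hdisj hνt K hK
    have hKpos : 0 < K.card := lt_of_lt_of_le Nat.one_pos hK
    obtain ⟨i₀, hi₀⟩ := Finset.card_pos.1 hKpos
    refine ⟨i₀, hi₀, fun _ => (i₀, []), ?_, ?_, ?_, ?_, ?_⟩
    · intro x; rfl
    · intro x k y h; simp at h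
    · intro x x' _; rfl
    · intro u v
      have : Subsingleton {p : Fin n // UsesEdge (pathOf t ν ι (fun _ => (i₀, [])) p) u v} := by
        constructor
        rintro ⟨p, hp⟩ ⟨q, hq⟩
        have key : ∀ p, UsesEdge (pathOf t ν ι (fun _ => (i₀, [])) p) u v → p = ι () := by
          intro p hp
          by_contra hne
          rw [pathOf_none] at hp
          · exact absurd (usesEdge_mem hp) (by simp)
          · rintro ⟨x, hx⟩
            exact hne hx.symm
        exact Subtype.ext ((key p hp).trans (key q hq).symm)
      have h1 : Nat.card {p : Fin n // UsesEdge (pathOf t ν ι (fun _ => (i₀, [])) p) u v} ≤ 1 :=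
        Finite.card_le_one_iff_subsingleton.2 this
      exact h1.trans hC
    · exact ⟨(), rfl, fun t ht => absurd ht (by omega)⟩
  | succ l ih =>
    intro κ t ν ι hν hι hdisj hνt K hK
    set M := C * mm C l with hM
    -- reindexing of the suffixes
    obtain ⟨e, he, heK⟩ : ∃ e : Fin M × Fin C → κ, Function.Injective e ∧ ∀ z, e z ∈ K := by
      have hc : M * C ≤ K.card := hK
      let f : Fin (M * C) → K := fun i => K.equivFin.symm (Fin.castLE hc i)
      have hf : Function.Injective f := fun a b hab => by
        have := K.equivFin.symm.injective hab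
        exact Fin.castLE_injective hc this
      refine ⟨fun z => (f (finProdFinEquiv z)).1, fun a b hab => ?_, fun z => (f _).2⟩
      exact finProdFinEquiv.injective (hf (Subtype.ext hab))
    let wv : Fin M → G.V := fun α => ν (nr α false)
    let xv : Fin M → G.V := fun α => ν (nr α true)
    let τ : Fin C → Fin M → List G.V := fun j α => wv α :: xv α :: t (e (α, j))
    let νj : Fin C → Nm C l → G.V := fun j y => ν (nl j y)
    let ιj : Fin C → Id C l → Fin n := fun j x => ι (ni j x)
    have hνj : ∀ j, Function.Injective (νj j) := fun j a b hab => by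
      have := Sum.inl.inj (hν hab)
      exact (Prod.mk.inj this).2
    have hιj : ∀ j, Function.Injective (ιj j) := fun j a b hab => (Prod.mk.inj (hι hab)).2
    have hwx : ∀ α α', wv α ≠ xv α' := fun α α' h => by
      have := Sum.inr.inj (hν h)
      exact Bool.false_ne_true (Prod.mk.inj this).2
    have hww : ∀ α α', wv α = wv α' → α = α' := fun α α' h => by
      have := Sum.inr.inj (hν h)
      exact (Prod.mk.inj this).1
    have hxx : ∀ α α', xv α = xv α' → α = α' := fun α α' h => by
      have := Sum.inr.inj (hν h)
      exact (Prod.mk.inj this).1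
    have hτdisj : ∀ j α α' v, v ∈ τ j α → v ∈ τ j α' → α = α' := by
      intro j α α' v h1 h2
      simp only [τ, List.mem_cons] at h1 h2
      rcases h1 with rfl | rfl | h1
      · rcases h2 with h2 | h2 | h2
        · exact hww _ _ h2
        · exact absurd h2 (hwx _ _)
        · exact absurd h2 (hνt _ _)
      · rcases h2 with h2 | h2 | h2
        · exact absurd h2.symm (hwx _ _)
        · exact hxx _ _ h2
        · exact absurd h2 (hνt _ _)
      · rcases h2 with rfl | rfl | h2
        · exact absurd h1 (hνt _ _)
        · exact absurd h1 (hνt _ _)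
        · exact (Prod.mk.inj (he (hdisj _ _ _ h1 h2))).1
    have hντ : ∀ j y α, νj j y ∉ τ j α := by
      intro j y α h
      simp only [τ, List.mem_cons] at h
      rcases h with h | h | h
      · exact absurd (hν h) Sum.inl_ne_inr
      · exact absurd (hν h) Sum.inl_ne_inr
      · exact hνt _ _ h
    -- a common good index
    have hex : ∃ α : Fin M, ∀ j : Fin C, ∃ b, GoodB A (τ j) (νj j) (ιj j) α b := by
      by_contra hcon
      push Not at hcon
      let Bad : Fin C → Finset (Fin M) := fun j =>
        Finset.univ.filter fun α => ¬ ∃ b, GoodB A (τ j) (νj j) (ιj j) α b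
      have hBad : ∀ j, (Bad j).card ≤ mm C l - 1 := by
        intro j
        by_contra hlt
        push Not at hlt
        obtain ⟨α, hα, hgood⟩ := ih (Fin M) (τ j) (νj j) (ιj j) (hνj j) (hιj j) (hτdisj j) (hντ j)
          (Bad j) (by omega)
        exact (Finset.mem_filter.1 hα).2 hgood
      have hcov : (Finset.univ : Finset (Fin M)) ⊆ Finset.univ.biUnion Bad := by
        intro α _
        obtain ⟨j, hj⟩ := hcon α
        exact Finset.mem_biUnion.2 ⟨j, Finset.mem_univ _, Finset.mem_filter.2
          ⟨Finset.mem_univ _, fun ⟨b, hb⟩ => hj b hb⟩⟩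
      have h1 := Finset.card_le_card hcov
      have h2 : (Finset.univ.biUnion Bad).card ≤ C * (mm C l - 1) := by
        refine (Finset.card_biUnion_le).trans ?_
        calc ∑ j : Fin C, (Bad j).card ≤ ∑ _j : Fin C, (mm C l - 1) :=
              Finset.sum_le_sum fun j _ => hBad j
          _ = C * (mm C l - 1) := by simp
      rw [Finset.card_univ, Fintype.card_fin] at h1
      have h3 := mm_pos hC l
      have h4 : C * (mm C l - 1) < C * mm C l := Nat.mul_lt_mul_of_pos_left (by omega) hC
      omega
    obtain ⟨α, hα⟩ := hex
    choose bj hbj using hα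
    have hlate := fun j => (hbj j).late
    choose xj hxj hlj using hlate
    let b : Id C (l + 1) → κ × List (Nm C (l + 1)) := fun z =>
      (e ((bj z.1 z.2).1, z.1), (bj z.1 z.2).2.map (nl z.1) ++
        [nr (bj z.1 z.2).1 false, nr (bj z.1 z.2).1 true])
    have hP : ∀ j x, pathOf t ν ι b (ι (ni j x)) = pathOf (τ j) (νj j) (ιj j) (bj j) (ιj j x) := by
      intro j x
      rw [pathOf_apply (l := l + 1) t ν hι b (ni j x),
        pathOf_apply (τ j) (νj j) (hιj j) (bj j) x]
      show ((bj j x).2.map (nl j) ++
        [nr (bj j x).1 false, nr (bj j x).1 true]).map ν ++ t (e ((bj j x).1, j)) = _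
      rw [List.map_append, List.map_map, List.append_assoc]
      rfl
    have hPj : ∀ j x, pathOf t ν ι b (ι (ni j x)) = (bj j x).2.map (νj j) ++ τ j (bj j x).1 := by
      intro j x
      rw [hP, pathOf_apply (τ j) (νj j) (hιj j) (bj j) x]
    -- packets visiting the nodes of subgadget j
    have hvis : ∀ j p v, v ∈ Set.range (νj j) → v ∈ pathOf t ν ι b p →
        ∃ x, p = ι (ni j x) := by
      rintro j p v ⟨y, rfl⟩ hv
      by_cases hp : ∃ x, ι x = p
      · obtain ⟨⟨j', x⟩, rfl⟩ := hp
        change νj j y ∈ pathOf t ν ι b (ι (ni j' x)) at hv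
        rw [hPj, List.mem_append] at hv
        rcases hv with hv | hv
        · obtain ⟨y', _, hy'⟩ := List.mem_map.1 hv
          have := (Prod.mk.inj (Sum.inl.inj (hν hy'))).1
          subst this
          exact ⟨x, rfl⟩
        · exfalso
          simp only [τ, List.mem_cons] at hv
          rcases hv with hv | hv | hv
          · exact absurd (hν hv) Sum.inl_ne_inr
          · exact absurd (hν hv) Sum.inl_ne_inr
          · exact hνt _ _ hv
      · rw [pathOf_none _ _ _ _ hp] at hv
        simp at hv
    have h1 : ∀ j i v, v ∈ Set.range (νj j) → v ∈ pathOf t ν ι b i →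
        pathOf t ν ι b i = pathOf (τ j) (νj j) (ιj j) (bj j) i := by
      intro j i v hv hvi
      obtain ⟨x, rfl⟩ := hvis j i v hv hvi
      exact hP j x
    have h2 : ∀ j i v, v ∈ Set.range (νj j) → v ∈ pathOf (τ j) (νj j) (ιj j) (bj j) i →
        pathOf t ν ι b i = pathOf (τ j) (νj j) (ιj j) (bj j) i := by
      intro j i v _ hvi
      by_cases hp : ∃ x, ιj j x = i
      · obtain ⟨x, rfl⟩ := hp
        exact hP j x
      · rw [pathOf_none _ _ _ _ hp] at hvi
        simp at hvi
    have h3 : ∀ (j : Fin C) (i : Fin n) (k : ℕ) (v : G.V), (pathOf t ν ι b i)[k]? = some v → v ∈ Set.range (νj j) →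
        ∀ k' < k, ∃ v' ∈ Set.range (νj j), (pathOf t ν ι b i)[k']? = some v' := by
      intro j i k v hk hv k' hk'
      obtain ⟨x, rfl⟩ := hvis j i v hv (List.mem_of_getElem? hk)
      rw [hPj] at hk ⊢
      have hkl : k < ((bj j x).2.map (νj j)).length := by
        by_contra hge
        push Not at hge
        rw [List.getElem?_append_right hge] at hk
        obtain ⟨y, rfl⟩ := hv
        exact hντ j y _ (List.mem_of_getElem? hk)
      rw [List.getElem?_append_left (hk'.trans hkl)]
      have hlt := hk'.trans hkl
      rw [List.getElem?_eq_getElem hlt]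
      refine ⟨_, ?_, rfl⟩
      rw [List.getElem_map]
      exact ⟨_, rfl⟩
    have hlate' : ∀ j, Late A (pathOf t ν ι b) (ι (ni j (xj j))) (2 * l) (l * C) := by
      intro j
      refine late_transfer A _ _ (Set.range (νj j)) (h1 j) (h2 j) (h3 j) _ (hP j _) _ _ ?_ (hlj j)
      intro k hk
      rw [hPj]
      have hlt : k < ((bj j (xj j)).2.map (νj j)).length := by
        rw [List.length_map, (hbj j).len]; exact hk
      rw [List.getElem?_append_left hlt, List.getElem?_eq_getElem hlt]
      refine ⟨_, ?_, rfl⟩
      rw [List.getElem_map]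
      exact ⟨_, rfl⟩
    have hidx : ∀ j, ((bj j (xj j)).2.map (νj j)).length = 2 * l := fun j => by
      rw [List.length_map, (hbj j).len]
    have hw : ∀ j, (pathOf t ν ι b (ι (ni j (xj j))))[2 * l]? = some (wv α) := by
      intro j
      rw [hPj, List.getElem?_append_right (hidx j).le, hidx j, Nat.sub_self, hxj j]
      rfl
    have hx : ∀ j, (pathOf t ν ι b (ι (ni j (xj j))))[2 * l + 1]? = some (xv α) := by
      intro j
      rw [hPj, List.getElem?_append_right (by rw [hidx j]; omega), hidx j,
        Nat.add_sub_cancel_left, hxj j]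
      rfl
    obtain ⟨j₀, hj₀⟩ := contention A (pathOf t ν ι b) hC (fun j => ι (ni j (xj j)))
      (fun j j' hjj => (Prod.mk.inj (hι hjj)).1) (2 * l) (l * C) (wv α) (xv α) hw hx hlate'
    refine ⟨e (α, j₀), heK _, b, ?_, ?_, ?_, ?_, ?_⟩
    · rintro ⟨j, x⟩
      show ((bj j x).2.map _ ++ [_, _]).length = _
      rw [List.length_append, List.length_map, (hbj j).len]
      simp only [List.length_cons, List.length_nil]
      omega
    · rintro ⟨j, x⟩ k y hk
      change ((bj j x).2.map (nl j) ++
        [nr (bj j x).1 false, nr (bj j x).1 true])[k]? = some y at hk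
      have hlen : ((bj j x).2.map (nl (C := C) (l := l) j)).length = 2 * l := by
        rw [List.length_map, (hbj j).len]
      rcases lt_or_ge k (2 * l) with hlt | hge
      · rw [List.getElem?_append_left (by rw [hlen]; exact hlt), List.getElem?_map] at hk
        obtain ⟨y', hy', rfl⟩ := Option.map_eq_some_iff.1 hk
        exact (hbj j).lev x k y' hy'
      · rw [List.getElem?_append_right (by rw [hlen]; exact hge), hlen] at hk
        obtain ⟨d, rfl⟩ : ∃ d, k = 2 * l + d := ⟨k - 2 * l, by omega⟩
        rw [Nat.add_sub_cancel_left] at hk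
        rcases d with _ | _ | d
        · have : nr (bj j x).1 false = y := Option.some.inj hk
          subst this
          rfl
        · have : nr (bj j x).1 true = y := Option.some.inj hk
          subst this
          rfl
        · simp at hk
    · rintro ⟨j, x⟩ ⟨j', x'⟩ hxx'
      have h := Prod.mk.inj (he hxx')
      have hj : j = j' := h.2
      subst hj
      have := (hbj j).inj x x' h.1
      rw [this]
    · intro u v
      by_cases hu : ∃ j, u ∈ Set.range (νj j)
      · obtain ⟨j, hj⟩ := hu
        refine le_trans ?_ ((hbj j).cong u v)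
        have hsub : ∀ p, UsesEdge (pathOf t ν ι b p) u v →
            UsesEdge (pathOf (τ j) (νj j) (ιj j) (bj j) p) u v := by
          intro p hp
          rw [← h1 j p u hj (usesEdge_mem hp)]
          exact hp
        exact Nat.card_le_card_of_injective (fun p => ⟨p.1, hsub p.1 p.2⟩)
          (fun p q hpq => Subtype.ext (Subtype.mk.inj hpq))
      · have hform : ∀ p : {p : Fin n // UsesEdge (pathOf t ν ι b p) u v},
            ∃ z : Fin C × Id C l, p.1 = ι z := by
          rintro ⟨p, hp⟩
          by_contra hno
          push Not at hno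
          rw [pathOf_none] at hp
          · exact absurd (usesEdge_mem hp) (by simp)
          · rintro ⟨x, hx⟩
            exact hno x hx.symm
        choose z hz using hform
        have hinj : Function.Injective fun p => (z p).1 := by
          intro p q hpq
          have hpq' : (z p).1 = (z q).1 := hpq
          have hmem : ∀ r : {p : Fin n // UsesEdge (pathOf t ν ι b p) u v},
              u ∈ τ (z r).1 (bj (z r).1 (z r).2).1 := by
            intro r
            have h4 := usesEdge_mem r.2
            rw [hz r] at h4
            have h5 := hPj (z r).1 (z r).2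
            rw [show ι (z r) = ι (ni (z r).1 (z r).2) from rfl, h5, List.mem_append] at h4
            rcases h4 with h4 | h4
            · exfalso
              obtain ⟨y, _, hy⟩ := List.mem_map.1 h4
              exact hu ⟨_, y, hy⟩
            · exact h4
          have h6 := hmem p
          have h7 := hmem q
          rw [← hpq'] at h7
          have h8 := hτdisj _ _ _ _ h6 h7
          have h9 := (hbj (z p).1).inj _ _ h8
          apply Subtype.ext
          rw [hz p, hz q]
          exact congrArg ι (Prod.ext hpq' h9)
        have := Nat.card_le_card_of_injective _ hinj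
        simpa using this
    · refine ⟨ni j₀ (xj j₀), ?_, ?_⟩
      · show e ((bj j₀ (xj j₀)).1, j₀) = _
        rw [hxj]
      · intro s hs
        have := hj₀ s (by rw [Nat.succ_mul] at hs; exact hs)
        have h5 : (run A (pathOf t ν ι b) s).pos (ι (ni j₀ (xj j₀))) < 2 * l + 1 := this
        omega

end Pool.Agent.H557R3.Route
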